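import Mathlib

/-!
# The two inequalities of the problem
-/

open MeasureTheory Set

namespace MPdbfb19

/-- `C` is an admissible constant for the series inequality (S): for all nonnegative sequences
`a, b` indexed by the positive integers with finite `4/3`-norms,
`∑_{m,n ≥ 1} a_m b_n (m+n)^{-1/2} ≤ C ‖a‖_{4/3} ‖b‖_{4/3}`. -/
def ValidS (C : ℝ) : Prop :=
  ∀ a b : ℕ+ → ℝ, (∀ m, 0 ≤ a m) → (∀ n, 0 ≤ b n) →
    Summable (fun m => a m ^ (4 / 3 : ℝ)) → Summable (fun n => b n ^ (4 / 3 : ℝ)) →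
    ∑' (m : ℕ+) (n : ℕ+), ENNReal.ofReal (a m * b n * ((m : ℝ) + (n : ℝ)) ^ (-(1 / 2) : ℝ)) ≤
      ENNReal.ofReal (C * (∑' m, a m ^ (4 / 3 : ℝ)) ^ (3 / 4 : ℝ) *
        (∑' n, b n ^ (4 / 3 : ℝ)) ^ (3 / 4 : ℝ))

/-- `C` is an admissible constant for the integral inequality (I): for all nonnegative measurable
`f, g` with finite `4/3`-norms on `(0,∞)`,
`∬_{(0,∞)²} f(x) g(y) (x+y)^{-1/2} dx dy ≤ C ‖f‖_{4/3} ‖g‖_{4/3}`. -/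
def ValidI (C : ℝ) : Prop :=
  ∀ f g : ℝ → ℝ, Measurable f → Measurable g → (∀ x, 0 ≤ f x) → (∀ y, 0 ≤ g y) →
    IntegrableOn (fun x => f x ^ (4 / 3 : ℝ)) (Ioi 0) →
    IntegrableOn (fun y => g y ^ (4 / 3 : ℝ)) (Ioi 0) →
    ∫⁻ x in Ioi (0 : ℝ), ∫⁻ y in Ioi (0 : ℝ),
        ENNReal.ofReal (f x * g y * (x + y) ^ (-(1 / 2) : ℝ)) ≤
      ENNReal.ofReal (C * (∫ x in Ioi (0 : ℝ), f x ^ (4 / 3 : ℝ)) ^ (3 / 4 : ℝ) *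
        (∫ y in Ioi (0 : ℝ), g y ^ (4 / 3 : ℝ)) ^ (3 / 4 : ℝ))

/-- `μ` is an eigenvalue of the nonlinear integral equation attached to (I): there is a
nonnegative measurable `u` on `(0,∞)` with `∫ u⁴ = 1` and
`∫_0^∞ u(y)³ (x+y)^{-1/2} dy = μ u(x)` for every `x > 0`. -/
def Eigen (μ : ℝ) : Prop :=
  ∃ u : ℝ → ℝ, Measurable u ∧ (∀ x, 0 ≤ u x) ∧
    ∫⁻ x in Ioi (0 : ℝ), ENNReal.ofReal (u x ^ 4) = 1 ∧
    ∀ x ∈ Ioi (0 : ℝ),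
      ∫⁻ y in Ioi (0 : ℝ), ENNReal.ofReal (u y ^ 3 * (x + y) ^ (-(1 / 2) : ℝ)) =
        ENNReal.ofReal (μ * u x)

end MPdbfb19
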