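import Mathlib
import Pool.Agent.MP_dbfb19_an.Defs

/-!
# The series inequality and the integral inequality have the same admissible constants
-/

open MeasureTheory Set Filter Topology
open scoped ENNReal

namespace MPdbfb19

/-- The cell `((m-1)h, mh]`. -/
def cell (h : ℝ) (m : ℕ+) : Set ℝ := Ioc (((m : ℝ) - 1) * h) ((m : ℝ) * h)

lemma cell_meas (h : ℝ) (m : ℕ+) : MeasurableSet (cell h m) := measurableSet_Ioc

lemma mem_cell_iff {h x : ℝ} (hh : 0 < h) {m : ℕ+} : x ∈ cell h m ↔ ⌈x / h⌉₊ = (m : ℕ) := by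
  unfold cell
  rw [mem_Ioc, Nat.ceil_eq_iff (PNat.ne_zero m), Nat.cast_pred m.pos, lt_div_iff₀ hh,
    div_le_iff₀ hh]

lemma cell_union {h : ℝ} (hh : 0 < h) : ⋃ m, cell h m = Ioi 0 := by
  ext x
  rw [mem_iUnion, mem_Ioi]
  constructor
  · rintro ⟨m, hm⟩
    rw [mem_cell_iff hh] at hm
    have h1 : 0 < ⌈x / h⌉₊ := by rw [hm]; exact m.pos
    rw [Nat.ceil_pos] at h1
    exact (div_pos_iff_of_pos_right hh).1 h1
  · intro hx
    have h1 : 0 < ⌈x / h⌉₊ := Nat.ceil_pos.2 (div_pos hx hh)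
    exact ⟨⟨_, h1⟩, (mem_cell_iff hh).2 rfl⟩

lemma cell_disjoint {h : ℝ} (hh : 0 < h) : Pairwise (Function.onFun Disjoint (cell h)) := by
  intro m n hmn
  rw [Function.onFun, Set.disjoint_left]
  intro x hx hy
  rw [mem_cell_iff hh] at hx hy
  exact hmn (PNat.coe_injective (hx.symm.trans hy))

lemma lintegral_cells {h : ℝ} (hh : 0 < h) (u : ℝ → ℝ≥0∞) :
    ∫⁻ x in Ioi (0 : ℝ), u x = ∑' m : ℕ+, ∫⁻ x in cell h m, u x := by
  rw [← cell_union hh, lintegral_iUnion (fun m => cell_meas h m) (cell_disjoint hh)]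

lemma volume_cell {h : ℝ} (m : ℕ+) : volume (cell h m) = ENNReal.ofReal h := by
  unfold cell
  rw [Real.volume_Ioc]
  congr 1
  ring

lemma const_le_cell {m : ℕ+} {c : ℝ≥0∞} {u : ℝ → ℝ≥0∞} (hu : ∀ x ∈ cell 1 m, c ≤ u x) :
    c ≤ ∫⁻ x in cell 1 m, u x := by
  calc c = ∫⁻ _x in cell 1 m, c := by
        rw [setLIntegral_const, volume_cell, ENNReal.ofReal_one, mul_one]
    _ ≤ _ := setLIntegral_mono' (cell_meas _ _) hu

/-- Step function with values `a`. -/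
noncomputable def stp (a : ℕ+ → ℝ) (x : ℝ) : ℝ := a (Nat.toPNat' ⌈x⌉₊)

lemma stp_meas (a : ℕ+ → ℝ) : Measurable (stp a) := by
  unfold stp
  have h1 : Measurable (fun n : ℕ => a (Nat.toPNat' n)) := measurable_from_nat
  exact h1.comp Nat.measurable_ceil

lemma stp_nonneg {a : ℕ+ → ℝ} (ha : ∀ m, 0 ≤ a m) (x : ℝ) : 0 ≤ stp a x := ha _

lemma stp_cell {a : ℕ+ → ℝ} {m : ℕ+} {x : ℝ} (hx : x ∈ cell 1 m) : stp a x = a m := by
  rw [mem_cell_iff one_pos, div_one] at hx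
  unfold stp
  rw [hx]
  congr 1
  exact PNat.coe_toPNat' m

lemma stp_lintegral {a : ℕ+ → ℝ} (ha : ∀ m, 0 ≤ a m)
    (hs : Summable (fun m => a m ^ (4 / 3 : ℝ))) :
    ∫⁻ x in Ioi (0 : ℝ), ENNReal.ofReal (stp a x ^ (4 / 3 : ℝ)) =
      ENNReal.ofReal (∑' m, a m ^ (4 / 3 : ℝ)) := by
  rw [lintegral_cells one_pos, ENNReal.ofReal_tsum_of_nonneg
    (fun m => Real.rpow_nonneg (ha m) _) hs]
  refine tsum_congr fun m => ?_
  rw [setLIntegral_congr_fun (g := fun _ => ENNReal.ofReal (a m ^ (4 / 3 : ℝ)))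
    (cell_meas _ _) (fun x hx => by rw [stp_cell hx]), setLIntegral_const, volume_cell,
    ENNReal.ofReal_one, mul_one]

lemma stp_integrable {a : ℕ+ → ℝ} (ha : ∀ m, 0 ≤ a m)
    (hs : Summable (fun m => a m ^ (4 / 3 : ℝ))) :
    IntegrableOn (fun x => stp a x ^ (4 / 3 : ℝ)) (Ioi 0) := by
  have hm : Measurable (fun x => stp a x ^ (4 / 3 : ℝ)) := (stp_meas a).pow_const _
  refine ⟨hm.aestronglyMeasurable, ?_⟩
  rw [hasFiniteIntegral_iff_ofReal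
    (Eventually.of_forall fun x => Real.rpow_nonneg (stp_nonneg ha x) _), stp_lintegral ha hs]
  exact ENNReal.ofReal_lt_top

lemma stp_integral {a : ℕ+ → ℝ} (ha : ∀ m, 0 ≤ a m)
    (hs : Summable (fun m => a m ^ (4 / 3 : ℝ))) :
    ∫ x in Ioi (0 : ℝ), stp a x ^ (4 / 3 : ℝ) = ∑' m, a m ^ (4 / 3 : ℝ) := by
  rw [integral_eq_lintegral_of_nonneg_ae
    (Eventually.of_forall fun x => Real.rpow_nonneg (stp_nonneg ha x) _)
    ((stp_meas a).pow_const _).aestronglyMeasurable, stp_lintegral ha hs,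
    ENNReal.toReal_ofReal (tsum_nonneg fun m => Real.rpow_nonneg (ha m) _)]

theorem validS_of_validI {C : ℝ} (h : ValidI C) : ValidS C := by
  intro a b ha hb hsa hsb
  have key := h (stp a) (stp b) (stp_meas a) (stp_meas b) (fun x => ha _) (fun x => hb _)
    (stp_integrable ha hsa) (stp_integrable hb hsb)
  rw [stp_integral ha hsa, stp_integral hb hsb] at key
  refine le_trans ?_ key
  rw [lintegral_cells one_pos]
  refine ENNReal.tsum_le_tsum fun m => const_le_cell fun x hx => ?_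
  rw [lintegral_cells one_pos]
  refine ENNReal.tsum_le_tsum fun n => const_le_cell fun y hy => ?_
  rw [stp_cell hx, stp_cell hy]
  apply ENNReal.ofReal_le_ofReal
  have hx0 : 0 < x := by
    have : x ∈ ⋃ m, cell 1 m := mem_iUnion.2 ⟨m, hx⟩
    rw [cell_union one_pos] at this
    exact this
  have hy0 : 0 < y := by
    have : y ∈ ⋃ m, cell 1 m := mem_iUnion.2 ⟨n, hy⟩
    rw [cell_union one_pos] at this
    exact this
  have hx1 : x ≤ (m : ℝ) := by have := hx.2; linarith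
  have hy1 : y ≤ (n : ℝ) := by have := hy.2; linarith
  refine mul_le_mul_of_nonneg_left ?_ (mul_nonneg (ha _) (hb _))
  exact Real.rpow_le_rpow_of_nonpos (by linarith) (by linarith) (by norm_num)

/-! ### The converse -/

lemma validS_nonneg {C : ℝ} (h : ValidS C) : 0 ≤ C := by
  by_contra hC
  rw [not_le] at hC
  set a : ℕ+ → ℝ := fun m => if m = 1 then 1 else 0 with ha
  have h0 : ∀ m, 0 ≤ a m := by
    intro m
    simp only [ha]
    split_ifs <;> norm_num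
  have e : (fun m => a m ^ (4 / 3 : ℝ)) = a := by
    funext m
    simp only [ha]
    split_ifs
    · rw [Real.one_rpow]
    · rw [Real.zero_rpow (by norm_num)]
  have hs : Summable (fun m => a m ^ (4 / 3 : ℝ)) := by
    rw [e]
    exact (hasSum_ite_eq (1 : ℕ+) (1 : ℝ)).summable
  have ht : ∑' m, a m ^ (4 / 3 : ℝ) = 1 := by
    rw [e]
    exact (hasSum_ite_eq (1 : ℕ+) (1 : ℝ)).tsum_eq
  have key := h a a h0 h0 hs hs
  rw [ht, Real.one_rpow, mul_one, mul_one, ENNReal.ofReal_of_nonpos hC.le] at key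
  have h1 := le_trans (ENNReal.le_tsum (1 : ℕ+)) key
  have h2 := le_trans (ENNReal.le_tsum (1 : ℕ+)) h1
  rw [nonpos_iff_eq_zero, ENNReal.ofReal_eq_zero] at h2
  simp only [ha, if_true] at h2
  have h3 : (0 : ℝ) < 1 * 1 * (((1 : ℕ+) : ℝ) + ((1 : ℕ+) : ℝ)) ^ (-(1 / 2) : ℝ) := by
    have : (0 : ℝ) < ((1 : ℕ+) : ℝ) := by simp
    positivity
  linarith

lemma cell_int_le {h : ℝ} (hh : 0 < h) (m : ℕ+) {F : ℝ → ℝ≥0∞} (hF : Measurable F) :
    (∫⁻ x in cell h m, F x) ^ (4 / 3 : ℝ) ≤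
      ENNReal.ofReal (h ^ (1 / 3 : ℝ)) * ∫⁻ x in cell h m, F x ^ (4 / 3 : ℝ) := by
  have hc : Real.HolderConjugate (4 / 3) 4 := by
    rw [Real.holderConjugate_iff]
    norm_num
  have h1 := ENNReal.lintegral_mul_le_Lp_mul_Lq (volume.restrict (cell h m)) hc
    hF.aemeasurable (g := fun _ => 1) aemeasurable_const
  simp only [Pi.mul_apply, mul_one, ENNReal.one_rpow, lintegral_const, one_mul,
    Measure.restrict_apply_univ, volume_cell] at h1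
  have h2 := ENNReal.rpow_le_rpow h1 (by norm_num : (0 : ℝ) ≤ 4 / 3)
  refine h2.trans (le_of_eq ?_)
  rw [ENNReal.mul_rpow_of_nonneg _ _ (by norm_num), ← ENNReal.rpow_mul, ← ENNReal.rpow_mul,
    ENNReal.ofReal_rpow_of_pos hh]
  have e1 : (1 / (4 / 3) * (4 / 3) : ℝ) = 1 := by norm_num
  have e2 : (1 / 4 * (4 / 3) : ℝ) = 1 / 3 := by norm_num
  rw [e1, e2, ENNReal.rpow_one, mul_comm]

/-- The discretised kernel. -/
noncomputable def kd (δ x y : ℝ) : ℝ≥0∞ :=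
  ENNReal.ofReal ((δ * (⌈x / δ⌉₊ : ℝ) + δ * (⌈y / δ⌉₊ : ℝ)) ^ (-(1 / 2) : ℝ))

lemma kd_meas (δ : ℝ) : Measurable (fun z : ℝ × ℝ => kd δ z.1 z.2) := by
  unfold kd
  have h1 : Measurable (fun z : ℝ × ℝ => (⌈z.1 / δ⌉₊ : ℝ)) :=
    (measurable_from_nat (f := fun n : ℕ => (n : ℝ))).comp
      (Nat.measurable_ceil.comp (measurable_fst.div_const δ))
  have h2 : Measurable (fun z : ℝ × ℝ => (⌈z.2 / δ⌉₊ : ℝ)) :=
    (measurable_from_nat (f := fun n : ℕ => (n : ℝ))).comp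
      (Nat.measurable_ceil.comp (measurable_snd.div_const δ))
  exact (((h1.const_mul δ).add (h2.const_mul δ)).pow_const _).ennreal_ofReal

lemma kd_cell {δ : ℝ} (hδ : 0 < δ) {m n : ℕ+} {x y : ℝ} (hx : x ∈ cell δ m) (hy : y ∈ cell δ n) :
    kd δ x y = ENNReal.ofReal (δ ^ (-(1 / 2) : ℝ)) *
      ENNReal.ofReal (((m : ℝ) + (n : ℝ)) ^ (-(1 / 2) : ℝ)) := by
  rw [mem_cell_iff hδ] at hx hy
  unfold kd
  rw [hx, hy, ← ENNReal.ofReal_mul (Real.rpow_nonneg hδ.le _), ← mul_add,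
    Real.mul_rpow hδ.le (by positivity)]

lemma discrete_sum {δ : ℝ} (hδ : 0 < δ) {F G : ℝ → ℝ≥0∞} (hF : Measurable F) (hG : Measurable G) :
    ∫⁻ x in Ioi (0 : ℝ), ∫⁻ y in Ioi (0 : ℝ), F x * (G y * kd δ x y) =
      ∑' (m : ℕ+) (n : ℕ+), (∫⁻ x in cell δ m, F x) * ((∫⁻ y in cell δ n, G y) *
        (ENNReal.ofReal (δ ^ (-(1 / 2) : ℝ)) *
          ENNReal.ofReal (((m : ℝ) + (n : ℝ)) ^ (-(1 / 2) : ℝ)))) := by
  rw [lintegral_cells hδ]
  refine tsum_congr fun m => ?_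
  have h1 : ∀ x ∈ cell δ m, ∫⁻ y in Ioi (0 : ℝ), F x * (G y * kd δ x y) =
      F x * ∑' n : ℕ+, (∫⁻ y in cell δ n, G y) * (ENNReal.ofReal (δ ^ (-(1 / 2) : ℝ)) *
          ENNReal.ofReal (((m : ℝ) + (n : ℝ)) ^ (-(1 / 2) : ℝ))) := by
    intro x hx
    rw [lintegral_cells hδ, ← ENNReal.tsum_mul_left]
    refine tsum_congr fun n => ?_
    have h2 : ∫⁻ y in cell δ n, F x * (G y * kd δ x y) =
        ∫⁻ y in cell δ n, F x * (G y * (ENNReal.ofReal (δ ^ (-(1 / 2) : ℝ)) *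
          ENNReal.ofReal (((m : ℝ) + (n : ℝ)) ^ (-(1 / 2) : ℝ)))) :=
      setLIntegral_congr_fun (cell_meas _ _) (fun y hy => by
        rw [kd_cell hδ hx hy])
    rw [h2, lintegral_const_mul _ (hG.mul_const _), lintegral_mul_const _ hG]
  rw [setLIntegral_congr_fun (cell_meas _ _) h1, lintegral_mul_const _ hF,
    ENNReal.tsum_mul_left]

lemma tsum_cells_le {δ : ℝ} (hδ : 0 < δ) {f : ℝ → ℝ} (hf : Measurable f) (hf0 : ∀ x, 0 ≤ f x)
    (hfi : IntegrableOn (fun x => f x ^ (4 / 3 : ℝ)) (Ioi 0)) :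
    (∀ m, ∫⁻ x in cell δ m, ENNReal.ofReal (f x) ≠ ∞) ∧
    Summable (fun m : ℕ+ => (∫⁻ x in cell δ m, ENNReal.ofReal (f x)).toReal ^ (4 / 3 : ℝ)) ∧
    (∑' m : ℕ+, (∫⁻ x in cell δ m, ENNReal.ofReal (f x)).toReal ^ (4 / 3 : ℝ)) ^ (3 / 4 : ℝ) ≤
      δ ^ (1 / 4 : ℝ) * (∫ x in Ioi (0 : ℝ), f x ^ (4 / 3 : ℝ)) ^ (3 / 4 : ℝ) := by
  have hF : Measurable (fun x => ENNReal.ofReal (f x)) := hf.ennreal_ofReal
  set N := ∫ x in Ioi (0 : ℝ), f x ^ (4 / 3 : ℝ) with hN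
  have hN0 : 0 ≤ N := integral_nonneg fun x => Real.rpow_nonneg (hf0 x) _
  have htot : ∑' m : ℕ+, (∫⁻ x in cell δ m, ENNReal.ofReal (f x)) ^ (4 / 3 : ℝ) ≤
      ENNReal.ofReal (δ ^ (1 / 3 : ℝ) * N) := by
    calc ∑' m : ℕ+, (∫⁻ x in cell δ m, ENNReal.ofReal (f x)) ^ (4 / 3 : ℝ) ≤
        ∑' m : ℕ+, ENNReal.ofReal (δ ^ (1 / 3 : ℝ)) *
          ∫⁻ x in cell δ m, ENNReal.ofReal (f x) ^ (4 / 3 : ℝ) :=
          ENNReal.tsum_le_tsum fun m => cell_int_le hδ m hF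
      _ = ENNReal.ofReal (δ ^ (1 / 3 : ℝ)) *
          ∫⁻ x in Ioi (0 : ℝ), ENNReal.ofReal (f x) ^ (4 / 3 : ℝ) := by
          rw [ENNReal.tsum_mul_left, lintegral_cells hδ]
      _ = ENNReal.ofReal (δ ^ (1 / 3 : ℝ)) * ENNReal.ofReal N := by
          congr 1
          rw [hN, ofReal_integral_eq_lintegral_ofReal hfi
            (Eventually.of_forall fun x => Real.rpow_nonneg (hf0 x) _)]
          refine lintegral_congr fun x => ?_
          rw [ENNReal.ofReal_rpow_of_nonneg (hf0 x) (by norm_num)]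
      _ = _ := by rw [← ENNReal.ofReal_mul (Real.rpow_nonneg hδ.le _)]
  have htot' : ∑' m : ℕ+, (∫⁻ x in cell δ m, ENNReal.ofReal (f x)) ^ (4 / 3 : ℝ) ≠ ∞ :=
    ne_top_of_le_ne_top ENNReal.ofReal_ne_top htot
  have hfin : ∀ m, ∫⁻ x in cell δ m, ENNReal.ofReal (f x) ≠ ∞ := by
    intro m hm
    have := ENNReal.ne_top_of_tsum_ne_top htot' m
    rw [hm, ENNReal.top_rpow_of_pos (by norm_num)] at this
    exact this rfl
  have hs : Summable (fun m : ℕ+ =>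
      (∫⁻ x in cell δ m, ENNReal.ofReal (f x)).toReal ^ (4 / 3 : ℝ)) := by
    have := ENNReal.summable_toReal htot'
    refine this.congr fun m => ?_
    rw [ENNReal.toReal_rpow]
  refine ⟨hfin, hs, ?_⟩
  have h1 : ∑' m : ℕ+, (∫⁻ x in cell δ m, ENNReal.ofReal (f x)).toReal ^ (4 / 3 : ℝ) ≤
      δ ^ (1 / 3 : ℝ) * N := by
    rw [← ENNReal.ofReal_le_ofReal_iff (mul_nonneg (Real.rpow_nonneg hδ.le _) hN0),
      ENNReal.ofReal_tsum_of_nonneg (fun m => Real.rpow_nonneg ENNReal.toReal_nonneg _) hs]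
    refine le_trans (le_of_eq (tsum_congr fun m => ?_)) htot
    rw [← ENNReal.ofReal_rpow_of_nonneg ENNReal.toReal_nonneg (by norm_num),
      ENNReal.ofReal_toReal (hfin m)]
  have h2 := Real.rpow_le_rpow (tsum_nonneg fun m => Real.rpow_nonneg ENNReal.toReal_nonneg _) h1
    (by norm_num : (0 : ℝ) ≤ 3 / 4)
  refine h2.trans (le_of_eq ?_)
  rw [Real.mul_rpow (Real.rpow_nonneg hδ.le _) hN0, ← Real.rpow_mul hδ.le]
  norm_num

lemma discrete_bound {C δ : ℝ} (h : ValidS C) (hδ : 0 < δ) {f g : ℝ → ℝ} (hf : Measurable f)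
    (hg : Measurable g) (hf0 : ∀ x, 0 ≤ f x) (hg0 : ∀ x, 0 ≤ g x)
    (hfi : IntegrableOn (fun x => f x ^ (4 / 3 : ℝ)) (Ioi 0))
    (hgi : IntegrableOn (fun x => g x ^ (4 / 3 : ℝ)) (Ioi 0)) :
    ∫⁻ x in Ioi (0 : ℝ), ∫⁻ y in Ioi (0 : ℝ),
        ENNReal.ofReal (f x) * (ENNReal.ofReal (g y) * kd δ x y) ≤
      ENNReal.ofReal (C * (∫ x in Ioi (0 : ℝ), f x ^ (4 / 3 : ℝ)) ^ (3 / 4 : ℝ) *
        (∫ y in Ioi (0 : ℝ), g y ^ (4 / 3 : ℝ)) ^ (3 / 4 : ℝ)) := by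
  have hC := validS_nonneg h
  obtain ⟨ha1, ha2, ha3⟩ := tsum_cells_le hδ hf hf0 hfi
  obtain ⟨hb1, hb2, hb3⟩ := tsum_cells_le hδ hg hg0 hgi
  set a : ℕ+ → ℝ := fun m => (∫⁻ x in cell δ m, ENNReal.ofReal (f x)).toReal with ha
  set b : ℕ+ → ℝ := fun m => (∫⁻ x in cell δ m, ENNReal.ofReal (g x)).toReal with hb
  have ha0 : ∀ m, 0 ≤ a m := fun m => ENNReal.toReal_nonneg
  have hb0 : ∀ m, 0 ≤ b m := fun m => ENNReal.toReal_nonneg
  have key := h a b ha0 hb0 ha2 hb2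
  rw [discrete_sum hδ hf.ennreal_ofReal hg.ennreal_ofReal]
  have e1 : ∀ m n : ℕ+, (∫⁻ x in cell δ m, ENNReal.ofReal (f x)) *
      ((∫⁻ y in cell δ n, ENNReal.ofReal (g y)) * (ENNReal.ofReal (δ ^ (-(1 / 2) : ℝ)) *
          ENNReal.ofReal (((m : ℝ) + (n : ℝ)) ^ (-(1 / 2) : ℝ)))) =
      ENNReal.ofReal (δ ^ (-(1 / 2) : ℝ)) *
        ENNReal.ofReal (a m * b n * ((m : ℝ) + (n : ℝ)) ^ (-(1 / 2) : ℝ)) := by
    intro m n
    rw [ENNReal.ofReal_mul (mul_nonneg (ha0 m) (hb0 n)), ENNReal.ofReal_mul (ha0 m)]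
    simp only [ha, hb]
    rw [ENNReal.ofReal_toReal (ha1 m), ENNReal.ofReal_toReal (hb1 n)]
    ring
  simp_rw [e1, ENNReal.tsum_mul_left]
  calc ENNReal.ofReal (δ ^ (-(1 / 2) : ℝ)) * ∑' (m : ℕ+) (n : ℕ+),
        ENNReal.ofReal (a m * b n * ((m : ℝ) + (n : ℝ)) ^ (-(1 / 2) : ℝ))
      ≤ ENNReal.ofReal (δ ^ (-(1 / 2) : ℝ)) *
        ENNReal.ofReal (C * (∑' m, a m ^ (4 / 3 : ℝ)) ^ (3 / 4 : ℝ) *
          (∑' n, b n ^ (4 / 3 : ℝ)) ^ (3 / 4 : ℝ)) := by gcongr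
    _ ≤ ENNReal.ofReal (δ ^ (-(1 / 2) : ℝ)) *
        ENNReal.ofReal (C * (δ ^ (1 / 4 : ℝ) *
          (∫ x in Ioi (0 : ℝ), f x ^ (4 / 3 : ℝ)) ^ (3 / 4 : ℝ)) *
          (δ ^ (1 / 4 : ℝ) * (∫ y in Ioi (0 : ℝ), g y ^ (4 / 3 : ℝ)) ^ (3 / 4 : ℝ))) := by
        have q1 : 0 ≤ ∫ x in Ioi (0 : ℝ), f x ^ (4 / 3 : ℝ) :=
          integral_nonneg fun x => Real.rpow_nonneg (hf0 x) _
        gcongr
    _ = _ := by
        rw [← ENNReal.ofReal_mul (Real.rpow_nonneg hδ.le _)]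
        congr 1
        have e2 : δ ^ (-(1 / 2) : ℝ) * (δ ^ (1 / 4 : ℝ) * δ ^ (1 / 4 : ℝ)) = 1 := by
          rw [← Real.rpow_add hδ, ← Real.rpow_add hδ]
          norm_num
        calc δ ^ (-(1 / 2) : ℝ) * (C * (δ ^ (1 / 4 : ℝ) *
              (∫ x in Ioi (0 : ℝ), f x ^ (4 / 3 : ℝ)) ^ (3 / 4 : ℝ)) *
              (δ ^ (1 / 4 : ℝ) * (∫ y in Ioi (0 : ℝ), g y ^ (4 / 3 : ℝ)) ^ (3 / 4 : ℝ)))
            = (δ ^ (-(1 / 2) : ℝ) * (δ ^ (1 / 4 : ℝ) * δ ^ (1 / 4 : ℝ))) *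
              (C * (∫ x in Ioi (0 : ℝ), f x ^ (4 / 3 : ℝ)) ^ (3 / 4 : ℝ) *
              (∫ y in Ioi (0 : ℝ), g y ^ (4 / 3 : ℝ)) ^ (3 / 4 : ℝ)) := by ring
          _ = _ := by rw [e2, one_mul]

lemma ceil_tendsto {x : ℝ} (hx : 0 < x) :
    Tendsto (fun k : ℕ => (((k : ℝ) + 1)⁻¹ : ℝ) * (⌈x / ((k : ℝ) + 1)⁻¹⌉₊ : ℝ)) atTop (𝓝 x) := by
  have h1 : Tendsto (fun k : ℕ => x + (((k : ℝ) + 1)⁻¹ : ℝ)) atTop (𝓝 (x + 0)) := by
    refine tendsto_const_nhds.add ?_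
    have := tendsto_one_div_add_atTop_nhds_zero_nat (𝕜 := ℝ)
    refine this.congr fun k => ?_
    rw [one_div]
  rw [add_zero] at h1
  refine tendsto_of_tendsto_of_tendsto_of_le_of_le tendsto_const_nhds h1 (fun k => ?_)
    (fun k => ?_)
  · have hk : (0 : ℝ) < ((k : ℝ) + 1)⁻¹ := by positivity
    have := Nat.le_ceil (x / ((k : ℝ) + 1)⁻¹)
    rw [div_le_iff₀ hk] at this
    simp only
    linarith
  · have hk : (0 : ℝ) < ((k : ℝ) + 1)⁻¹ := by positivity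
    have := (Nat.ceil_lt_add_one (div_pos hx hk).le).le
    have h2 := mul_le_mul_of_nonneg_left this hk.le
    have h3 : ((k : ℝ) + 1)⁻¹ * (x / ((k : ℝ) + 1)⁻¹ + 1) = x + ((k : ℝ) + 1)⁻¹ := by
      field_simp
    simp only
    linarith

lemma kd_tendsto {x y : ℝ} (hx : 0 < x) (hy : 0 < y) :
    Tendsto (fun k : ℕ => kd (((k : ℝ) + 1)⁻¹) x y) atTop
      (𝓝 (ENNReal.ofReal ((x + y) ^ (-(1 / 2) : ℝ)))) := by
  unfold kd
  refine (ENNReal.continuous_ofReal.tendsto _).comp ?_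
  exact ((ceil_tendsto hx).add (ceil_tendsto hy)).rpow_const (Or.inl (by linarith))

theorem validI_of_validS {C : ℝ} (h : ValidS C) : ValidI C := by
  intro f g hf hg hf0 hg0 hfi hgi
  have hF : Measurable (fun x => ENNReal.ofReal (f x)) := hf.ennreal_ofReal
  have hG : Measurable (fun x => ENNReal.ofReal (g x)) := hg.ennreal_ofReal
  set R := ENNReal.ofReal (C * (∫ x in Ioi (0 : ℝ), f x ^ (4 / 3 : ℝ)) ^ (3 / 4 : ℝ) *
        (∫ y in Ioi (0 : ℝ), g y ^ (4 / 3 : ℝ)) ^ (3 / 4 : ℝ)) with hR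
  have hb : ∀ k : ℕ, ∫⁻ x in Ioi (0 : ℝ), ∫⁻ y in Ioi (0 : ℝ),
        ENNReal.ofReal (f x) * (ENNReal.ofReal (g y) * kd (((k : ℝ) + 1)⁻¹) x y) ≤ R :=
    fun k => discrete_bound h (by positivity) hf hg hf0 hg0 hfi hgi
  have hm : ∀ k : ℕ, Measurable (fun z : ℝ × ℝ =>
      ENNReal.ofReal (f z.1) * (ENNReal.ofReal (g z.2) * kd (((k : ℝ) + 1)⁻¹) z.1 z.2)) :=
    fun k => (hF.comp measurable_fst).mul ((hG.comp measurable_snd).mul (kd_meas _))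
  calc ∫⁻ x in Ioi (0 : ℝ), ∫⁻ y in Ioi (0 : ℝ),
        ENNReal.ofReal (f x * g y * (x + y) ^ (-(1 / 2) : ℝ))
      ≤ ∫⁻ x in Ioi (0 : ℝ), ∫⁻ y in Ioi (0 : ℝ), liminf (fun k : ℕ =>
        ENNReal.ofReal (f x) * (ENNReal.ofReal (g y) * kd (((k : ℝ) + 1)⁻¹) x y)) atTop := by
        refine setLIntegral_mono' measurableSet_Ioi fun x hx => ?_
        refine setLIntegral_mono' measurableSet_Ioi fun y hy => ?_
        have h1 := ENNReal.Tendsto.const_mul (a := ENNReal.ofReal (f x))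
          (ENNReal.Tendsto.const_mul (a := ENNReal.ofReal (g y)) (kd_tendsto hx hy)
            (Or.inr ENNReal.ofReal_ne_top)) (Or.inr ENNReal.ofReal_ne_top)
        rw [h1.liminf_eq, ENNReal.ofReal_mul (mul_nonneg (hf0 x) (hg0 y)),
          ENNReal.ofReal_mul (hf0 x), mul_assoc]
    _ ≤ ∫⁻ x in Ioi (0 : ℝ), liminf (fun k : ℕ => ∫⁻ y in Ioi (0 : ℝ),
        ENNReal.ofReal (f x) * (ENNReal.ofReal (g y) * kd (((k : ℝ) + 1)⁻¹) x y)) atTop := by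
        refine lintegral_mono fun x => ?_
        exact lintegral_liminf_le fun k => (hm k).comp (measurable_const.prodMk measurable_id)
    _ ≤ liminf (fun k : ℕ => ∫⁻ x in Ioi (0 : ℝ), ∫⁻ y in Ioi (0 : ℝ),
        ENNReal.ofReal (f x) * (ENNReal.ofReal (g y) * kd (((k : ℝ) + 1)⁻¹) x y)) atTop :=
        lintegral_liminf_le fun k => (hm k).lintegral_prod_right'
    _ ≤ R := by
        have : liminf (fun _k : ℕ => R) atTop = R := liminf_const R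
        rw [← this]
        exact liminf_le_liminf (Eventually.of_forall hb)

theorem validS_iff_validI {C : ℝ} : ValidS C ↔ ValidI C :=
  ⟨validI_of_validS, validS_of_validI⟩

end MPdbfb19
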