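import Mathlib

/-!
# Transport of a density on the line to the Gaussian density `exp(-π x²)`
-/

open MeasureTheory Set Filter Topology

namespace MPdbfb19

/-- The Gaussian density `exp(-π x²)`. -/
noncomputable def gs (x : ℝ) : ℝ := Real.exp (-Real.pi * x ^ 2)

lemma gs_pos (x : ℝ) : 0 < gs x := Real.exp_pos _

lemma gs_cont : Continuous gs := by
  unfold gs
  fun_prop

lemma gs_integrable : Integrable gs := by
  have h := integrable_exp_neg_mul_sq Real.pi_pos
  exact h

lemma gs_integral : ∫ x, gs x = 1 := by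
  have h := integral_gaussian Real.pi
  have h2 : Real.sqrt (Real.pi / Real.pi) = 1 := by
    rw [div_self Real.pi_ne_zero, Real.sqrt_one]
  rw [h2] at h
  exact h

/-- Distribution function. -/
noncomputable def dist (F : ℝ → ℝ) (x : ℝ) : ℝ := ∫ t in Iic x, F t

lemma dist_hasDerivAt {F : ℝ → ℝ} (hc : Continuous F) (hi : Integrable F) (x : ℝ) :
    HasDerivAt (dist F) (F x) x := by
  have h1 : ∀ y, dist F y = dist F 0 + ∫ t in (0:ℝ)..y, F t := by
    intro y
    have := intervalIntegral.integral_Iic_sub_Iic (hi.integrableOn (s := Iic 0))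
      (hi.integrableOn (s := Iic y))
    unfold dist
    linarith
  have h2 : HasDerivAt (fun y => ∫ t in (0:ℝ)..y, F t) (F x) x :=
    intervalIntegral.integral_hasDerivAt_right (hc.intervalIntegrable _ _)
      (hc.stronglyMeasurableAtFilter _ _) hc.continuousAt
  have h3 : dist F = fun y => dist F 0 + ∫ t in (0:ℝ)..y, F t := funext h1
  rw [h3]
  exact h2.const_add _

lemma dist_strictMono {F : ℝ → ℝ} (hc : Continuous F) (hp : ∀ x, 0 < F x)
    (hi : Integrable F) : StrictMono (dist F) := by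
  apply strictMono_of_deriv_pos
  intro x
  rw [(dist_hasDerivAt hc hi x).deriv]
  exact hp x

lemma dist_pos {F : ℝ → ℝ} (hc : Continuous F) (hp : ∀ x, 0 < F x)
    (hi : Integrable F) (x : ℝ) : 0 < dist F x := by
  have h1 : dist F (x - 1) < dist F x := dist_strictMono hc hp hi (by linarith)
  have h2 : 0 ≤ dist F (x - 1) := by
    unfold dist
    exact setIntegral_nonneg measurableSet_Iic (fun t _ => (hp t).le)
  linarith

lemma dist_lt_one {F : ℝ → ℝ} (hc : Continuous F) (hp : ∀ x, 0 < F x)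
    (hi : Integrable F) (h1 : ∫ x, F x = 1) (x : ℝ) : dist F x < 1 := by
  have h2 : dist F x < dist F (x + 1) := dist_strictMono hc hp hi (by linarith)
  have h3 : dist F (x + 1) ≤ ∫ x, F x := by
    unfold dist
    exact setIntegral_le_integral hi (Eventually.of_forall fun t => (hp t).le)
  linarith

lemma dist_tendsto_atTop {F : ℝ → ℝ} (hi : Integrable F) :
    Tendsto (dist F) atTop (𝓝 (∫ x, F x)) := by
  have h := (aecover_Iic (μ := (volume : Measure ℝ)) (tendsto_id (α := ℝ) (x := atTop)))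
  exact h.integral_tendsto_of_countably_generated hi

lemma dist_tendsto_atBot {F : ℝ → ℝ} (hi : Integrable F) :
    Tendsto (dist F) atBot (𝓝 0) := by
  have h := (aecover_Ioi (μ := (volume : Measure ℝ)) (tendsto_id (α := ℝ) (x := atBot)))
  have h1 := h.integral_tendsto_of_countably_generated hi
  have h2 : dist F = fun x => (∫ t, F t) - ∫ t in Ioi (id x), F t := by
    funext x
    have := integral_add_compl (measurableSet_Iic (a := x)) hi
    rw [compl_Iic] at this
    unfold dist
    simp only [id]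
    linarith
  rw [h2]
  have h3 := h1.const_sub (∫ t, F t)
  simpa using h3

lemma exists_dist_gs {y : ℝ} (h0 : 0 < y) (h1 : y < 1) : ∃ z, dist gs z = y := by
  have hcont : Continuous (dist gs) :=
    continuous_iff_continuousAt.2 fun x => (dist_hasDerivAt gs_cont gs_integrable x).continuousAt
  have ht := dist_tendsto_atTop gs_integrable
  rw [gs_integral] at ht
  have hb := dist_tendsto_atBot gs_integrable
  obtain ⟨b, hb'⟩ := (ht.eventually (lt_mem_nhds h1)).exists
  obtain ⟨a, ha'⟩ := (hb.eventually (gt_mem_nhds h0)).exists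
  exact mem_range_of_exists_le_of_exists_ge hcont ⟨a, ha'.le⟩ ⟨b, hb'.le⟩

/-- Transport map of a continuous positive density of mass one to the Gaussian density. -/
lemma exists_transport {F : ℝ → ℝ} (hc : Continuous F) (hp : ∀ x, 0 < F x)
    (hi : Integrable F) (h1 : ∫ x, F x = 1) :
    ∃ T : ℝ → ℝ, ∀ x, HasDerivAt T (F x / gs (T x)) x := by
  set Φ := dist gs with hΦ
  have hmono : StrictMono Φ := dist_strictMono gs_cont gs_pos gs_integrable
  set Ψ : ℝ → ℝ := Function.invFun Φ with hΨ
  have hΨ1 : ∀ y, 0 < y → y < 1 → Φ (Ψ y) = y := by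
    intro y hy0 hy1
    obtain ⟨z, hz⟩ := exists_dist_gs hy0 hy1
    exact Function.invFun_eq ⟨z, hz⟩
  have hΨc : ∀ y, 0 < y → y < 1 → ContinuousAt Ψ y := by
    intro y hy0 hy1
    have hev : ∀ᶠ w in 𝓝 y, 0 < w ∧ w < 1 := (lt_mem_nhds hy0).and (gt_mem_nhds hy1)
    refine tendsto_order.2 ⟨fun a ha => ?_, fun b hb => ?_⟩
    · have h2 : Φ a < y := by
        rw [← hΨ1 y hy0 hy1]
        exact hmono ha
      filter_upwards [hev, lt_mem_nhds h2] with w hw hw2
      have h3 := hΨ1 w hw.1 hw.2
      rw [← h3] at hw2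
      exact hmono.lt_iff_lt.1 hw2
    · have h2 : y < Φ b := by
        rw [← hΨ1 y hy0 hy1]
        exact hmono hb
      filter_upwards [hev, gt_mem_nhds h2] with w hw hw2
      have h3 := hΨ1 w hw.1 hw.2
      rw [← h3] at hw2
      exact hmono.lt_iff_lt.1 hw2
  have hΨd : ∀ y, 0 < y → y < 1 → HasDerivAt Ψ (gs (Ψ y))⁻¹ y := by
    intro y hy0 hy1
    have hev : ∀ᶠ w in 𝓝 y, 0 < w ∧ w < 1 := (lt_mem_nhds hy0).and (gt_mem_nhds hy1)
    refine HasDerivAt.of_local_left_inverse (hΨc y hy0 hy1)
      (dist_hasDerivAt gs_cont gs_integrable (Ψ y)) (gs_pos _).ne' ?_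
    filter_upwards [hev] with w hw
    exact hΨ1 w hw.1 hw.2
  refine ⟨fun x => Ψ (dist F x), fun x => ?_⟩
  have h2 := (hΨd (dist F x) (dist_pos hc hp hi x) (dist_lt_one hc hp hi h1 x)).comp x
    (dist_hasDerivAt hc hi x)
  have h3 : F x / gs (Ψ (dist F x)) = (gs (Ψ (dist F x)))⁻¹ * F x := by
    rw [div_eq_mul_inv, mul_comm]
  rw [h3]
  exact h2

end MPdbfb19
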