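import Mathlib
import Pool.Agent.MP_dbfb19_an.Transport

/-!
# The sharp convolution inequality for the exponents (4/3, 4/3, 2), by transport
-/

open MeasureTheory Set Filter Topology

namespace MPdbfb19

/-- First coefficient of the map `Θ`. -/
noncomputable def ca : ℝ := Real.sqrt 3 / 4
/-- Second coefficient of the map `Θ`. -/
noncomputable def cb : ℝ := Real.sqrt 6 / 4

/-- The map `Θ`. -/
noncomputable def Th (T₁ T₂ T₃ : ℝ → ℝ) (p : ℝ × ℝ) : ℝ × ℝ :=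
  (ca * (T₁ p.1 - T₂ p.2) + 1 / 2 * T₃ (p.1 - p.2), cb * (T₁ p.1 + T₂ p.2))

/-- The derivative of `Θ`. -/
noncomputable def dTh (a b c : ℝ) : ℝ × ℝ →L[ℝ] ℝ × ℝ :=
  (ca • (a • ContinuousLinearMap.fst ℝ ℝ ℝ - b • ContinuousLinearMap.snd ℝ ℝ ℝ) +
    (1 / 2 : ℝ) • (c • (ContinuousLinearMap.fst ℝ ℝ ℝ - ContinuousLinearMap.snd ℝ ℝ ℝ))).prod
  (cb • (a • ContinuousLinearMap.fst ℝ ℝ ℝ + b • ContinuousLinearMap.snd ℝ ℝ ℝ))

lemma ca_pos : 0 < ca := by unfold ca; positivity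
lemma cb_pos : 0 < cb := by unfold cb; positivity
lemma ca_sq : ca ^ 2 = 3 / 16 := by
  unfold ca
  rw [div_pow, Real.sq_sqrt (by norm_num)]
  norm_num
lemma cb_sq : cb ^ 2 = 3 / 8 := by
  unfold cb
  rw [div_pow, Real.sq_sqrt (by norm_num)]
  norm_num

lemma dTh_det (a b c : ℝ) :
    (dTh a b c).det = cb * (2 * ca * (a * b) + 1 / 2 * c * (a + b)) := by
  have h : (dTh a b c).det = LinearMap.det ((dTh a b c : ℝ × ℝ →L[ℝ] ℝ × ℝ) : ℝ × ℝ →ₗ[ℝ] ℝ × ℝ) :=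
    rfl
  rw [h, ← LinearMap.det_toMatrix (Module.Basis.finTwoProd ℝ), Matrix.det_fin_two]
  simp only [LinearMap.toMatrix_apply, Module.Basis.finTwoProd_zero, Module.Basis.finTwoProd_one,
    ContinuousLinearMap.coe_coe, dTh, ContinuousLinearMap.prod_apply,
    ContinuousLinearMap.add_apply, ContinuousLinearMap.smul_apply,
    ContinuousLinearMap.sub_apply, ContinuousLinearMap.coe_fst', ContinuousLinearMap.coe_snd',
    smul_eq_mul, Module.Basis.coe_finTwoProd_repr, Matrix.cons_val_zero, Matrix.cons_val_one]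
  ring

lemma Th_hasFDerivAt {T₁ T₂ T₃ : ℝ → ℝ} {p : ℝ × ℝ} {a b c : ℝ} (h1 : HasDerivAt T₁ a p.1)
    (h2 : HasDerivAt T₂ b p.2) (h3 : HasDerivAt T₃ c (p.1 - p.2)) :
    HasFDerivAt (Th T₁ T₂ T₃) (dTh a b c) p := by
  have e1 : HasFDerivAt (fun q : ℝ × ℝ => T₁ q.1) (a • ContinuousLinearMap.fst ℝ ℝ ℝ) p :=
    h1.comp_hasFDerivAt p hasFDerivAt_fst
  have e2 : HasFDerivAt (fun q : ℝ × ℝ => T₂ q.2) (b • ContinuousLinearMap.snd ℝ ℝ ℝ) p :=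
    h2.comp_hasFDerivAt p hasFDerivAt_snd
  have e3 : HasFDerivAt (fun q : ℝ × ℝ => T₃ (q.1 - q.2))
      (c • (ContinuousLinearMap.fst ℝ ℝ ℝ - ContinuousLinearMap.snd ℝ ℝ ℝ)) p :=
    HasDerivAt.comp_hasFDerivAt p (f := fun q : ℝ × ℝ => q.1 - q.2) h3
      (hasFDerivAt_fst.sub hasFDerivAt_snd)
  unfold Th dTh
  exact (((e1.sub e2).const_mul ca).add (e3.const_mul (1 / 2 : ℝ))).prodMk
    ((e1.add e2).const_mul cb)

lemma Th_injective {T₁ T₂ T₃ : ℝ → ℝ} (h1 : StrictMono T₁) (h2 : StrictMono T₂)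
    (h3 : StrictMono T₃) : Function.Injective (Th T₁ T₂ T₃) := by
  have key : ∀ p q : ℝ × ℝ, Th T₁ T₂ T₃ p = Th T₁ T₂ T₃ q → ¬ p.1 < q.1 := by
    intro p q hpq hlt
    have ea : ca * (T₁ p.1 - T₂ p.2) + 1 / 2 * T₃ (p.1 - p.2) =
        ca * (T₁ q.1 - T₂ q.2) + 1 / 2 * T₃ (q.1 - q.2) := congrArg Prod.fst hpq
    have eb : cb * (T₁ p.1 + T₂ p.2) = cb * (T₁ q.1 + T₂ q.2) := congrArg Prod.snd hpq
    have eb' : T₁ p.1 + T₂ p.2 = T₁ q.1 + T₂ q.2 := mul_left_cancel₀ cb_pos.ne' eb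
    have l1 : T₁ p.1 < T₁ q.1 := h1 hlt
    have l2 : T₂ q.2 < T₂ p.2 := by linarith
    have l3 : q.2 < p.2 := h2.lt_iff_lt.1 l2
    have l4 : T₃ (p.1 - p.2) < T₃ (q.1 - q.2) := h3 (by linarith)
    have l5 : ca * (T₁ p.1 - T₂ p.2) < ca * (T₁ q.1 - T₂ q.2) :=
      mul_lt_mul_of_pos_left (by linarith) ca_pos
    linarith
  intro p q hpq
  have e1 : p.1 = q.1 := le_antisymm (not_lt.1 (key q p hpq.symm)) (not_lt.1 (key p q hpq))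
  have eb : cb * (T₁ p.1 + T₂ p.2) = cb * (T₁ q.1 + T₂ q.2) := congrArg Prod.snd hpq
  have eb' : T₁ p.1 + T₂ p.2 = T₁ q.1 + T₂ q.2 := mul_left_cancel₀ cb_pos.ne' eb
  rw [e1] at eb'
  have e2 : p.2 = q.2 := h2.injective (by linarith)
  exact Prod.ext e1 e2

/-- The arithmetic-geometric inequality for the determinant. -/
lemma det_bound {A B C : ℝ} (hA : 0 ≤ A) (hB : 0 ≤ B) (hC : 0 ≤ C) :
    (27 : ℝ) ^ (1 / 4 : ℝ) / 2 * (A ^ 3 * B ^ 3 * C) ≤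
      cb * (2 * ca * (A ^ 4 * B ^ 4) + 1 / 2 * C ^ 2 * (A ^ 4 + B ^ 4)) := by
  -- r = 3^{1/4}
  set r : ℝ := (3 : ℝ) ^ (1 / 4 : ℝ) with hr
  have hr0 : 0 < r := by positivity
  have hr4 : r ^ 4 = 3 := by
    rw [hr, ← Real.rpow_natCast, ← Real.rpow_mul (by norm_num)]
    norm_num
  have hr2 : r ^ 2 = Real.sqrt 3 := by
    rw [eq_comm, Real.sqrt_eq_iff_mul_self_eq (by norm_num) (by positivity)]
    nlinarith
  have h27 : (27 : ℝ) ^ (1 / 4 : ℝ) = r ^ 3 := by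
    have : (27 : ℝ) = r ^ 12 := by
      have : r ^ 12 = (r ^ 4) ^ 3 := by ring
      rw [this, hr4]; norm_num
    rw [this, ← Real.rpow_natCast, ← Real.rpow_mul hr0.le, ← Real.rpow_natCast r 3]
    norm_num
  set s : ℝ := Real.sqrt 2 with hs
  have hs0 : 0 < s := by positivity
  have hs2 : s ^ 2 = 2 := Real.sq_sqrt (by norm_num)
  have hca : ca = r ^ 2 / 4 := by rw [hr2]; rfl
  have hcb : cb = s * r ^ 2 / 4 := by
    rw [hr2, hs]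
    unfold cb
    rw [← Real.sqrt_mul (by norm_num)]
    norm_num
  rw [h27, hca, hcb]
  -- A⁴+B⁴ ≥ 2A²B²
  have q1 : 0 ≤ (A ^ 2 - B ^ 2) ^ 2 := sq_nonneg _
  have q2 : 0 ≤ (r * (A ^ 2 * B ^ 2) - s * (A * B * C)) ^ 2 := sq_nonneg _
  have q3 : 0 ≤ C ^ 2 * (A ^ 2 - B ^ 2) ^ 2 := by positivity
  have e : s * r ^ 2 / 4 * (2 * (r ^ 2 / 4) * (A ^ 4 * B ^ 4) + 1 / 2 * C ^ 2 * (A ^ 4 + B ^ 4)) -
      r ^ 3 / 2 * (A ^ 3 * B ^ 3 * C) =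
      s * r ^ 2 / 8 * (C ^ 2 * (A ^ 2 - B ^ 2) ^ 2) +
      s * r ^ 2 / 8 * (r * (A ^ 2 * B ^ 2) - s * (A * B * C)) ^ 2 +
      (2 - s ^ 2) * (s * r ^ 2 / 8 * (C ^ 2 * (A ^ 2 * B ^ 2)) - r ^ 3 / 4 * (A ^ 3 * B ^ 3 * C)) := by
    ring
  have : (2 - s ^ 2) = 0 := by linarith
  rw [this, zero_mul, add_zero] at e
  have p1 : 0 ≤ s * r ^ 2 / 8 * (C ^ 2 * (A ^ 2 - B ^ 2) ^ 2) := by positivity
  have p2 : 0 ≤ s * r ^ 2 / 8 * (r * (A ^ 2 * B ^ 2) - s * (A * B * C)) ^ 2 := by positivity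
  linarith

/-- The quadratic form inequality. -/
lemma quad_bound (x y z : ℝ) :
    (ca * (x - y) + 1 / 2 * z) ^ 2 + (cb * (x + y)) ^ 2 ≤
      3 / 4 * x ^ 2 + 3 / 4 * y ^ 2 + 1 / 2 * z ^ 2 := by
  have e : 3 / 4 * x ^ 2 + 3 / 4 * y ^ 2 + 1 / 2 * z ^ 2 -
      ((ca * (x - y) + 1 / 2 * z) ^ 2 + (cb * (x + y)) ^ 2) =
      (ca * (x - y) - 1 / 2 * z) ^ 2 - 2 * (ca ^ 2 - 3 / 16) * (x - y) ^ 2 -
        (cb ^ 2 - 3 / 8) * (x + y) ^ 2 := by ring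
  rw [ca_sq, cb_sq, sub_self, sub_self] at e
  nlinarith [sq_nonneg (ca * (x - y) - 1 / 2 * z)]

lemma lintegral_gauss : ∫⁻ z : ℝ × ℝ, ENNReal.ofReal (Real.exp (-Real.pi * (z.1 ^ 2 + z.2 ^ 2))) = 1 := by
  have h1 : ∫⁻ x : ℝ, ENNReal.ofReal (gs x) = 1 := by
    rw [← ofReal_integral_eq_lintegral_ofReal gs_integrable
      (Eventually.of_forall fun x => (gs_pos x).le), gs_integral, ENNReal.ofReal_one]
  have h2 : ∀ z : ℝ × ℝ, ENNReal.ofReal (Real.exp (-Real.pi * (z.1 ^ 2 + z.2 ^ 2))) =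
      ENNReal.ofReal (gs z.1) * ENNReal.ofReal (gs z.2) := by
    intro z
    rw [← ENNReal.ofReal_mul (gs_pos _).le]
    congr 1
    unfold gs
    rw [← Real.exp_add]
    congr 1
    ring
  simp_rw [h2]
  have hm : AEMeasurable (fun x : ℝ => ENNReal.ofReal (gs x)) volume :=
    (gs_cont.measurable.ennreal_ofReal).aemeasurable
  rw [Measure.volume_eq_prod, lintegral_prod_mul hm hm, h1, one_mul]

lemma core {F G H : ℝ → ℝ} (hF : Continuous F) (hF0 : ∀ x, 0 < F x) (hFi : Integrable F)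
    (hF1 : ∫ x, F x = 1) (hG : Continuous G) (hG0 : ∀ x, 0 < G x) (hGi : Integrable G)
    (hG1 : ∫ x, G x = 1) (hH : Continuous H) (hH0 : ∀ x, 0 < H x) (hHi : Integrable H)
    (hH1 : ∫ x, H x = 1) :
    ∫⁻ p : ℝ × ℝ, ENNReal.ofReal
      ((27 : ℝ) ^ (1 / 4 : ℝ) / 2 * (F p.1 ^ (3 / 4 : ℝ) * G p.2 ^ (3 / 4 : ℝ) *
        H (p.1 - p.2) ^ (1 / 2 : ℝ))) ≤ 1 := by
  obtain ⟨T₁, hT₁⟩ := exists_transport hF hF0 hFi hF1
  obtain ⟨T₂, hT₂⟩ := exists_transport hG hG0 hGi hG1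
  obtain ⟨T₃, hT₃⟩ := exists_transport hH hH0 hHi hH1
  have m1 : StrictMono T₁ := by
    apply strictMono_of_deriv_pos
    intro x
    rw [(hT₁ x).deriv]
    exact div_pos (hF0 x) (gs_pos _)
  have m2 : StrictMono T₂ := by
    apply strictMono_of_deriv_pos
    intro x
    rw [(hT₂ x).deriv]
    exact div_pos (hG0 x) (gs_pos _)
  have m3 : StrictMono T₃ := by
    apply strictMono_of_deriv_pos
    intro x
    rw [(hT₃ x).deriv]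
    exact div_pos (hH0 x) (gs_pos _)
  set a : ℝ → ℝ := fun x => F x / gs (T₁ x) with ha
  set b : ℝ → ℝ := fun x => G x / gs (T₂ x) with hb
  set c : ℝ → ℝ := fun x => H x / gs (T₃ x) with hc
  have ha0 : ∀ x, 0 < a x := fun x => div_pos (hF0 x) (gs_pos _)
  have hb0 : ∀ x, 0 < b x := fun x => div_pos (hG0 x) (gs_pos _)
  have hc0 : ∀ x, 0 < c x := fun x => div_pos (hH0 x) (gs_pos _)
  have hder : ∀ p : ℝ × ℝ, HasFDerivAt (Th T₁ T₂ T₃)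
      (dTh (a p.1) (b p.2) (c (p.1 - p.2))) p := fun p =>
    Th_hasFDerivAt (hT₁ p.1) (hT₂ p.2) (hT₃ (p.1 - p.2))
  have hcv := lintegral_image_eq_lintegral_abs_det_fderiv_mul (volume : Measure (ℝ × ℝ))
    MeasurableSet.univ (fun p _ => (hder p).hasFDerivWithinAt) (Th_injective m1 m2 m3).injOn
    (fun z => ENNReal.ofReal (Real.exp (-Real.pi * (z.1 ^ 2 + z.2 ^ 2))))
  have hle : ∫⁻ z in Th T₁ T₂ T₃ '' univ,
      ENNReal.ofReal (Real.exp (-Real.pi * (z.1 ^ 2 + z.2 ^ 2))) ≤ 1 := by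
    rw [← lintegral_gauss]
    exact setLIntegral_le_lintegral _ _
  rw [hcv, Measure.restrict_univ] at hle
  refine le_trans (lintegral_mono fun p => ?_) hle
  rw [← ENNReal.ofReal_mul (abs_nonneg _)]
  apply ENNReal.ofReal_le_ofReal
  rw [dTh_det]
  set A : ℝ := (a p.1) ^ (1 / 4 : ℝ) with hA
  set B : ℝ := (b p.2) ^ (1 / 4 : ℝ) with hB
  set C : ℝ := (c (p.1 - p.2)) ^ (1 / 2 : ℝ) with hC
  have A0 : 0 ≤ A := Real.rpow_nonneg (ha0 _).le _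
  have B0 : 0 ≤ B := Real.rpow_nonneg (hb0 _).le _
  have C0 : 0 ≤ C := Real.rpow_nonneg (hc0 _).le _
  have A4 : a p.1 = A ^ 4 := by
    rw [hA, ← Real.rpow_natCast, ← Real.rpow_mul (ha0 _).le]
    norm_num
  have B4 : b p.2 = B ^ 4 := by
    rw [hB, ← Real.rpow_natCast, ← Real.rpow_mul (hb0 _).le]
    norm_num
  have C2 : c (p.1 - p.2) = C ^ 2 := by
    rw [hC, ← Real.rpow_natCast, ← Real.rpow_mul (hc0 _).le]
    norm_num
  have eF : F p.1 ^ (3 / 4 : ℝ) = A ^ 3 * Real.exp (-Real.pi * (3 / 4 * (T₁ p.1) ^ 2)) := by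
    have : F p.1 = a p.1 * gs (T₁ p.1) := by
      simp only [ha]; field_simp [(gs_pos (T₁ p.1)).ne']
    rw [this, Real.mul_rpow (ha0 _).le (gs_pos _).le]
    congr 1
    · rw [hA, ← Real.rpow_natCast, ← Real.rpow_mul (ha0 _).le]
      norm_num
    · unfold gs
      rw [← Real.exp_mul]
      congr 1
      ring
  have eG : G p.2 ^ (3 / 4 : ℝ) = B ^ 3 * Real.exp (-Real.pi * (3 / 4 * (T₂ p.2) ^ 2)) := by
    have : G p.2 = b p.2 * gs (T₂ p.2) := by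
      simp only [hb]; field_simp [(gs_pos (T₂ p.2)).ne']
    rw [this, Real.mul_rpow (hb0 _).le (gs_pos _).le]
    congr 1
    · rw [hB, ← Real.rpow_natCast, ← Real.rpow_mul (hb0 _).le]
      norm_num
    · unfold gs
      rw [← Real.exp_mul]
      congr 1
      ring
  have eH : H (p.1 - p.2) ^ (1 / 2 : ℝ) =
      C * Real.exp (-Real.pi * (1 / 2 * (T₃ (p.1 - p.2)) ^ 2)) := by
    have : H (p.1 - p.2) = c (p.1 - p.2) * gs (T₃ (p.1 - p.2)) := by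
      simp only [hc]; field_simp [(gs_pos (T₃ (p.1 - p.2))).ne']
    rw [this, Real.mul_rpow (hc0 _).le (gs_pos _).le]
    congr 1
    unfold gs
    rw [← Real.exp_mul]
    congr 1
    ring
  rw [eF, eG, eH, A4, B4, C2]
  have hdet := det_bound A0 B0 C0
  have hquad := quad_bound (T₁ p.1) (T₂ p.2) (T₃ (p.1 - p.2))
  have hexp : Real.exp (-Real.pi * (3 / 4 * (T₁ p.1) ^ 2)) *
      Real.exp (-Real.pi * (3 / 4 * (T₂ p.2) ^ 2)) *
      Real.exp (-Real.pi * (1 / 2 * (T₃ (p.1 - p.2)) ^ 2)) ≤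
      Real.exp (-Real.pi * ((Th T₁ T₂ T₃ p).1 ^ 2 + (Th T₁ T₂ T₃ p).2 ^ 2)) := by
    rw [← Real.exp_add, ← Real.exp_add]
    apply Real.exp_le_exp.2
    unfold Th
    simp only
    nlinarith [Real.pi_pos, mul_le_mul_of_nonneg_left hquad Real.pi_pos.le]
  have habs : cb * (2 * ca * (A ^ 4 * B ^ 4) + 1 / 2 * C ^ 2 * (A ^ 4 + B ^ 4)) ≤
      |cb * (2 * ca * (A ^ 4 * B ^ 4) + 1 / 2 * C ^ 2 * (A ^ 4 + B ^ 4))| := le_abs_self _
  calc (27 : ℝ) ^ (1 / 4 : ℝ) / 2 * (A ^ 3 * Real.exp (-Real.pi * (3 / 4 * (T₁ p.1) ^ 2)) *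
        (B ^ 3 * Real.exp (-Real.pi * (3 / 4 * (T₂ p.2) ^ 2))) *
        (C * Real.exp (-Real.pi * (1 / 2 * (T₃ (p.1 - p.2)) ^ 2))))
      = ((27 : ℝ) ^ (1 / 4 : ℝ) / 2 * (A ^ 3 * B ^ 3 * C)) *
        (Real.exp (-Real.pi * (3 / 4 * (T₁ p.1) ^ 2)) *
        Real.exp (-Real.pi * (3 / 4 * (T₂ p.2) ^ 2)) *
        Real.exp (-Real.pi * (1 / 2 * (T₃ (p.1 - p.2)) ^ 2))) := by ring
    _ ≤ |cb * (2 * ca * (A ^ 4 * B ^ 4) + 1 / 2 * C ^ 2 * (A ^ 4 + B ^ 4))| *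
        Real.exp (-Real.pi * ((Th T₁ T₂ T₃ p).1 ^ 2 + (Th T₁ T₂ T₃ p).2 ^ 2)) := by
      apply mul_le_mul (le_trans hdet habs) hexp (by positivity) (abs_nonneg _)

end MPdbfb19
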