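import Mathlib
import Pool.Agent.MP_dbfb19_an.Young

/-!
# The inequality on the line for all measurable functions
-/

open MeasureTheory Set Filter Topology
open scoped ENNReal

namespace MPdbfb19

/-- The square of the kernel in the variable `s = log x`. -/
noncomputable def Kr (s : ℝ) : ℝ := (Real.exp (s / 2) + Real.exp (-(s / 2)))⁻¹

lemma Kr_pos (s : ℝ) : 0 < Kr s := by
  unfold Kr
  positivity

lemma Kr_cont : Continuous Kr := by
  unfold Kr
  refine Continuous.inv₀ (by fun_prop) (fun s => ?_)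
  positivity

lemma Kr_hasDerivAt (s : ℝ) : HasDerivAt (fun s => 2 * Real.arctan (Real.exp (s / 2))) (Kr s) s := by
  have h1 : HasDerivAt (fun s : ℝ => s / 2) (1 / 2) s := (hasDerivAt_id s).div_const 2
  have h2 := h1.exp
  have h3 := h2.arctan
  have h4 := h3.const_mul (2 : ℝ)
  have h5 : Kr s = 2 * (1 / (1 + Real.exp (s / 2) ^ 2) * (Real.exp (s / 2) * (1 / 2))) := ?_
  · rw [h5]; exact h4
  unfold Kr
  have e1 : Real.exp (-(s / 2)) = (Real.exp (s / 2))⁻¹ := Real.exp_neg _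
  rw [e1]
  have hp : 0 < Real.exp (s / 2) := Real.exp_pos _
  field_simp
  ring

lemma Kr_tendsto_top : Tendsto (fun s : ℝ => 2 * Real.arctan (Real.exp (s / 2))) atTop
    (𝓝 Real.pi) := by
  have h1 : Tendsto (fun s : ℝ => Real.exp (s / 2)) atTop atTop :=
    Real.tendsto_exp_atTop.comp (tendsto_id.atTop_div_const (by norm_num))
  have h2 : Tendsto Real.arctan atTop (𝓝 (Real.pi / 2)) :=
    Real.tendsto_arctan_atTop.mono_right nhdsWithin_le_nhds
  have h3 := (h2.comp h1).const_mul 2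
  have : 2 * (Real.pi / 2) = Real.pi := by ring
  rw [this] at h3
  exact h3

lemma Kr_tendsto_bot : Tendsto (fun s : ℝ => 2 * Real.arctan (Real.exp (s / 2))) atBot
    (𝓝 0) := by
  have h1 : Tendsto (fun s : ℝ => Real.exp (s / 2)) atBot (𝓝 0) :=
    Real.tendsto_exp_atBot.comp (tendsto_id.atBot_div_const (by norm_num))
  have h2 : Tendsto Real.arctan (𝓝 0) (𝓝 (Real.arctan 0)) :=
    Real.continuous_arctan.continuousAt
  have h3 := (h2.comp h1).const_mul 2
  simpa using h3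

lemma Kr_integrable : Integrable Kr := by
  refine integrable_of_intervalIntegral_norm_tendsto (Real.pi - 0) (a := fun n : ℕ => -(n : ℝ))
    (b := fun n : ℕ => (n : ℝ)) (l := atTop) (fun n => ?_) ?_ ?_ ?_
  · exact Kr_cont.integrableOn_Ioc
  · exact tendsto_neg_atTop_atBot.comp tendsto_natCast_atTop_atTop
  · exact tendsto_natCast_atTop_atTop
  · have h1 : ∀ n : ℕ, ∫ x in (-(n : ℝ))..(n : ℝ), ‖Kr x‖ =
        2 * Real.arctan (Real.exp ((n : ℝ) / 2)) - 2 * Real.arctan (Real.exp (-(n : ℝ) / 2)) := by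
      intro n
      have e : (fun x => ‖Kr x‖) = Kr := by
        funext x
        rw [Real.norm_of_nonneg (Kr_pos x).le]
      rw [e]
      exact intervalIntegral.integral_eq_sub_of_hasDerivAt
        (f := fun s => 2 * Real.arctan (Real.exp (s / 2)))
        (fun x _ => Kr_hasDerivAt x) (Kr_cont.intervalIntegrable _ _)
    simp_rw [h1]
    exact (Kr_tendsto_top.comp tendsto_natCast_atTop_atTop).sub
      (Kr_tendsto_bot.comp (tendsto_neg_atTop_atBot.comp tendsto_natCast_atTop_atTop))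

lemma Kr_integral : ∫ s, Kr s = Real.pi := by
  have h := integral_of_hasDerivAt_of_tendsto (fun x => Kr_hasDerivAt x) Kr_integrable
    Kr_tendsto_bot Kr_tendsto_top
  rw [h, sub_zero]

/-- The optimal constant in the convolution inequality. -/
noncomputable def C0 : ℝ := 2 * Real.sqrt Real.pi / (27 : ℝ) ^ (1 / 4 : ℝ)

lemma C0_pos : 0 < C0 := by
  unfold C0
  positivity

/-- The inequality for continuous positive functions. -/
lemma nice {φ ψ : ℝ → ℝ} (hφ : Continuous φ) (hφ0 : ∀ x, 0 < φ x)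
    (hφi : Integrable (fun x => φ x ^ (4 / 3 : ℝ))) (hψ : Continuous ψ) (hψ0 : ∀ x, 0 < ψ x)
    (hψi : Integrable (fun x => ψ x ^ (4 / 3 : ℝ))) :
    ∫⁻ p : ℝ × ℝ, ENNReal.ofReal (φ p.1 * ψ p.2 * Kr (p.1 - p.2) ^ (1 / 2 : ℝ)) ≤
      ENNReal.ofReal (C0 * (∫ x, φ x ^ (4 / 3 : ℝ)) ^ (3 / 4 : ℝ) *
        (∫ x, ψ x ^ (4 / 3 : ℝ)) ^ (3 / 4 : ℝ)) := by
  have hpos : ∀ {χ : ℝ → ℝ}, Continuous χ → (∀ x, 0 < χ x) →
      Integrable (fun x => χ x ^ (4 / 3 : ℝ)) → 0 < ∫ x, χ x ^ (4 / 3 : ℝ) := by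
    intro χ hχ hχ0 hχi
    have h0 : ∀ x, 0 < χ x ^ (4 / 3 : ℝ) := fun x => Real.rpow_pos_of_pos (hχ0 x) _
    rw [integral_pos_iff_support_of_nonneg (fun x => (h0 x).le) hχi]
    have : Function.support (fun x => χ x ^ (4 / 3 : ℝ)) = univ := by
      ext x; simp [(h0 x).ne']
    rw [this]
    simp
  set M := ∫ x, φ x ^ (4 / 3 : ℝ) with hM
  set N := ∫ x, ψ x ^ (4 / 3 : ℝ) with hN
  have hM0 : 0 < M := hpos hφ hφ0 hφi
  have hN0 : 0 < N := hpos hψ hψ0 hψi
  have hc1 : Continuous (fun x => φ x ^ (4 / 3 : ℝ) / M) :=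
    (hφ.rpow_const (fun x => Or.inl (hφ0 x).ne')).div_const _
  have hc2 : Continuous (fun x => ψ x ^ (4 / 3 : ℝ) / N) :=
    (hψ.rpow_const (fun x => Or.inl (hψ0 x).ne')).div_const _
  have hc3 : Continuous (fun x => Kr x / Real.pi) := Kr_cont.div_const _
  have hp1 : ∀ x, 0 < φ x ^ (4 / 3 : ℝ) / M := fun x =>
    div_pos (Real.rpow_pos_of_pos (hφ0 x) _) hM0
  have hp2 : ∀ x, 0 < ψ x ^ (4 / 3 : ℝ) / N := fun x =>
    div_pos (Real.rpow_pos_of_pos (hψ0 x) _) hN0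
  have hp3 : ∀ x, 0 < Kr x / Real.pi := fun x => div_pos (Kr_pos x) Real.pi_pos
  have hI1 : ∫ x, φ x ^ (4 / 3 : ℝ) / M = 1 := by
    rw [integral_div, ← hM, div_self hM0.ne']
  have hI2 : ∫ x, ψ x ^ (4 / 3 : ℝ) / N = 1 := by
    rw [integral_div, ← hN, div_self hN0.ne']
  have hI3 : ∫ x, Kr x / Real.pi = 1 := by
    rw [integral_div, Kr_integral, div_self Real.pi_pos.ne']
  have hcore := core hc1 hp1 (hφi.div_const _) hI1 hc2 hp2 (hψi.div_const _) hI2 hc3 hp3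
    (Kr_integrable.div_const _) hI3
  -- the constant relating the two integrands
  set D : ℝ := C0 * M ^ (3 / 4 : ℝ) * N ^ (3 / 4 : ℝ) with hD
  have hD0 : 0 < D := by
    have := C0_pos
    positivity
  have hpt : ∀ p : ℝ × ℝ, ENNReal.ofReal (φ p.1 * ψ p.2 * Kr (p.1 - p.2) ^ (1 / 2 : ℝ)) =
      ENNReal.ofReal D * ENNReal.ofReal ((27 : ℝ) ^ (1 / 4 : ℝ) / 2 *
        ((φ p.1 ^ (4 / 3 : ℝ) / M) ^ (3 / 4 : ℝ) * (ψ p.2 ^ (4 / 3 : ℝ) / N) ^ (3 / 4 : ℝ) *
        (Kr (p.1 - p.2) / Real.pi) ^ (1 / 2 : ℝ))) := by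
    intro p
    rw [← ENNReal.ofReal_mul hD0.le]
    congr 1
    rw [Real.div_rpow (Real.rpow_nonneg (hφ0 _).le _) hM0.le,
      Real.div_rpow (Real.rpow_nonneg (hψ0 _).le _) hN0.le,
      Real.div_rpow (Kr_pos _).le Real.pi_pos.le, ← Real.rpow_mul (hφ0 _).le,
      ← Real.rpow_mul (hψ0 _).le, ← Real.sqrt_eq_rpow Real.pi]
    have e1 : (4 / 3 * (3 / 4) : ℝ) = 1 := by norm_num
    rw [e1, Real.rpow_one, Real.rpow_one, hD]
    unfold C0
    have q1 : 0 < M ^ (3 / 4 : ℝ) := by positivity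
    have q2 : 0 < N ^ (3 / 4 : ℝ) := by positivity
    have q3 : 0 < Real.sqrt Real.pi := by positivity
    have q4 : (0 : ℝ) < (27 : ℝ) ^ (1 / 4 : ℝ) := by positivity
    field_simp
  simp_rw [hpt]
  rw [lintegral_const_mul' _ _ ENNReal.ofReal_ne_top]
  calc ENNReal.ofReal D * _ ≤ ENNReal.ofReal D * 1 := by gcongr
    _ = ENNReal.ofReal D := mul_one _

lemma eLp_eq {φ : ℝ → ℝ} (h0 : ∀ x, 0 ≤ φ x) :
    eLpNorm φ (4 / 3) volume = (∫⁻ s, ENNReal.ofReal (φ s) ^ (4 / 3 : ℝ)) ^ (3 / 4 : ℝ) := by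
  have hne : (4 / 3 : ℝ≥0∞) ≠ 0 := by simp
  have hnt : (4 / 3 : ℝ≥0∞) ≠ ∞ := ENNReal.div_ne_top (by simp) (by simp)
  rw [eLpNorm_eq_lintegral_rpow_enorm_toReal hne hnt]
  have e : (4 / 3 : ℝ≥0∞).toReal = 4 / 3 := by
    rw [ENNReal.toReal_div]; simp
  rw [e]
  have e2 : (1 / (4 / 3) : ℝ) = 3 / 4 := by norm_num
  rw [e2]
  congr 1
  refine lintegral_congr fun s => ?_
  rw [Real.enorm_of_nonneg (h0 s)]

lemma exponent_ne_zero : (4 / 3 : ℝ≥0∞) ≠ 0 := by simp

lemma exponent_ne_top : (4 / 3 : ℝ≥0∞) ≠ ∞ := ENNReal.div_ne_top (by simp) (by simp)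

lemma one_le_exponent : (1 : ℝ≥0∞) ≤ 4 / 3 := by
  rw [ENNReal.le_div_iff_mul_le (by simp) (by simp)]
  norm_num

/-- The class of nice functions. -/
def Nice (φ : ℝ → ℝ) : Prop := Continuous φ ∧ (∀ x, 0 < φ x) ∧ MemLp φ (4 / 3) volume

lemma memLp_gauss : MemLp (fun s : ℝ => Real.exp (-s ^ 2)) (4 / 3) volume := by
  refine ⟨Continuous.aestronglyMeasurable (by fun_prop), ?_⟩
  rw [eLp_eq (fun x => (Real.exp_pos _).le)]
  apply ENNReal.rpow_lt_top_of_nonneg (by norm_num)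
  have h1 : ∀ s : ℝ, ENNReal.ofReal (Real.exp (-s ^ 2)) ^ (4 / 3 : ℝ) =
      ENNReal.ofReal (Real.exp (-(4 / 3) * s ^ 2)) := by
    intro s
    rw [ENNReal.ofReal_rpow_of_pos (Real.exp_pos _), ← Real.exp_mul]
    congr 2
    ring
  simp_rw [h1]
  exact ((integrable_exp_neg_mul_sq (by norm_num : (0:ℝ) < 4 / 3)).lintegral_lt_top).ne

/-- Extension of a linear bound from nice functions to all nonnegative functions. -/
lemma extend {k : ℝ → ℝ≥0∞} {D : ℝ≥0∞} (hD : D ≠ ∞) (hk : Measurable k)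
    (h : ∀ φ : ℝ → ℝ, Nice φ → ∫⁻ s, ENNReal.ofReal (φ s) * k s ≤ D * eLpNorm φ (4 / 3) volume)
    {φ : ℝ → ℝ} (hφm : MemLp φ (4 / 3) volume) (hφ0 : ∀ x, 0 ≤ φ x) :
    ∫⁻ s, ENNReal.ofReal (φ s) * k s ≤ D * eLpNorm φ (4 / 3) volume := by
  have hε : ∀ n : ℕ, ((n : ℝ≥0∞) + 1)⁻¹ ≠ 0 := fun n => by
    simp
  choose g hg1 hg2 hg3 hg4 using fun n : ℕ =>
    hφm.exists_hasCompactSupport_eLpNorm_sub_le exponent_ne_top (hε n)
  set w : ℝ → ℝ := fun s => Real.exp (-s ^ 2) with hw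
  have hwm : MemLp w (4 / 3) volume := memLp_gauss
  set W := eLpNorm w (4 / 3) volume with hW
  have hWt : W ≠ ∞ := hwm.2.ne
  set f : ℕ → ℝ → ℝ := fun n s => |g n s| + ((n : ℝ) + 1)⁻¹ * w s with hf
  have hfnice : ∀ n, Nice (f n) := by
    intro n
    refine ⟨?_, ?_, ?_⟩
    · have := hg3 n
      simp only [hf, hw]
      fun_prop
    · intro x
      have : 0 < ((n : ℝ) + 1)⁻¹ * w x := by
        have := Real.exp_pos (-x ^ 2)
        positivity
      have := abs_nonneg (g n x)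
      simp only [hf]
      linarith
    · exact (hg4 n).abs.add (hwm.const_mul _)
  have hdist : ∀ n, eLpNorm (f n - φ) (4 / 3) volume ≤
      ((n : ℝ≥0∞) + 1)⁻¹ + ((n : ℝ≥0∞) + 1)⁻¹ * W := by
    intro n
    have e1 : f n - φ = (fun s => |g n s| - φ s) + (((n : ℝ) + 1)⁻¹ • w) := by
      funext s
      simp only [hf, Pi.sub_apply, Pi.add_apply, Pi.smul_apply, smul_eq_mul]
      ring
    rw [e1]
    refine le_trans (eLpNorm_add_le ?_ ?_ one_le_exponent) ?_
    · exact ((hg4 n).abs.sub hφm).1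
    · exact (hwm.const_smul _).1
    · refine add_le_add (le_trans (eLpNorm_mono (fun s => ?_)) (hg2 n)) ?_
      · have h1 := abs_abs_sub_abs_le_abs_sub (g n s) (φ s)
        rw [abs_of_nonneg (hφ0 s)] at h1
        rw [Real.norm_eq_abs, Real.norm_eq_abs, Pi.sub_apply, abs_sub_comm (φ s)]
        exact h1
      · rw [eLpNorm_const_smul]
        refine mul_le_mul' (le_of_eq ?_) le_rfl
        rw [Real.enorm_of_nonneg (by positivity), ENNReal.ofReal_inv_of_pos (by positivity),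
          ENNReal.ofReal_add (by positivity) (by norm_num), ENNReal.ofReal_natCast,
          ENNReal.ofReal_one]
  have hδ : Tendsto (fun n : ℕ => ((n : ℝ≥0∞) + 1)⁻¹ + ((n : ℝ≥0∞) + 1)⁻¹ * W) atTop (𝓝 0) := by
    have h1 : Tendsto (fun n : ℕ => ((n : ℝ≥0∞) + 1)⁻¹) atTop (𝓝 0) := by
      have := ENNReal.tendsto_inv_nat_nhds_zero.comp (tendsto_add_atTop_nat 1)
      refine this.congr fun n => ?_
      simp
    have h2 := ENNReal.Tendsto.mul_const h1 (Or.inr hWt)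
    have h3 := h1.add h2
    simpa using h3
  have hconv : Tendsto (fun n => eLpNorm (f n - φ) (4 / 3) volume) atTop (𝓝 0) :=
    tendsto_of_tendsto_of_tendsto_of_le_of_le tendsto_const_nhds hδ (fun n => zero_le) hdist
  have hmeas : TendstoInMeasure volume f atTop φ :=
    tendstoInMeasure_of_tendsto_eLpNorm exponent_ne_zero
      (fun n => (hfnice n).2.2.1) hφm.1 hconv
  obtain ⟨ns, hns, hae⟩ := hmeas.exists_seq_tendsto_ae
  have hstep : ∫⁻ s, ENNReal.ofReal (φ s) * k s ≤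
      ∫⁻ s, liminf (fun i => ENNReal.ofReal (f (ns i) s) * k s) atTop := by
    refine lintegral_mono_ae ?_
    filter_upwards [hae] with s hs
    have h1 : Tendsto (fun i => ENNReal.ofReal (f (ns i) s)) atTop (𝓝 (ENNReal.ofReal (φ s))) :=
      (ENNReal.continuous_ofReal.tendsto _).comp hs
    by_cases hz : ENNReal.ofReal (φ s) = 0
    · rw [hz, zero_mul]
      exact zero_le
    · have h2 := ENNReal.Tendsto.mul_const (b := k s) h1 (Or.inl hz)
      rw [h2.liminf_eq]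
  have hfat : ∫⁻ s, liminf (fun i => ENNReal.ofReal (f (ns i) s) * k s) atTop ≤
      liminf (fun i => ∫⁻ s, ENNReal.ofReal (f (ns i) s) * k s) atTop := by
    refine lintegral_liminf_le fun i => ?_
    exact ((hfnice (ns i)).1.measurable.ennreal_ofReal).mul hk
  have hlim : liminf (fun i => ∫⁻ s, ENNReal.ofReal (f (ns i) s) * k s) atTop ≤
      D * eLpNorm φ (4 / 3) volume := by
    have h1 : ∀ i, ∫⁻ s, ENNReal.ofReal (f (ns i) s) * k s ≤
        D * (eLpNorm φ (4 / 3) volume + (((ns i : ℝ≥0∞) + 1)⁻¹ + ((ns i : ℝ≥0∞) + 1)⁻¹ * W)) := by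
      intro i
      refine le_trans (h _ (hfnice (ns i))) ?_
      gcongr
      have e : f (ns i) = φ + (f (ns i) - φ) := by
        funext s
        simp
      calc eLpNorm (f (ns i)) (4 / 3) volume = eLpNorm (φ + (f (ns i) - φ)) (4 / 3) volume := by
            rw [← e]
        _ ≤ eLpNorm φ (4 / 3) volume + eLpNorm (f (ns i) - φ) (4 / 3) volume :=
            eLpNorm_add_le hφm.1 ((hfnice (ns i)).2.2.1.sub hφm.1) one_le_exponent
        _ ≤ _ := by
            gcongr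
            exact hdist (ns i)
    have h2 : Tendsto (fun i => D * (eLpNorm φ (4 / 3) volume +
        (((ns i : ℝ≥0∞) + 1)⁻¹ + ((ns i : ℝ≥0∞) + 1)⁻¹ * W))) atTop
        (𝓝 (D * (eLpNorm φ (4 / 3) volume + 0))) := by
      refine ENNReal.Tendsto.const_mul ?_ (Or.inr hD)
      exact tendsto_const_nhds.add (hδ.comp hns.tendsto_atTop)
    rw [add_zero] at h2
    rw [← h2.liminf_eq]
    exact liminf_le_liminf (Eventually.of_forall h1)
  exact hstep.trans (hfat.trans hlim)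

/-- The kernel in the variable `s = log x`. -/
noncomputable def Ke (s : ℝ) : ℝ≥0∞ := ENNReal.ofReal (Kr s ^ (1 / 2 : ℝ))

lemma Ke_meas : Measurable Ke := by
  unfold Ke
  exact (Kr_cont.rpow_const (fun x => Or.inl (Kr_pos x).ne')).measurable.ennreal_ofReal

lemma integrable_of_memLp {φ : ℝ → ℝ} (h0 : ∀ x, 0 ≤ φ x) (hm : MemLp φ (4 / 3) volume) :
    Integrable (fun x => φ x ^ (4 / 3 : ℝ)) := by
  have h := hm.integrable_norm_rpow exponent_ne_zero exponent_ne_top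
  have e : (4 / 3 : ℝ≥0∞).toReal = 4 / 3 := by
    rw [ENNReal.toReal_div]; simp
  rw [e] at h
  refine h.congr (Eventually.of_forall fun x => ?_)
  simp only
  rw [Real.norm_of_nonneg (h0 x)]

lemma norm_eq_integral {φ : ℝ → ℝ} (h0 : ∀ x, 0 ≤ φ x) (hm : MemLp φ (4 / 3) volume) :
    eLpNorm φ (4 / 3) volume = ENNReal.ofReal ((∫ x, φ x ^ (4 / 3 : ℝ)) ^ (3 / 4 : ℝ)) := by
  rw [eLp_eq h0]
  have h1 : ∀ s, ENNReal.ofReal (φ s) ^ (4 / 3 : ℝ) = ENNReal.ofReal (φ s ^ (4 / 3 : ℝ)) :=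
    fun s => ENNReal.ofReal_rpow_of_nonneg (h0 s) (by norm_num)
  simp_rw [h1]
  rw [← ofReal_integral_eq_lintegral_ofReal (integrable_of_memLp h0 hm)
    (Eventually.of_forall fun x => Real.rpow_nonneg (h0 x) _),
    ENNReal.ofReal_rpow_of_nonneg (integral_nonneg fun x => Real.rpow_nonneg (h0 x) _)
      (by norm_num)]

/-- The bilinear form. -/
noncomputable def Bf (φ ψ : ℝ → ℝ) : ℝ≥0∞ :=
  ∫⁻ s, ENNReal.ofReal (φ s) * ∫⁻ t, ENNReal.ofReal (ψ t) * Ke (s - t)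

lemma Ke_symm (s t : ℝ) : Ke (s - t) = Ke (t - s) := by
  unfold Ke Kr
  have e1 : -((s - t) / 2) = (t - s) / 2 := by ring
  have e2 : -((t - s) / 2) = (s - t) / 2 := by ring
  rw [e1, e2, add_comm]

lemma Bf_symm {φ ψ : ℝ → ℝ} (hφ : AEMeasurable φ) (hψ : AEMeasurable ψ) : Bf φ ψ = Bf ψ φ := by
  have h1 : ∀ {φ ψ : ℝ → ℝ}, AEMeasurable φ → AEMeasurable ψ →
      Bf φ ψ = ∫⁻ s, ∫⁻ t, ENNReal.ofReal (φ s) * (ENNReal.ofReal (ψ t) * Ke (s - t)) := by
    intro φ ψ _ hψ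
    unfold Bf
    refine lintegral_congr fun s => ?_
    rw [lintegral_const_mul'' _ ?_]
    exact hψ.ennreal_ofReal.mul ((Ke_meas.comp (measurable_const.sub measurable_id)).aemeasurable)
  rw [h1 hφ hψ, h1 hψ hφ, lintegral_lintegral_swap]
  · refine lintegral_congr fun t => lintegral_congr fun s => ?_
    rw [Ke_symm s t]
    ring
  · have e1 : AEMeasurable (fun z : ℝ × ℝ => ENNReal.ofReal (φ z.1)) (volume.prod volume) :=
      hφ.ennreal_ofReal.comp_quasiMeasurePreserving Measure.quasiMeasurePreserving_fst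
    have e2 : AEMeasurable (fun z : ℝ × ℝ => ENNReal.ofReal (ψ z.2)) (volume.prod volume) :=
      hψ.ennreal_ofReal.comp_quasiMeasurePreserving Measure.quasiMeasurePreserving_snd
    have e3 : AEMeasurable (fun z : ℝ × ℝ => Ke (z.1 - z.2)) (volume.prod volume) :=
      (Ke_meas.comp (measurable_fst.sub measurable_snd)).aemeasurable
    exact e1.mul (e2.mul e3)

lemma nice_bound {φ ψ : ℝ → ℝ} (hφ : Nice φ) (hψ : Nice ψ) :
    Bf φ ψ ≤ ENNReal.ofReal C0 * eLpNorm ψ (4 / 3) volume * eLpNorm φ (4 / 3) volume := by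
  have h := nice hφ.1 hφ.2.1 (integrable_of_memLp (fun x => (hφ.2.1 x).le) hφ.2.2) hψ.1 hψ.2.1
    (integrable_of_memLp (fun x => (hψ.2.1 x).le) hψ.2.2)
  rw [norm_eq_integral (fun x => (hφ.2.1 x).le) hφ.2.2,
    norm_eq_integral (fun x => (hψ.2.1 x).le) hψ.2.2,
    ← ENNReal.ofReal_mul C0_pos.le, ← ENNReal.ofReal_mul (mul_nonneg C0_pos.le
      (Real.rpow_nonneg (integral_nonneg fun x => Real.rpow_nonneg (hψ.2.1 x).le _) _))]
  have e1 : Bf φ ψ = ∫⁻ p : ℝ × ℝ,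
      ENNReal.ofReal (φ p.1 * ψ p.2 * Kr (p.1 - p.2) ^ (1 / 2 : ℝ)) := by
    rw [Measure.volume_eq_prod, lintegral_prod]
    · unfold Bf
      refine lintegral_congr fun s => ?_
      rw [← lintegral_const_mul]
      · refine lintegral_congr fun t => ?_
        simp only
        rw [mul_assoc (φ s), ENNReal.ofReal_mul (hφ.2.1 s).le, ENNReal.ofReal_mul (hψ.2.1 t).le]
        rfl
      · exact hψ.1.measurable.ennreal_ofReal.mul
          (Ke_meas.comp (measurable_const.sub measurable_id))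
    · refine (Measurable.ennreal_ofReal ?_).aemeasurable
      have m1 : Measurable (fun p : ℝ × ℝ => φ p.1) := hφ.1.measurable.comp measurable_fst
      have m2 : Measurable (fun p : ℝ × ℝ => ψ p.2) := hψ.1.measurable.comp measurable_snd
      have m3 : Measurable (fun p : ℝ × ℝ => Kr (p.1 - p.2) ^ (1 / 2 : ℝ)) :=
        (Kr_cont.rpow_const (fun x => Or.inl (Kr_pos x).ne')).measurable.comp
          (measurable_fst.sub measurable_snd)
      exact (m1.mul m2).mul m3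
  rw [e1]
  refine h.trans (ENNReal.ofReal_le_ofReal (le_of_eq ?_))
  ring

lemma inner_meas {ψ : ℝ → ℝ} (hψ : AEMeasurable ψ) :
    Measurable (fun s => ∫⁻ t, ENNReal.ofReal (ψ t) * Ke (s - t)) := by
  -- replace `ψ` by a measurable version
  have h1 : ∀ s, ∫⁻ t, ENNReal.ofReal (ψ t) * Ke (s - t) =
      ∫⁻ t, ENNReal.ofReal (hψ.mk ψ t) * Ke (s - t) := by
    intro s
    refine lintegral_congr_ae ?_
    filter_upwards [hψ.ae_eq_mk] with t ht
    rw [ht]
  simp_rw [h1]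
  have m : Measurable (fun z : ℝ × ℝ => ENNReal.ofReal (hψ.mk ψ z.2) * Ke (z.1 - z.2)) :=
    ((hψ.measurable_mk.comp measurable_snd).ennreal_ofReal).mul
      (Ke_meas.comp (measurable_fst.sub measurable_snd))
  exact m.lintegral_prod_right'

/-- The inequality on the line for all nonnegative functions of finite norm. -/
theorem line_bound {φ ψ : ℝ → ℝ} (hφ : MemLp φ (4 / 3) volume) (hφ0 : ∀ x, 0 ≤ φ x)
    (hψ : MemLp ψ (4 / 3) volume) (hψ0 : ∀ x, 0 ≤ ψ x) :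
    Bf φ ψ ≤ ENNReal.ofReal C0 * eLpNorm ψ (4 / 3) volume * eLpNorm φ (4 / 3) volume := by
  -- first step: `ψ` nice
  have step1 : ∀ χ : ℝ → ℝ, Nice χ →
      Bf φ χ ≤ ENNReal.ofReal C0 * eLpNorm χ (4 / 3) volume * eLpNorm φ (4 / 3) volume := by
    intro χ hχ
    exact extend (ENNReal.mul_ne_top ENNReal.ofReal_ne_top hχ.2.2.2.ne)
      (inner_meas hχ.2.2.1.aemeasurable) (fun θ hθ => nice_bound hθ hχ) hφ hφ0
  have hφm := hφ.1.aemeasurable
  have hψm := hψ.1.aemeasurable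
  rw [Bf_symm hφm hψm]
  have := extend (k := fun s => ∫⁻ t, ENNReal.ofReal (φ t) * Ke (s - t))
    (D := ENNReal.ofReal C0 * eLpNorm φ (4 / 3) volume)
    (ENNReal.mul_ne_top ENNReal.ofReal_ne_top hφ.2.ne)
    (inner_meas hφm) (fun θ hθ => ?_) hψ hψ0
  · refine le_trans this (le_of_eq ?_)
    ring
  · have h1 := step1 θ hθ
    rw [Bf_symm hφm hθ.2.2.1.aemeasurable] at h1
    refine le_trans h1 (le_of_eq ?_)
    ring

end MPdbfb19
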