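import Mathlib
import Pool.Agent.MP_dbfb19_an.Approx

/-!
# The convolution operator with kernel `K` on nonnegative functions on the line
-/

open MeasureTheory Set Filter Topology
open scoped ENNReal

namespace MPdbfb19

/-- The convolution operator. -/
noncomputable def Tt (φ : ℝ → ℝ≥0∞) (s : ℝ) : ℝ≥0∞ := ∫⁻ t, φ t * Ke (s - t)

/-- `∫ φ^{4/3}`. -/
noncomputable def NN (φ : ℝ → ℝ≥0∞) : ℝ≥0∞ := ∫⁻ s, φ s ^ (4 / 3 : ℝ)

/-- `∫ u⁴`. -/
noncomputable def F4 (u : ℝ → ℝ≥0∞) : ℝ≥0∞ := ∫⁻ s, u s ^ 4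

lemma Tt_meas {φ : ℝ → ℝ≥0∞} (hφ : Measurable φ) : Measurable (Tt φ) := by
  have m : Measurable (fun z : ℝ × ℝ => φ z.2 * Ke (z.1 - z.2)) :=
    (hφ.comp measurable_snd).mul (Ke_meas.comp (measurable_fst.sub measurable_snd))
  exact m.lintegral_prod_right'

lemma Tt_symm {φ ψ : ℝ → ℝ≥0∞} (hφ : Measurable φ) (hψ : Measurable ψ) :
    ∫⁻ s, ψ s * Tt φ s = ∫⁻ s, φ s * Tt ψ s := by
  have h1 : ∀ {φ ψ : ℝ → ℝ≥0∞}, Measurable φ →
      ∫⁻ s, ψ s * Tt φ s = ∫⁻ s, ∫⁻ t, ψ s * (φ t * Ke (s - t)) := by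
    intro φ ψ hφ
    refine lintegral_congr fun s => ?_
    unfold Tt
    have hm : Measurable (fun t => φ t * Ke (s - t)) :=
      hφ.mul (Ke_meas.comp (measurable_const.sub measurable_id))
    rw [lintegral_const_mul _ hm]
  rw [h1 hφ, h1 hψ, lintegral_lintegral_swap]
  · refine lintegral_congr fun t => lintegral_congr fun s => ?_
    rw [Ke_symm s t]
    ring
  · have e1 : Measurable (fun z : ℝ × ℝ => ψ z.1 * (φ z.2 * Ke (z.1 - z.2))) :=
      (hψ.comp measurable_fst).mul ((hφ.comp measurable_snd).mul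
        (Ke_meas.comp (measurable_fst.sub measurable_snd)))
    exact e1.aemeasurable

lemma conj_exp : Real.HolderConjugate (4 / 3) 4 := by
  rw [Real.holderConjugate_iff]
  norm_num

lemma holder {φ u : ℝ → ℝ≥0∞} (hφ : Measurable φ) (hu : Measurable u) :
    ∫⁻ s, φ s * u s ≤ NN φ ^ (3 / 4 : ℝ) * F4 u ^ (1 / 4 : ℝ) := by
  have h := ENNReal.lintegral_mul_le_Lp_mul_Lq volume conj_exp hφ.aemeasurable hu.aemeasurable
  have e : (1 / (4 / 3) : ℝ) = 3 / 4 := by norm_num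
  rw [e] at h
  have e2 : ∀ s, u s ^ (4 : ℝ) = u s ^ 4 := fun s => by
    rw [← ENNReal.rpow_natCast]; norm_num
  simp_rw [e2] at h
  exact h

/-- The bilinear bound with constant `c`. -/
def BB (c : ℝ≥0∞) : Prop := ∀ φ ψ : ℝ → ℝ≥0∞, Measurable φ → Measurable ψ → NN φ ≠ ∞ →
  NN ψ ≠ ∞ → ∫⁻ s, ψ s * Tt φ s ≤ c * NN φ ^ (3 / 4 : ℝ) * NN ψ ^ (3 / 4 : ℝ)

lemma cube_rpow (x : ℝ≥0∞) : (x ^ 3) ^ (4 / 3 : ℝ) = x ^ 4 := by
  rw [← ENNReal.rpow_natCast, ← ENNReal.rpow_mul, ← ENNReal.rpow_natCast x 4]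
  norm_num

/-- The operator bound. -/
lemma op_bound {c : ℝ≥0∞} (hB : BB c) {φ : ℝ → ℝ≥0∞} (hφ : Measurable φ) (hN : NN φ ≠ ∞) :
    F4 (Tt φ) ≤ c ^ 4 * NN φ ^ 3 := by
  set u := Tt φ with hu
  have hum : Measurable u := Tt_meas hφ
  set v : ℕ → ℝ → ℝ≥0∞ := fun n => indicator (Icc (-(n : ℝ)) n) (fun s => min (u s) n) with hv
  have hvm : ∀ n, Measurable (v n) := fun n =>
    (hum.min measurable_const).indicator measurableSet_Icc
  have hvu : ∀ n s, v n s ≤ u s := by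
    intro n s
    simp only [hv]
    by_cases h : s ∈ Icc (-(n : ℝ)) n
    · rw [indicator_of_mem h]; exact min_le_left _ _
    · rw [indicator_of_notMem h]; exact zero_le
  have hlim : ∀ s, Tendsto (fun n => v n s) atTop (𝓝 (u s)) := by
    intro s
    have h1 : Tendsto (fun n : ℕ => min (u s) (n : ℝ≥0∞)) atTop (𝓝 (min (u s) ∞)) :=
      tendsto_const_nhds.min ENNReal.tendsto_nat_nhds_top
    rw [min_eq_left le_top] at h1
    refine h1.congr' ?_
    obtain ⟨n0, hn0⟩ := exists_nat_ge |s|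
    filter_upwards [eventually_ge_atTop n0] with n hn
    have : s ∈ Icc (-(n : ℝ)) n := by
      have h2 : |s| ≤ n := hn0.trans (by exact_mod_cast hn)
      exact abs_le.1 h2
    simp only [hv]
    rw [indicator_of_mem this]
  have hX : ∀ n, F4 (v n) ≤ c ^ 4 * NN φ ^ 3 := by
    intro n
    have hfin : F4 (v n) ≠ ∞ := by
      have h1 : F4 (v n) ≤ ∫⁻ s in Icc (-(n : ℝ)) n, (n : ℝ≥0∞) ^ 4 := by
        rw [← lintegral_indicator measurableSet_Icc]
        refine lintegral_mono fun s => ?_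
        simp only [hv]
        by_cases h : s ∈ Icc (-(n : ℝ)) n
        · rw [indicator_of_mem h, indicator_of_mem h]
          gcongr
          exact min_le_right _ _
        · rw [indicator_of_notMem h, indicator_of_notMem h]
          simp
      refine ne_top_of_le_ne_top ?_ h1
      rw [setLIntegral_const]
      exact ENNReal.mul_ne_top (by simp) (by simp [Real.volume_Icc])
    have e1 : NN (fun s => v n s ^ 3) = F4 (v n) := by
      unfold NN F4
      refine lintegral_congr fun s => cube_rpow _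
    have h2 := hB φ (fun s => v n s ^ 3) hφ ((hvm n).pow_const 3) hN (by rw [e1]; exact hfin)
    rw [e1] at h2
    have h3 : F4 (v n) ≤ ∫⁻ s, v n s ^ 3 * Tt φ s := by
      unfold F4
      refine lintegral_mono fun s => ?_
      rw [pow_succ]
      gcongr
      exact hvu n s
    have h4 := h3.trans h2
    by_cases h0 : F4 (v n) = 0
    · rw [h0]; exact zero_le
    have h5 : F4 (v n) = F4 (v n) ^ (1 / 4 : ℝ) * F4 (v n) ^ (3 / 4 : ℝ) := by
      rw [← ENNReal.rpow_add _ _ h0 hfin]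
      norm_num
    have h6 : F4 (v n) ^ (3 / 4 : ℝ) ≠ 0 := by
      intro h; rw [ENNReal.rpow_eq_zero_iff] at h
      rcases h with h | h
      · exact h0 h.1
      · exact hfin h.1
    have h7 : F4 (v n) ^ (3 / 4 : ℝ) ≠ ∞ := ENNReal.rpow_ne_top_of_nonneg (by norm_num) hfin
    have h8 : F4 (v n) ^ (1 / 4 : ℝ) ≤ c * NN φ ^ (3 / 4 : ℝ) := by
      rw [h5] at h4
      have h9 : F4 (v n) ^ (1 / 4 : ℝ) * F4 (v n) ^ (3 / 4 : ℝ) ≤
          c * NN φ ^ (3 / 4 : ℝ) * F4 (v n) ^ (3 / 4 : ℝ) := by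
        rw [← h5] at h4 ⊢
        exact h4
      exact (ENNReal.mul_le_mul_iff_left h6 h7).1 h9
    have h10 := pow_le_pow_left' h8 4
    have e2 : (F4 (v n) ^ (1 / 4 : ℝ)) ^ 4 = F4 (v n) := by
      rw [← ENNReal.rpow_natCast, ← ENNReal.rpow_mul]
      norm_num
    have e3 : (c * NN φ ^ (3 / 4 : ℝ)) ^ 4 = c ^ 4 * NN φ ^ 3 := by
      rw [mul_pow]
      congr 1
      rw [← ENNReal.rpow_natCast, ← ENNReal.rpow_mul, ← ENNReal.rpow_natCast (NN φ) 3]
      norm_num
    rw [e2, e3] at h10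
    exact h10
  have hfat : F4 u ≤ liminf (fun n => F4 (v n)) atTop := by
    unfold F4
    have h1 : ∀ s, u s ^ 4 = liminf (fun n => v n s ^ 4) atTop := by
      intro s
      exact (((ENNReal.continuous_pow 4).tendsto _).comp (hlim s)).liminf_eq.symm
    simp_rw [h1]
    exact lintegral_liminf_le fun n => (hvm n).pow_const 4
  refine hfat.trans ?_
  have : liminf (fun _n : ℕ => c ^ 4 * NN φ ^ 3) atTop = c ^ 4 * NN φ ^ 3 := liminf_const _
  rw [← this]
  exact liminf_le_liminf (Eventually.of_forall hX)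

/-! ### Properties of the kernel -/

lemma Kr_lip (s s' : ℝ) : Kr s ≤ Real.exp (|s - s'| / 2) * Kr s' := by
  unfold Kr
  have h1 : Real.exp (s' / 2) + Real.exp (-(s' / 2)) ≤
      Real.exp (|s - s'| / 2) * (Real.exp (s / 2) + Real.exp (-(s / 2))) := by
    rw [mul_add, ← Real.exp_add, ← Real.exp_add]
    have a1 := le_abs_self (s - s')
    have a2 := neg_abs_le (s - s')
    refine add_le_add (Real.exp_le_exp.2 ?_) (Real.exp_le_exp.2 ?_) <;> linarith
  have p1 : 0 < Real.exp (s / 2) + Real.exp (-(s / 2)) := by positivity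
  have p2 : 0 < Real.exp (s' / 2) + Real.exp (-(s' / 2)) := by positivity
  rw [inv_eq_one_div, inv_eq_one_div, mul_one_div, div_le_div_iff₀ p1 p2]
  linarith

lemma Ke_lip (s s' : ℝ) : Ke s ≤ ENNReal.ofReal (Real.exp (|s - s'| / 4)) * Ke s' := by
  unfold Ke
  rw [← ENNReal.ofReal_mul (Real.exp_pos _).le]
  apply ENNReal.ofReal_le_ofReal
  have h1 := Real.rpow_le_rpow (Kr_pos s).le (Kr_lip s s') (by norm_num : (0 : ℝ) ≤ 1 / 2)
  rw [Real.mul_rpow (Real.exp_pos _).le (Kr_pos _).le, ← Real.exp_mul] at h1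
  have e : |s - s'| / 2 * (1 / 2) = |s - s'| / 4 := by ring
  rw [e] at h1
  exact h1

lemma Tt_lip (φ : ℝ → ℝ≥0∞) (s s' : ℝ) :
    Tt φ s ≤ ENNReal.ofReal (Real.exp (|s - s'| / 4)) * Tt φ s' := by
  unfold Tt
  rw [← lintegral_const_mul' _ _ ENNReal.ofReal_ne_top]
  refine lintegral_mono fun t => ?_
  have h := Ke_lip (s - t) (s' - t)
  have e : s - t - (s' - t) = s - s' := by ring
  rw [e] at h
  calc φ t * Ke (s - t) ≤ φ t * (ENNReal.ofReal (Real.exp (|s - s'| / 4)) * Ke (s' - t)) := by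
        gcongr
    _ = _ := by ring

lemma Ke_le_one (s : ℝ) : Ke s ≤ 1 := by
  unfold Ke
  rw [← ENNReal.ofReal_one]
  apply ENNReal.ofReal_le_ofReal
  apply Real.rpow_le_one (Kr_pos s).le _ (by norm_num)
  unfold Kr
  apply inv_le_one_of_one_le₀
  have h1 := Real.add_one_le_exp (s / 2)
  have h2 := Real.add_one_le_exp (-(s / 2))
  linarith

lemma Kr_le_exp (s : ℝ) : Kr s ≤ Real.exp (-(|s| / 2)) := by
  unfold Kr
  rw [Real.exp_neg (|s| / 2)]
  apply inv_anti₀ (Real.exp_pos _)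
  rcases abs_cases s with h | h
  · rw [h.1]
    have := Real.exp_pos (-(s / 2))
    linarith
  · rw [h.1]
    have := Real.exp_pos (s / 2)
    have e : -s / 2 = -(s / 2) := by ring
    rw [e]
    linarith

lemma lintegral_Ke_rpow {r : ℝ} (hr : 0 < r) : ∫⁻ s, Ke s ^ r ≠ ∞ := by
  have h1 : ∀ s, Ke s ^ r ≤ ENNReal.ofReal (Real.exp (-(r / 4) * |s|)) := by
    intro s
    unfold Ke
    rw [ENNReal.ofReal_rpow_of_nonneg (Real.rpow_nonneg (Kr_pos s).le _) hr.le]
    apply ENNReal.ofReal_le_ofReal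
    rw [← Real.rpow_mul (Kr_pos s).le]
    have h2 := Real.rpow_le_rpow (Kr_pos s).le (Kr_le_exp s) (by positivity : (0 : ℝ) ≤ 1 / 2 * r)
    refine h2.trans (le_of_eq ?_)
    rw [← Real.exp_mul]
    congr 1
    ring
  refine ne_top_of_le_ne_top ?_ (lintegral_mono h1)
  have hi : Integrable (fun s : ℝ => Real.exp (-(r / 4) * |s|)) := by
    rw [← integrableOn_univ, ← Iic_union_Ioi (a := (0 : ℝ)), integrableOn_union]
    constructor
    · refine (integrableOn_exp_mul_Iic (a := r / 4) (by positivity) 0).congr_fun (fun x hx => ?_)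
        measurableSet_Iic
      simp only
      rw [abs_of_nonpos hx]
      congr 1
      ring
    · refine (integrableOn_exp_mul_Ioi (a := -(r / 4)) (by linarith) 0).congr_fun (fun x hx => ?_)
        measurableSet_Ioi
      simp only
      rw [abs_of_pos hx]
  exact hi.lintegral_lt_top.ne

end MPdbfb19
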