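import Mathlib
import Pool.Agent.MP_dbfb19_an.Oper

/-!
# Existence of a maximiser
-/

open MeasureTheory Set Filter Topology
open scoped ENNReal

namespace MPdbfb19

/-- Bound for the values of `T φ`. -/
noncomputable def MK : ℝ≥0∞ := (∫⁻ s, Ke s ^ (4 : ℝ)) ^ (1 / 4 : ℝ)

lemma MK_ne_top : MK ≠ ∞ :=
  ENNReal.rpow_ne_top_of_nonneg (by norm_num) (lintegral_Ke_rpow (by norm_num))

lemma Tt_le {φ : ℝ → ℝ≥0∞} (hφ : Measurable φ) (s : ℝ) : Tt φ s ≤ NN φ ^ (3 / 4 : ℝ) * MK := by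
  have hm : Measurable (fun t => Ke (s - t)) := Ke_meas.comp (measurable_const.sub measurable_id)
  have h := holder hφ hm
  have e : F4 (fun t => Ke (s - t)) ^ (1 / 4 : ℝ) = MK := by
    unfold MK F4
    congr 1
    rw [lintegral_sub_left_eq_self (fun t => Ke t ^ 4) s]
    refine lintegral_congr fun t => ?_
    rw [← ENNReal.rpow_natCast]; norm_num
  rw [e] at h
  exact h

/-- Bound for the `L^{4/3}` norm of `T φ`. -/
noncomputable def AK : ℝ≥0∞ := (∫⁻ s, Ke s ^ (2 : ℝ)) ^ (1 / 3 : ℝ) * ∫⁻ s, Ke s ^ (2 / 3 : ℝ)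

lemma AK_ne_top : AK ≠ ∞ :=
  ENNReal.mul_ne_top (ENNReal.rpow_ne_top_of_nonneg (by norm_num)
    (lintegral_Ke_rpow (by norm_num))) (lintegral_Ke_rpow (by norm_num))

lemma NN_Tt_le {φ : ℝ → ℝ≥0∞} (hφ : Measurable φ) : NN (Tt φ) ≤ AK * NN φ := by
  have hpt : ∀ s, Tt φ s ^ (4 / 3 : ℝ) ≤ (∫⁻ s, Ke s ^ (2 : ℝ)) ^ (1 / 3 : ℝ) *
      ∫⁻ t, φ t ^ (4 / 3 : ℝ) * Ke (s - t) ^ (2 / 3 : ℝ) := by
    intro s
    have hm : Measurable (fun t => Ke (s - t)) := Ke_meas.comp (measurable_const.sub measurable_id)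
    have h := ENNReal.lintegral_mul_le_Lp_mul_Lq volume conj_exp
      (f := fun t => φ t * Ke (s - t) ^ (1 / 2 : ℝ)) (g := fun t => Ke (s - t) ^ (1 / 2 : ℝ))
      (hφ.mul (hm.pow_const _)).aemeasurable (hm.pow_const _).aemeasurable
    have e1 : ∀ t, ((fun t => φ t * Ke (s - t) ^ (1 / 2 : ℝ)) * fun t => Ke (s - t) ^ (1 / 2 : ℝ)) t =
        φ t * Ke (s - t) := by
      intro t
      simp only [Pi.mul_apply]
      rw [mul_assoc, ← ENNReal.rpow_add_of_nonneg _ _ (by norm_num) (by norm_num)]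
      norm_num
    have e2 : ∀ t, (φ t * Ke (s - t) ^ (1 / 2 : ℝ)) ^ (4 / 3 : ℝ) =
        φ t ^ (4 / 3 : ℝ) * Ke (s - t) ^ (2 / 3 : ℝ) := by
      intro t
      rw [ENNReal.mul_rpow_of_nonneg _ _ (by norm_num), ← ENNReal.rpow_mul]
      norm_num
    have e3 : ∀ t, (Ke (s - t) ^ (1 / 2 : ℝ)) ^ (4 : ℝ) = Ke (s - t) ^ (2 : ℝ) := by
      intro t
      rw [← ENNReal.rpow_mul]
      norm_num
    simp_rw [e1, e2, e3] at h
    rw [lintegral_sub_left_eq_self (fun t => Ke t ^ (2 : ℝ)) s] at h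
    have h2 := ENNReal.rpow_le_rpow h (by norm_num : (0 : ℝ) ≤ 4 / 3)
    unfold Tt
    refine h2.trans (le_of_eq ?_)
    rw [ENNReal.mul_rpow_of_nonneg _ _ (by norm_num), ← ENNReal.rpow_mul, ← ENNReal.rpow_mul,
      mul_comm]
    norm_num
  unfold NN
  have m0 : Measurable (fun z : ℝ × ℝ => φ z.2 ^ (4 / 3 : ℝ) * Ke (z.1 - z.2) ^ (2 / 3 : ℝ)) :=
    ((hφ.comp measurable_snd).pow_const _).mul
      ((Ke_meas.comp (measurable_fst.sub measurable_snd)).pow_const _)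
  calc ∫⁻ s, Tt φ s ^ (4 / 3 : ℝ) ≤ ∫⁻ s, (∫⁻ s, Ke s ^ (2 : ℝ)) ^ (1 / 3 : ℝ) *
      ∫⁻ t, φ t ^ (4 / 3 : ℝ) * Ke (s - t) ^ (2 / 3 : ℝ) := lintegral_mono hpt
    _ = (∫⁻ s, Ke s ^ (2 : ℝ)) ^ (1 / 3 : ℝ) *
        ∫⁻ s, ∫⁻ t, φ t ^ (4 / 3 : ℝ) * Ke (s - t) ^ (2 / 3 : ℝ) :=
        lintegral_const_mul _ m0.lintegral_prod_right'
    _ = (∫⁻ s, Ke s ^ (2 : ℝ)) ^ (1 / 3 : ℝ) *
        ∫⁻ t, ∫⁻ s, φ t ^ (4 / 3 : ℝ) * Ke (s - t) ^ (2 / 3 : ℝ) := by
        rw [lintegral_lintegral_swap m0.aemeasurable]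
    _ = (∫⁻ s, Ke s ^ (2 : ℝ)) ^ (1 / 3 : ℝ) *
        ∫⁻ t, φ t ^ (4 / 3 : ℝ) * ∫⁻ s, Ke s ^ (2 / 3 : ℝ) := by
        congr 1
        refine lintegral_congr fun t => ?_
        have hm : Measurable (fun s => Ke (s - t) ^ (2 / 3 : ℝ)) :=
          (Ke_meas.comp (measurable_id.sub measurable_const)).pow_const _
        rw [lintegral_const_mul _ hm, lintegral_sub_right_eq_self (fun s => Ke s ^ (2 / 3 : ℝ)) t]
    _ = _ := by
        rw [lintegral_mul_const _ (hφ.pow_const _)]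
        unfold AK
        ring

/-- Nonvanishing. -/
lemma exists_large {φ : ℝ → ℝ≥0∞} (hφ : Measurable φ) (hN : NN φ ≤ 1) {b : ℝ≥0∞}
    (hb : b ^ (8 / 3 : ℝ) * AK < F4 (Tt φ)) : ∃ s, b ≤ Tt φ s := by
  by_contra hne
  have hne' : ∀ s, Tt φ s ≤ b := by
    intro s
    by_contra h
    exact hne ⟨s, (not_le.1 h).le⟩
  have h1 : F4 (Tt φ) ≤ b ^ (8 / 3 : ℝ) * NN (Tt φ) := by
    unfold F4 NN
    rw [← lintegral_const_mul _ ((Tt_meas hφ).pow_const _)]
    refine lintegral_mono fun s => ?_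
    have e : Tt φ s ^ 4 = Tt φ s ^ (8 / 3 : ℝ) * Tt φ s ^ (4 / 3 : ℝ) := by
      rw [← ENNReal.rpow_add_of_nonneg _ _ (by norm_num) (by norm_num), ← ENNReal.rpow_natCast]
      norm_num
    rw [e]
    gcongr
    exact hne' s
  have h2 : b ^ (8 / 3 : ℝ) * NN (Tt φ) ≤ b ^ (8 / 3 : ℝ) * AK := by
    gcongr
    calc NN (Tt φ) ≤ AK * NN φ := NN_Tt_le hφ
      _ ≤ AK * 1 := by gcongr
      _ = AK := mul_one _
  exact absurd (h1.trans h2) (not_le.2 hb)

/-! ### Translations -/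

lemma Tt_shift (φ : ℝ → ℝ≥0∞) (a s : ℝ) : Tt (fun t => φ (t + a)) s = Tt φ (s + a) := by
  unfold Tt
  rw [← lintegral_add_right_eq_self (fun t => φ t * Ke (s + a - t)) a]
  refine lintegral_congr fun t => ?_
  have e : s + a - (t + a) = s - t := by ring
  rw [e]

lemma NN_shift (φ : ℝ → ℝ≥0∞) (a : ℝ) : NN (fun t => φ (t + a)) = NN φ := by
  unfold NN
  exact lintegral_add_right_eq_self (fun t => φ t ^ (4 / 3 : ℝ)) a

lemma F4_shift (φ : ℝ → ℝ≥0∞) (a : ℝ) : F4 (fun t => φ (t + a)) = F4 φ := by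
  unfold F4
  exact lintegral_add_right_eq_self (fun t => φ t ^ 4) a

/-! ### Convergence -/

lemma Tt_tendsto {h : ℕ → ℝ → ℝ≥0∞} {h' : ℝ → ℝ≥0∞} (hm : ∀ n, Measurable (h n)) {M : ℝ≥0∞}
    (hM : M ≠ ∞) (hb : ∀ n s, h n s ≤ M) (hl : ∀ s, Tendsto (fun n => h n s) atTop (𝓝 (h' s)))
    (s : ℝ) : Tendsto (fun n => Tt (h n) s) atTop (𝓝 (Tt h' s)) := by
  unfold Tt
  have hmk : Measurable (fun t => Ke (s - t)) := Ke_meas.comp (measurable_const.sub measurable_id)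
  refine tendsto_lintegral_of_dominated_convergence (fun t => M * Ke (s - t))
    (fun n => (hm n).mul hmk) (fun n => Eventually.of_forall fun t => ?_) ?_
    (Eventually.of_forall fun t => ?_)
  · exact mul_le_mul' (hb n t) le_rfl
  · rw [lintegral_const_mul _ hmk, lintegral_sub_left_eq_self Ke s]
    refine ENNReal.mul_ne_top hM ?_
    have := lintegral_Ke_rpow (r := 1) one_pos
    simpa using this
  · exact ENNReal.Tendsto.mul_const (hl t) (Or.inr ENNReal.ofReal_ne_top)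

/-- A pointwise convergent subsequence. -/
lemma exists_subseq (θ : ℕ → ℝ → ℝ≥0∞) {M : ℝ≥0∞} (hM : M ≠ ∞) (hb : ∀ n s, Tt (θ n) s ≤ M) :
    ∃ ns : ℕ → ℕ, StrictMono ns ∧ ∃ u : ℝ → ℝ≥0∞,
      ∀ s, Tendsto (fun k => Tt (θ (ns k)) s) atTop (𝓝 (u s)) := by
  obtain ⟨U, ns, hns, hU⟩ := CompactSpace.tendsto_subseq
    (fun n : ℕ => (fun q : ℚ => Tt (θ n) (q : ℝ)))
  rw [tendsto_pi_nhds] at hU
  refine ⟨ns, hns, fun s => liminf (fun k => Tt (θ (ns k)) s) atTop, fun s => ?_⟩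
  set l := liminf (fun k => Tt (θ (ns k)) s) atTop with hl
  have hlM : l ≤ M := by
    have : liminf (fun _k : ℕ => M) atTop = M := liminf_const M
    rw [← this]
    exact liminf_le_liminf (Eventually.of_forall fun k => hb _ _)
  have key : ∀ j : ℕ, limsup (fun k => Tt (θ (ns k)) s) atTop ≤
      ENNReal.ofReal (Real.exp (1 / ((j : ℝ) + 1))) * l := by
    intro j
    obtain ⟨q, hq1, hq2⟩ := exists_rat_btwn (show s < s + 1 / ((j : ℝ) + 1) by
      have : (0 : ℝ) < 1 / ((j : ℝ) + 1) := by positivity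
      linarith)
    set δ := |s - (q : ℝ)| / 4 with hδ
    have hδ2 : 2 * δ ≤ 1 / ((j : ℝ) + 1) := by
      have : |s - (q : ℝ)| ≤ 1 / ((j : ℝ) + 1) := by
        rw [abs_of_neg (by linarith)]
        linarith
      have h0 := abs_nonneg (s - (q : ℝ))
      rw [hδ]
      linarith
    have h1 : limsup (fun k => Tt (θ (ns k)) s) atTop ≤ ENNReal.ofReal (Real.exp δ) * U q := by
      have t1 : Tendsto (fun k => ENNReal.ofReal (Real.exp δ) * Tt (θ (ns k)) (q : ℝ)) atTop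
          (𝓝 (ENNReal.ofReal (Real.exp δ) * U q)) :=
        ENNReal.Tendsto.const_mul (hU q) (Or.inr ENNReal.ofReal_ne_top)
      rw [← t1.limsup_eq]
      exact limsup_le_limsup (Eventually.of_forall fun k => Tt_lip _ _ _)
    have h2 : ENNReal.ofReal (Real.exp (-δ)) * U q ≤ l := by
      have t1 : Tendsto (fun k => ENNReal.ofReal (Real.exp (-δ)) * Tt (θ (ns k)) (q : ℝ)) atTop
          (𝓝 (ENNReal.ofReal (Real.exp (-δ)) * U q)) :=
        ENNReal.Tendsto.const_mul (hU q) (Or.inr ENNReal.ofReal_ne_top)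
      rw [← t1.liminf_eq, hl]
      refine liminf_le_liminf (Eventually.of_forall fun k => ?_)
      have h3 := Tt_lip (θ (ns k)) (q : ℝ) s
      rw [abs_sub_comm] at h3
      calc ENNReal.ofReal (Real.exp (-δ)) * Tt (θ (ns k)) (q : ℝ)
          ≤ ENNReal.ofReal (Real.exp (-δ)) *
            (ENNReal.ofReal (Real.exp (|s - (q : ℝ)| / 4)) * Tt (θ (ns k)) s) := by gcongr
        _ = Tt (θ (ns k)) s := by
            rw [← mul_assoc, ← ENNReal.ofReal_mul (Real.exp_pos _).le, ← Real.exp_add, ← hδ,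
              neg_add_cancel, Real.exp_zero, ENNReal.ofReal_one, one_mul]
    calc limsup (fun k => Tt (θ (ns k)) s) atTop ≤ ENNReal.ofReal (Real.exp δ) * U q := h1
      _ = ENNReal.ofReal (Real.exp (2 * δ)) * (ENNReal.ofReal (Real.exp (-δ)) * U q) := by
          rw [← mul_assoc, ← ENNReal.ofReal_mul (Real.exp_pos _).le, ← Real.exp_add]
          congr 3
          ring
      _ ≤ ENNReal.ofReal (Real.exp (1 / ((j : ℝ) + 1))) * l := by
          gcongr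
  have hle : limsup (fun k => Tt (θ (ns k)) s) atTop ≤ l := by
    have t1 : Tendsto (fun j : ℕ => ENNReal.ofReal (Real.exp (1 / ((j : ℝ) + 1))) * l) atTop
        (𝓝 (1 * l)) := by
      refine ENNReal.Tendsto.mul_const ?_ (Or.inr (ne_top_of_le_ne_top hM hlM))
      have t2 : Tendsto (fun j : ℕ => Real.exp (1 / ((j : ℝ) + 1))) atTop (𝓝 (Real.exp 0)) :=
        (Real.continuous_exp.tendsto 0).comp tendsto_one_div_add_atTop_nhds_zero_nat
      rw [Real.exp_zero] at t2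
      rw [← ENNReal.ofReal_one]
      exact (ENNReal.continuous_ofReal.tendsto 1).comp t2
    rw [one_mul] at t1
    exact ge_of_tendsto' t1 key
  exact tendsto_of_le_liminf_of_limsup_le le_rfl hle

end MPdbfb19
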