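import Mathlib
import Pool.Agent.MP_dbfb19_an.Compact

/-!
# Existence of a maximiser
-/

open MeasureTheory Set Filter Topology
open scoped ENNReal

namespace MPdbfb19

/-- Elementary inequality behind the Brezis–Lieb argument. -/
lemma pow_four_le {t : ℝ} (ht0 : 0 < t) (ht1 : t < 1) {x y : ℝ} (hx : 0 ≤ x) (hy : 0 ≤ y) :
    (x + y) ^ 4 ≤ (1 / t) ^ 3 * x ^ 4 + (1 / (1 - t)) ^ 3 * y ^ 4 := by
  have hc := (convexOn_pow 4 (𝕜 := ℝ)).2 (x := x / t) (y := y / (1 - t))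
    (mem_Ici.2 (by positivity)) (mem_Ici.2 (div_nonneg hy (by linarith))) ht0.le
    (by linarith : (0 : ℝ) ≤ 1 - t) (by ring)
  simp only [smul_eq_mul] at hc
  have h1 : (0 : ℝ) < 1 - t := by linarith
  have e1 : t * (x / t) + (1 - t) * (y / (1 - t)) = x + y := by
    field_simp
  rw [e1] at hc
  refine hc.trans (le_of_eq ?_)
  field_simp

lemma pow_four_le' {t : ℝ} (ht0 : 0 < t) (ht1 : t < 1) {x y : ℝ≥0∞} (hx : x ≠ ∞) (hy : y ≠ ∞) :
    (x + y) ^ 4 ≤ ENNReal.ofReal ((1 / t) ^ 3) * x ^ 4 +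
      ENNReal.ofReal ((1 / (1 - t)) ^ 3) * y ^ 4 := by
  have h := pow_four_le ht0 ht1 (ENNReal.toReal_nonneg (a := x)) (ENNReal.toReal_nonneg (a := y))
  have h1 : (0 : ℝ) < 1 - t := by linarith
  have h2 := ENNReal.ofReal_le_ofReal h
  rw [ENNReal.ofReal_add (by positivity) (by positivity), ENNReal.ofReal_mul (by positivity),
    ENNReal.ofReal_mul (by positivity), ENNReal.ofReal_pow (by positivity),
    ENNReal.ofReal_pow ENNReal.toReal_nonneg, ENNReal.ofReal_pow ENNReal.toReal_nonneg,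
    ENNReal.ofReal_add ENNReal.toReal_nonneg ENNReal.toReal_nonneg, ENNReal.ofReal_toReal hx,
    ENNReal.ofReal_toReal hy] at h2
  exact h2

/-- Asymptotic orthogonality (one sided Brezis–Lieb). -/
lemma lim_F4 {w : ℝ → ℝ≥0∞} {e : ℕ → ℝ → ℝ≥0∞} (hw : Measurable w)
    (he : ∀ n, Measurable (e n)) (hwt : ∀ s, w s ≠ ∞) (het : ∀ n s, e n s ≠ ∞)
    (hlim : ∀ s, Tendsto (fun n => e n s) atTop (𝓝 0)) (hF : F4 w ≠ ∞) {x y : ℕ → ℝ≥0∞}
    {x' y' : ℝ≥0∞} (hx : Tendsto x atTop (𝓝 x')) (hy : Tendsto y atTop (𝓝 y'))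
    (hxF : ∀ n, x n ≤ F4 (fun s => w s + e n s)) (hyF : ∀ n, F4 (e n) ≤ y n)
    {t : ℝ} (ht0 : 0 < t) (ht1 : t < 1) :
    x' ≤ F4 w + ENNReal.ofReal ((1 / (1 - t)) ^ 3) * y' := by
  set A : ℝ≥0∞ := ENNReal.ofReal ((1 / t) ^ 3) with hA
  set B : ℝ≥0∞ := ENNReal.ofReal ((1 / (1 - t)) ^ 3) with hB
  have hAt : A ≠ ∞ := ENNReal.ofReal_ne_top
  have hBt : B ≠ ∞ := ENNReal.ofReal_ne_top
  set X : ℕ → ℝ → ℝ≥0∞ := fun n s => (w s + e n s) ^ 4 - B * e n s ^ 4 with hX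
  have hXm : ∀ n, Measurable (X n) := fun n =>
    ((hw.add (he n)).pow_const 4).sub (((he n).pow_const 4).const_mul B)
  have hXb : ∀ n s, X n s ≤ A * w s ^ 4 := by
    intro n s
    simp only [hX]
    exact tsub_le_iff_right.2 (pow_four_le' ht0 ht1 (hwt s) (het n s))
  have hXl : ∀ s, Tendsto (fun n => X n s) atTop (𝓝 (w s ^ 4)) := by
    intro s
    have h1 : Tendsto (fun n => (w s + e n s) ^ 4) atTop (𝓝 ((w s + 0) ^ 4)) :=
      ((ENNReal.continuous_pow 4).tendsto _).comp (tendsto_const_nhds.add (hlim s))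
    have h2 : Tendsto (fun n => B * e n s ^ 4) atTop (𝓝 (B * 0 ^ 4)) :=
      ENNReal.Tendsto.const_mul (((ENNReal.continuous_pow 4).tendsto _).comp (hlim s))
        (Or.inr hBt)
    have h3 := ENNReal.Tendsto.sub h1 h2 (Or.inr (by simp))
    simpa using h3
  have hXi : Tendsto (fun n => ∫⁻ s, X n s) atTop (𝓝 (F4 w)) := by
    refine tendsto_lintegral_of_dominated_convergence (fun s => A * w s ^ 4) hXm
      (fun n => Eventually.of_forall (hXb n)) ?_ (Eventually.of_forall hXl)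
    rw [lintegral_const_mul _ (hw.pow_const 4)]
    exact ENNReal.mul_ne_top hAt hF
  have hle : ∀ n, x n ≤ (∫⁻ s, X n s) + B * y n := by
    intro n
    refine (hxF n).trans ?_
    have h1 : F4 (fun s => w s + e n s) ≤ (∫⁻ s, X n s) + B * F4 (e n) := by
      unfold F4
      rw [← lintegral_const_mul _ ((he n).pow_const 4), ← lintegral_add_left (hXm n)]
      refine lintegral_mono fun s => ?_
      simp only [hX]
      exact le_tsub_add
    refine h1.trans ?_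
    gcongr
    exact hyF n
  exact le_of_tendsto_of_tendsto' hx (hXi.add (ENNReal.Tendsto.const_mul hy (Or.inr hBt))) hle

lemma rpow_superadd (a b : ℝ≥0∞) : a ^ (4 / 3 : ℝ) + b ^ (4 / 3 : ℝ) ≤ (a + b) ^ (4 / 3 : ℝ) :=
  ENNReal.add_rpow_le_rpow_add a b (by norm_num)

lemma arith {θ : ℝ} (h0 : 0 < θ) (h1 : θ ≤ 1) (h : 1 ≤ θ ^ 3 + (1 - θ) ^ 3) : θ = 1 := by
  have e : θ ^ 3 + (1 - θ) ^ 3 = 1 - 3 * θ * (1 - θ) := by ring
  rw [e] at h
  have h2 : θ * (1 - θ) ≤ 0 := by nlinarith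
  have h3 : 0 ≤ θ * (1 - θ) := mul_nonneg h0.le (by linarith)
  have h4 : θ * (1 - θ) = 0 := le_antisymm h2 h3
  rcases mul_eq_zero.1 h4 with h5 | h5
  · linarith
  · linarith

/-- Existence of a maximiser for the operator `T : L^{4/3} → L^4`. -/
theorem exists_max {c : ℝ≥0∞} (hc0 : c ≠ 0) (hct : c ≠ ∞) (hB : BB c) {φ : ℕ → ℝ → ℝ≥0∞}
    (hφm : ∀ n, Measurable (φ n)) (hφN : ∀ n, NN (φ n) = 1)
    (hφF : Tendsto (fun n => F4 (Tt (φ n))) atTop (𝓝 (c ^ 4))) :
    ∃ ψ : ℝ → ℝ≥0∞, Measurable ψ ∧ (∀ s, ψ s ≠ ∞) ∧ NN ψ = 1 ∧ F4 (Tt ψ) = c ^ 4 := by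
  set E := c ^ 4 with hE
  have hE0 : E ≠ 0 := pow_ne_zero _ hc0
  have hEt : E ≠ ∞ := ENNReal.pow_ne_top hct
  have hE2 : E / 2 < E := ENNReal.half_lt_self hE0 hEt
  -- the size of the sup
  set b : ℝ≥0∞ := (E / 2 / (AK + 1)) ^ (3 / 8 : ℝ) with hb
  have hAK1 : AK + 1 ≠ ∞ := ENNReal.add_ne_top.2 ⟨AK_ne_top, ENNReal.one_ne_top⟩
  have hb0 : b ≠ 0 := by
    rw [hb]
    intro h
    rw [ENNReal.rpow_eq_zero_iff] at h
    rcases h with h | h
    · have : E / 2 / (AK + 1) ≠ 0 :=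
        (ENNReal.div_pos (ENNReal.half_pos hE0).ne' hAK1).ne'
      exact this h.1
    · linarith [h.2]
  have hbA : b ^ (8 / 3 : ℝ) * AK ≤ E / 2 := by
    rw [hb, ← ENNReal.rpow_mul]
    have e : (3 / 8 * (8 / 3) : ℝ) = 1 := by norm_num
    rw [e, ENNReal.rpow_one]
    calc E / 2 / (AK + 1) * AK ≤ E / 2 / (AK + 1) * (AK + 1) := by gcongr; exact le_self_add
      _ = E / 2 := ENNReal.div_mul_cancel (by simp) hAK1
  -- discard the first terms
  obtain ⟨n0, hn0⟩ := eventually_atTop.1 (hφF.eventually (lt_mem_nhds hE2))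
  have hlarge : ∀ n, ∃ s, b ≤ Tt (φ (n + n0)) s := fun n =>
    exists_large (hφm _) (hφN _).le (lt_of_le_of_lt hbA (hn0 _ (Nat.le_add_left _ _)))
  choose sn hsn using hlarge
  set θ : ℕ → ℝ → ℝ≥0∞ := fun n t => φ (n + n0) (t + sn n) with hθ
  have hθm : ∀ n, Measurable (θ n) := fun n => (hφm _).comp (measurable_id.add_const _)
  have hθN : ∀ n, NN (θ n) = 1 := fun n => (NN_shift _ _).trans (hφN _)
  have hθT : ∀ n s, Tt (θ n) s = Tt (φ (n + n0)) (s + sn n) := fun n s => Tt_shift _ _ _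
  have hθF : ∀ n, F4 (Tt (θ n)) = F4 (Tt (φ (n + n0))) := by
    intro n
    have : Tt (θ n) = fun s => Tt (φ (n + n0)) (s + sn n) := funext (hθT n)
    rw [this]
    exact F4_shift _ _
  have hθ0 : ∀ n, b ≤ Tt (θ n) 0 := by
    intro n
    rw [hθT, zero_add]
    exact hsn n
  have hθb : ∀ n s, Tt (θ n) s ≤ MK := by
    intro n s
    have := Tt_le (hθm n) s
    rwa [hθN, ENNReal.one_rpow, one_mul] at this
  have hθFl : Tendsto (fun n => F4 (Tt (θ n))) atTop (𝓝 E) := by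
    simp_rw [hθF]
    exact hφF.comp (tendsto_add_atTop_nat n0)
  obtain ⟨ns, hns, u, hu⟩ := exists_subseq θ MK_ne_top hθb
  -- the subsequence
  set v : ℕ → ℝ → ℝ≥0∞ := fun k => Tt (θ (ns k)) with hv
  have hvm : ∀ k, Measurable (v k) := fun k => Tt_meas (hθm _)
  have hvF : Tendsto (fun k => F4 (v k)) atTop (𝓝 E) := hθFl.comp hns.tendsto_atTop
  have hum : Measurable u := measurable_of_tendsto_metrizable hvm (tendsto_pi_nhds.2 hu)
  have huM : ∀ s, u s ≤ MK := fun s => le_of_tendsto' (hu s) fun k => hθb _ _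
  have hu0 : b ≤ u 0 := ge_of_tendsto' (hu 0) fun k => hθ0 _
  have hupos : ∀ s, u s ≠ 0 := by
    intro s hs
    have h1 : ∀ k, b ≤ ENNReal.ofReal (Real.exp (|0 - s| / 4)) * v k s := fun k =>
      (hθ0 _).trans (Tt_lip _ _ _)
    have h2 : Tendsto (fun k => ENNReal.ofReal (Real.exp (|0 - s| / 4)) * v k s) atTop
        (𝓝 (ENNReal.ofReal (Real.exp (|0 - s| / 4)) * u s)) :=
      ENNReal.Tendsto.const_mul (hu s) (Or.inr ENNReal.ofReal_ne_top)
    have h3 := ge_of_tendsto' h2 h1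
    rw [hs, mul_zero, nonpos_iff_eq_zero] at h3
    exact hb0 h3
  -- F4 (v k) is between E/2 and E
  have hvF1 : ∀ k, E / 2 < F4 (v k) := by
    intro k
    simp only [hv]
    rw [hθF]
    exact hn0 _ (Nat.le_add_left _ _)
  have hvF0 : ∀ k, F4 (v k) ≠ 0 := fun k => ((zero_le).trans_lt (hvF1 k)).ne'
  have hvF2 : ∀ k, F4 (v k) ≤ E := by
    intro k
    have := op_bound hB (hθm (ns k)) (by rw [hθN]; exact ENNReal.one_ne_top)
    rw [hθN, one_pow, mul_one] at this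
    exact this
  have hvFt : ∀ k, F4 (v k) ≠ ∞ := fun k => ne_top_of_le_ne_top hEt (hvF2 k)
  -- the improved sequence
  set a : ℕ → ℝ≥0∞ := fun k => F4 (v k) ^ (-(3 / 4) : ℝ) with ha
  have hat : ∀ k, a k ≤ (E / 2) ^ (-(3 / 4) : ℝ) := by
    intro k
    simp only [ha]
    rw [ENNReal.rpow_neg, ENNReal.rpow_neg]
    apply ENNReal.inv_le_inv.2
    exact ENNReal.rpow_le_rpow (hvF1 k).le (by norm_num)
  have hatt : (E / 2) ^ (-(3 / 4) : ℝ) ≠ ∞ := by
    rw [ENNReal.rpow_neg]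
    apply ENNReal.inv_ne_top.2
    intro h
    rw [ENNReal.rpow_eq_zero_iff] at h
    rcases h with h | h
    · exact (ENNReal.half_pos hE0).ne' h.1
    · linarith [h.2]
  have hal : Tendsto a atTop (𝓝 (E ^ (-(3 / 4) : ℝ))) :=
    ((ENNReal.continuous_rpow_const).tendsto E).comp hvF
  have hal0 : E ^ (-(3 / 4) : ℝ) ≠ 0 := by
    rw [ENNReal.rpow_neg]
    exact ENNReal.inv_ne_zero.2 (ENNReal.rpow_ne_top_of_nonneg (by norm_num) hEt)
  have halt : E ^ (-(3 / 4) : ℝ) ≠ ∞ := by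
    refine ne_top_of_le_ne_top hatt ?_
    exact le_of_tendsto' hal hat
  set η : ℕ → ℝ → ℝ≥0∞ := fun k s => v k s ^ 3 * a k with hη
  set ψ : ℝ → ℝ≥0∞ := fun s => u s ^ 3 * E ^ (-(3 / 4) : ℝ) with hψ
  have hηm : ∀ k, Measurable (η k) := fun k => ((hvm k).pow_const 3).mul_const _
  have hψm : Measurable ψ := (hum.pow_const 3).mul_const _
  have hηl : ∀ s, Tendsto (fun k => η k s) atTop (𝓝 (ψ s)) := by
    intro s
    have h1 : Tendsto (fun k => v k s ^ 3) atTop (𝓝 (u s ^ 3)) :=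
      ((ENNReal.continuous_pow 3).tendsto _).comp (hu s)
    exact ENNReal.Tendsto.mul h1 (Or.inr halt) hal
      (Or.inr (ENNReal.pow_ne_top (ne_top_of_le_ne_top MK_ne_top (huM s))))
  set M := MK ^ 3 * (E / 2) ^ (-(3 / 4) : ℝ) with hM
  have hMt : M ≠ ∞ := ENNReal.mul_ne_top (ENNReal.pow_ne_top MK_ne_top) hatt
  have hηM : ∀ k s, η k s ≤ M := by
    intro k s
    simp only [hη, hM]
    have h1 := hθb (ns k) s
    have h2 := hat k
    gcongr
  have hψM : ∀ s, ψ s ≤ M := fun s => le_of_tendsto' (hηl s) fun k => hηM k s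
  have hηN : ∀ k, NN (η k) = 1 := by
    intro k
    unfold NN
    have e1 : ∀ s, η k s ^ (4 / 3 : ℝ) = v k s ^ 4 * (F4 (v k))⁻¹ := by
      intro s
      simp only [hη, ha]
      rw [ENNReal.mul_rpow_of_nonneg _ _ (by norm_num), cube_rpow, ← ENNReal.rpow_mul]
      have e : (-(3 / 4) * (4 / 3) : ℝ) = -1 := by norm_num
      rw [e, ENNReal.rpow_neg_one]
    simp_rw [e1]
    rw [lintegral_mul_const _ ((hvm k).pow_const 4)]
    exact ENNReal.mul_inv_cancel (hvF0 k) (hvFt k)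
  have hηF : ∀ k, F4 (v k) ≤ F4 (Tt (η k)) := by
    intro k
    have h1 := holder (hθm (ns k)) (Tt_meas (hηm k))
    rw [hθN, ENNReal.one_rpow, one_mul, ← Tt_symm (hθm _) (hηm k)] at h1
    have h2 : ∫⁻ s, η k s * Tt (θ (ns k)) s = F4 (v k) ^ (1 / 4 : ℝ) := by
      have e1 : ∀ s, η k s * Tt (θ (ns k)) s = v k s ^ 4 * a k := by
        intro s
        simp only [hη, hv]
        ring
      simp_rw [e1]
      rw [lintegral_mul_const _ ((hvm k).pow_const 4)]
      simp only [ha]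
      change F4 (v k) * _ = _
      nth_rewrite 1 [← ENNReal.rpow_one (F4 (v k))]
      rw [← ENNReal.rpow_add _ _ (hvF0 k) (hvFt k)]
      norm_num
    rw [h2] at h1
    exact (ENNReal.rpow_le_rpow_iff (by norm_num)).1 h1
  -- the parts of the improved sequence
  have hψN1 : NN ψ ≤ 1 := by
    unfold NN
    have h1 : ∀ s, ψ s ^ (4 / 3 : ℝ) = liminf (fun k => η k s ^ (4 / 3 : ℝ)) atTop := fun s =>
      (((ENNReal.continuous_rpow_const).tendsto _).comp (hηl s)).liminf_eq.symm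
    simp_rw [h1]
    refine (lintegral_liminf_le fun k => (hηm k).pow_const _).trans ?_
    have h2 : ∀ k, ∫⁻ s, η k s ^ (4 / 3 : ℝ) = 1 := hηN
    simp_rw [h2]
    rw [liminf_const]
  have hψNt : NN ψ ≠ ∞ := ne_top_of_le_ne_top ENNReal.one_ne_top hψN1
  set α : ℕ → ℝ → ℝ≥0∞ := fun k s => min (η k s) (ψ s) with hα
  set β : ℕ → ℝ → ℝ≥0∞ := fun k s => η k s - ψ s with hβ
  have hαm : ∀ k, Measurable (α k) := fun k => (hηm k).min hψm
  have hβm : ∀ k, Measurable (β k) := fun k => (hηm k).sub hψm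
  have hαl : Tendsto (fun k => NN (α k)) atTop (𝓝 (NN ψ)) := by
    unfold NN
    refine tendsto_lintegral_of_dominated_convergence (fun s => ψ s ^ (4 / 3 : ℝ))
      (fun k => (hαm k).pow_const _) (fun k => Eventually.of_forall fun s => ?_) hψNt
      (Eventually.of_forall fun s => ?_)
    · exact ENNReal.rpow_le_rpow (min_le_right _ _) (by norm_num)
    · have h1 : Tendsto (fun k => α k s) atTop (𝓝 (min (ψ s) (ψ s))) :=
        (hηl s).min tendsto_const_nhds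
      rw [min_self] at h1
      exact ((ENNReal.continuous_rpow_const).tendsto _).comp h1
  have hαβ : ∀ k, NN (α k) + NN (β k) ≤ 1 := by
    intro k
    rw [← hηN k]
    unfold NN
    rw [← lintegral_add_left ((hαm k).pow_const _)]
    refine lintegral_mono fun s => ?_
    refine (rpow_superadd _ _).trans ?_
    apply ENNReal.rpow_le_rpow _ (by norm_num)
    simp only [hα, hβ]
    rcases le_total (η k s) (ψ s) with h | h
    · rw [min_eq_left h, tsub_eq_zero_of_le h, add_zero]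
    · rw [min_eq_right h, add_tsub_cancel_of_le h]
  have hβN : ∀ k, NN (β k) ≤ 1 - NN (α k) := fun k =>
    ENNReal.le_sub_of_add_le_left (ne_top_of_le_ne_top ENNReal.one_ne_top
      (le_self_add.trans (hαβ k))) (hαβ k)
  have hβN1 : ∀ k, NN (β k) ≤ 1 := fun k => le_add_self.trans (hαβ k)
  -- T β → 0
  have hβl : ∀ s, Tendsto (fun k => β k s) atTop (𝓝 0) := by
    intro s
    have h1 : Tendsto (fun k => β k s) atTop (𝓝 (ψ s - ψ s)) :=
      ENNReal.Tendsto.sub (hηl s) tendsto_const_nhds (Or.inr (ne_top_of_le_ne_top hMt (hψM s)))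
    rwa [tsub_self] at h1
  have hTβ : ∀ s, Tendsto (fun k => Tt (β k) s) atTop (𝓝 0) := by
    intro s
    have h1 := Tt_tendsto hβm hMt (fun k s => tsub_le_self.trans (hηM k s)) hβl s
    have h2 : Tt (fun _ => (0 : ℝ≥0∞)) s = 0 := by
      unfold Tt
      simp
    rwa [h2] at h1
  have hwt : ∀ s, Tt ψ s ≠ ∞ := fun s => ne_top_of_le_ne_top
    (ENNReal.mul_ne_top (ENNReal.rpow_ne_top_of_nonneg (by norm_num) hψNt) MK_ne_top)
    (Tt_le hψm s)
  have het : ∀ k s, Tt (β k) s ≠ ∞ := fun k s => ne_top_of_le_ne_top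
    (ENNReal.mul_ne_top (ENNReal.rpow_ne_top_of_nonneg (by norm_num)
      (ne_top_of_le_ne_top ENNReal.one_ne_top (hβN1 k))) MK_ne_top) (Tt_le (hβm k) s)
  have hwF : F4 (Tt ψ) ≤ E * NN ψ ^ 3 := op_bound hB hψm hψNt
  have hwFt : F4 (Tt ψ) ≠ ∞ := ne_top_of_le_ne_top
    (ENNReal.mul_ne_top hEt (ENNReal.pow_ne_top hψNt)) hwF
  have hsum : ∀ k, F4 (v k) ≤ F4 (fun s => Tt ψ s + Tt (β k) s) := by
    intro k
    refine (hηF k).trans ?_
    unfold F4
    refine lintegral_mono fun s => ?_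
    gcongr
    unfold Tt
    have hm : Measurable (fun t => ψ t * Ke (s - t)) :=
      hψm.mul (Ke_meas.comp (measurable_const.sub measurable_id))
    simp only
    rw [← lintegral_add_left hm]
    refine lintegral_mono fun t => ?_
    simp only [hβ]
    rw [← add_mul]
    gcongr
    exact le_add_tsub
  have hy : Tendsto (fun k => E * (1 - NN (α k)) ^ 3) atTop (𝓝 (E * (1 - NN ψ) ^ 3)) := by
    refine ENNReal.Tendsto.const_mul ?_ (Or.inr hEt)
    exact ((ENNReal.continuous_pow 3).tendsto _).comp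
      (ENNReal.Tendsto.sub tendsto_const_nhds hαl (Or.inl ENNReal.one_ne_top))
  have hyF : ∀ k, F4 (Tt (β k)) ≤ E * (1 - NN (α k)) ^ 3 := by
    intro k
    refine (op_bound hB (hβm k) (ne_top_of_le_ne_top ENNReal.one_ne_top (hβN1 k))).trans ?_
    have := hβN k
    gcongr
  have hkey : ∀ t : ℝ, 0 < t → t < 1 → E ≤ F4 (Tt ψ) +
      ENNReal.ofReal ((1 / (1 - t)) ^ 3) * (E * (1 - NN ψ) ^ 3) := fun t ht0 ht1 =>
    lim_F4 (Tt_meas hψm) (fun k => Tt_meas (hβm k)) hwt het hTβ hwFt hvF hy hsum hyF ht0 ht1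
  have hkey' : E ≤ F4 (Tt ψ) + E * (1 - NN ψ) ^ 3 := by
    have h1 : Tendsto (fun n : ℕ => F4 (Tt ψ) +
        ENNReal.ofReal ((1 / (1 - 1 / ((n : ℝ) + 2))) ^ 3) * (E * (1 - NN ψ) ^ 3)) atTop
        (𝓝 (F4 (Tt ψ) + 1 * (E * (1 - NN ψ) ^ 3))) := by
      refine tendsto_const_nhds.add (ENNReal.Tendsto.mul_const ?_ (Or.inl one_ne_zero))
      have h2 : Tendsto (fun n : ℕ => (1 : ℝ) / ((n : ℝ) + 2)) atTop (𝓝 0) := by
        have h3 : Tendsto (fun n : ℕ => ((n : ℝ) + 2)) atTop atTop :=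
          tendsto_atTop_add_const_right _ 2 tendsto_natCast_atTop_atTop
        have := tendsto_inv_atTop_zero.comp h3
        refine this.congr fun n => ?_
        simp
      have h4 : Tendsto (fun n : ℕ => (1 / (1 - 1 / ((n : ℝ) + 2))) ^ 3) atTop
          (𝓝 ((1 / (1 - 0)) ^ 3)) := by
        refine Tendsto.pow (Tendsto.div tendsto_const_nhds (tendsto_const_nhds.sub h2) (by norm_num)) 3
      have e : ((1 : ℝ) / (1 - 0)) ^ 3 = 1 := by norm_num
      rw [e] at h4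
      rw [← ENNReal.ofReal_one]
      exact (ENNReal.continuous_ofReal.tendsto 1).comp h4
    rw [one_mul] at h1
    refine ge_of_tendsto' h1 fun n => hkey _ (by positivity) ?_
    rw [div_lt_one (by positivity)]
    have : (0 : ℝ) ≤ n := Nat.cast_nonneg n
    linarith
  -- conclusion
  set τ := NN ψ with hτ
  have hτ0 : τ ≠ 0 := by
    intro h
    rw [hτ] at h
    unfold NN at h
    rw [lintegral_eq_zero_iff (hψm.pow_const _)] at h
    have h1 : ∀ s, ψ s ^ (4 / 3 : ℝ) ≠ 0 := by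
      intro s hs
      rw [ENNReal.rpow_eq_zero_iff] at hs
      rcases hs with hs | hs
      · exact (mul_ne_zero (pow_ne_zero _ (hupos s)) hal0) hs.1
      · linarith [hs.2]
    have h2 : ∀ᵐ s : ℝ ∂volume, False := by
      filter_upwards [h] with s hs
      exact h1 s hs
    rw [ae_iff] at h2
    simp at h2
  have hfin : E ≤ E * (τ ^ 3 + (1 - τ) ^ 3) := by
    rw [mul_add]
    exact hkey'.trans (by gcongr)
  have hone : (1 : ℝ≥0∞) ≤ τ ^ 3 + (1 - τ) ^ 3 := by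
    by_contra h
    rw [not_le] at h
    have h1 : E * (τ ^ 3 + (1 - τ) ^ 3) < E * 1 := (ENNReal.mul_lt_mul_iff_right hE0 hEt).2 h
    rw [mul_one] at h1
    exact absurd hfin (not_le.2 h1)
  have hτt : τ ≠ ∞ := hψNt
  have hreal : (1 : ℝ) ≤ τ.toReal ^ 3 + (1 - τ.toReal) ^ 3 := by
    have h1 : (τ ^ 3 + (1 - τ) ^ 3).toReal = τ.toReal ^ 3 + (1 - τ.toReal) ^ 3 := by
      rw [ENNReal.toReal_add (ENNReal.pow_ne_top hτt) (ENNReal.pow_ne_top
        (ne_top_of_le_ne_top ENNReal.one_ne_top tsub_le_self)), ENNReal.toReal_pow,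
        ENNReal.toReal_pow, ENNReal.toReal_sub_of_le hψN1 ENNReal.one_ne_top,
        ENNReal.toReal_one]
    rw [← h1]
    have h2 := ENNReal.toReal_mono (ENNReal.add_ne_top.2 ⟨ENNReal.pow_ne_top hτt,
      ENNReal.pow_ne_top (ne_top_of_le_ne_top ENNReal.one_ne_top tsub_le_self)⟩) hone
    rwa [ENNReal.toReal_one] at h2
  have hτ1 : τ.toReal = 1 := by
    refine arith (ENNReal.toReal_pos hτ0 hτt) ?_ hreal
    have := ENNReal.toReal_mono ENNReal.one_ne_top hψN1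
    rwa [ENNReal.toReal_one] at this
  have hτ1' : τ = 1 := by
    rw [← ENNReal.ofReal_toReal hτt, hτ1, ENNReal.ofReal_one]
  refine ⟨ψ, hψm, fun s => ne_top_of_le_ne_top hMt (hψM s), hτ1', ?_⟩
  apply le_antisymm
  · rw [hτ1', one_pow, mul_one] at hwF
    exact hwF
  · rw [hτ1', tsub_self] at hkey'
    simpa using hkey'

end MPdbfb19
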