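import Mathlib
import Pool.Agent.MP_dbfb19_an.Oper

/-!
# The form is positive semidefinite
-/

open MeasureTheory Set Filter Topology
open scoped ENNReal

namespace MPdbfb19

/-- Laplace factor. -/
noncomputable def pl (s r : ℝ) : ℝ := Real.exp (1 / 4 * s) * Real.exp (-(Real.exp s * r))

/-- Weight. -/
noncomputable def wr (r : ℝ) : ℝ := r ^ (-(1 / 2) : ℝ) / Real.sqrt Real.pi

lemma pl_pos (s r : ℝ) : 0 < pl s r := by unfold pl; positivity

lemma wr_nonneg {r : ℝ} (hr : 0 < r) : 0 ≤ wr r := by unfold wr; positivity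

lemma Ke_laplace (s t : ℝ) :
    Ke (s - t) = ∫⁻ r in Ioi (0 : ℝ), ENNReal.ofReal (pl s r) *
      (ENNReal.ofReal (pl t r) * ENNReal.ofReal (wr r)) := by
  have hp : 0 < Real.exp s + Real.exp t := by positivity
  have hgam := Real.integral_rpow_mul_exp_neg_mul_Ioi (a := 1 / 2)
    (r := Real.exp s + Real.exp t) (by norm_num) hp
  rw [Real.Gamma_one_half_eq] at hgam
  have hint : IntegrableOn (fun r : ℝ => r ^ ((1 / 2 : ℝ) - 1) *
      Real.exp (-((Real.exp s + Real.exp t) * r))) (Ioi 0) := by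
    by_contra h
    rw [integral_undef h] at hgam
    have : 0 < (1 / (Real.exp s + Real.exp t)) ^ (1 / 2 : ℝ) * Real.sqrt Real.pi := by positivity
    linarith
  set A : ℝ := Real.exp (1 / 4 * s) * Real.exp (1 / 4 * t) / Real.sqrt Real.pi with hA
  have hA0 : 0 < A := by positivity
  have e1 : ∫⁻ r in Ioi (0 : ℝ), ENNReal.ofReal (pl s r) *
      (ENNReal.ofReal (pl t r) * ENNReal.ofReal (wr r)) =
      ∫⁻ r in Ioi (0 : ℝ), ENNReal.ofReal A * ENNReal.ofReal (r ^ ((1 / 2 : ℝ) - 1) *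
        Real.exp (-((Real.exp s + Real.exp t) * r))) := by
    refine setLIntegral_congr_fun measurableSet_Ioi fun r hr => ?_
    have hr0 : 0 < r := hr
    rw [← ENNReal.ofReal_mul (pl_pos t r).le, ← ENNReal.ofReal_mul (pl_pos s r).le,
      ← ENNReal.ofReal_mul hA0.le]
    congr 1
    unfold pl wr
    rw [hA]
    have e2 : Real.exp (-((Real.exp s + Real.exp t) * r)) =
        Real.exp (-(Real.exp s * r)) * Real.exp (-(Real.exp t * r)) := by
      rw [← Real.exp_add]
      congr 1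
      ring
    rw [e2]
    have e3 : ((1 / 2 : ℝ) - 1) = -(1 / 2) := by norm_num
    rw [e3]
    ring
  rw [e1, lintegral_const_mul' _ _ ENNReal.ofReal_ne_top,
    ← ofReal_integral_eq_lintegral_ofReal hint ?_, hgam, ← ENNReal.ofReal_mul hA0.le]
  · unfold Ke Kr
    congr 1
    have hs : 0 < Real.sqrt Real.pi := Real.sqrt_pos.2 Real.pi_pos
    have e1 : Real.exp s + Real.exp t =
        Real.exp ((s + t) / 2) * (Real.exp ((s - t) / 2) + Real.exp (-((s - t) / 2))) := by
      rw [mul_add, ← Real.exp_add, ← Real.exp_add]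
      congr 2 <;> ring
    have hq : 0 < Real.exp ((s - t) / 2) + Real.exp (-((s - t) / 2)) := by positivity
    rw [e1, hA, one_div (Real.exp ((s + t) / 2) * _), mul_inv,
      Real.mul_rpow (by positivity) (by positivity)]
    have e4 : ((Real.exp ((s + t) / 2))⁻¹) ^ (1 / 2 : ℝ) =
        (Real.exp (1 / 4 * s) * Real.exp (1 / 4 * t))⁻¹ := by
      rw [← Real.exp_neg, ← Real.exp_mul, ← Real.exp_add, ← Real.exp_neg]
      congr 1
      ring
    rw [e4]
    field_simp
  · filter_upwards [ae_restrict_mem measurableSet_Ioi] with r hr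
    have hr0 : 0 < r := hr
    simp only [Pi.zero_apply]
    positivity

/-- The Laplace type transform. -/
noncomputable def Lap (φ : ℝ → ℝ≥0∞) (r : ℝ) : ℝ≥0∞ := ∫⁻ s, φ s * ENNReal.ofReal (pl s r)

lemma pl_meas : Measurable (fun z : ℝ × ℝ => pl z.1 z.2) := by
  unfold pl
  fun_prop

lemma wr_meas : Measurable wr := by
  unfold wr
  fun_prop

lemma form_laplace {φ ψ : ℝ → ℝ≥0∞} (hφ : Measurable φ) (hψ : Measurable ψ) :
    ∫⁻ s, ψ s * Tt φ s = ∫⁻ r in Ioi (0 : ℝ), Lap ψ r * Lap φ r * ENNReal.ofReal (wr r) := by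
  have m1 : Measurable (fun z : ℝ × ℝ => ENNReal.ofReal (pl z.1 z.2)) := pl_meas.ennreal_ofReal
  have mw : Measurable (fun r : ℝ => ENNReal.ofReal (wr r)) := wr_meas.ennreal_ofReal
  have mL : ∀ {φ : ℝ → ℝ≥0∞}, Measurable φ → Measurable (Lap φ) := by
    intro φ hφ
    have m : Measurable (fun z : ℝ × ℝ => φ z.2 * ENNReal.ofReal (pl z.2 z.1)) :=
      (hφ.comp measurable_snd).mul (m1.comp measurable_swap)
    exact m.lintegral_prod_right'
  -- T φ in terms of the Laplace transform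
  have hT : ∀ s, Tt φ s = ∫⁻ r in Ioi (0 : ℝ), ENNReal.ofReal (pl s r) *
      (Lap φ r * ENNReal.ofReal (wr r)) := by
    intro s
    unfold Tt
    have e1 : ∀ t, φ t * Ke (s - t) = ∫⁻ r in Ioi (0 : ℝ), φ t * (ENNReal.ofReal (pl s r) *
      (ENNReal.ofReal (pl t r) * ENNReal.ofReal (wr r))) := by
      intro t
      rw [Ke_laplace]
      have hm : Measurable (fun r => ENNReal.ofReal (pl s r) *
        (ENNReal.ofReal (pl t r) * ENNReal.ofReal (wr r))) :=
        (m1.comp measurable_prodMk_left).mul ((m1.comp measurable_prodMk_left).mul mw)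
      rw [lintegral_const_mul _ hm]
    simp_rw [e1]
    have m2 : Measurable (fun z : ℝ × ℝ => φ z.1 * (ENNReal.ofReal (pl s z.2) *
      (ENNReal.ofReal (pl z.1 z.2) * ENNReal.ofReal (wr z.2)))) :=
      (hφ.comp measurable_fst).mul (((m1.comp measurable_prodMk_left).comp measurable_snd).mul
        (m1.mul (mw.comp measurable_snd)))
    rw [lintegral_lintegral_swap m2.aemeasurable]
    refine lintegral_congr fun r => ?_
    unfold Lap
    have hm : Measurable (fun t => φ t * ENNReal.ofReal (pl t r)) :=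
      hφ.mul (m1.comp measurable_prodMk_right)
    rw [← lintegral_mul_const _ hm, ← lintegral_const_mul _ (hm.mul_const _)]
    refine lintegral_congr fun t => ?_
    ring
  simp_rw [hT]
  have e2 : ∀ s, ψ s * ∫⁻ r in Ioi (0 : ℝ), ENNReal.ofReal (pl s r) *
      (Lap φ r * ENNReal.ofReal (wr r)) = ∫⁻ r in Ioi (0 : ℝ), ψ s * (ENNReal.ofReal (pl s r) *
      (Lap φ r * ENNReal.ofReal (wr r))) := by
    intro s
    have hm : Measurable (fun r => ENNReal.ofReal (pl s r) *
      (Lap φ r * ENNReal.ofReal (wr r))) :=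
      (m1.comp measurable_prodMk_left).mul ((mL hφ).mul mw)
    rw [lintegral_const_mul _ hm]
  simp_rw [e2]
  have m3 : Measurable (fun z : ℝ × ℝ => ψ z.1 * (ENNReal.ofReal (pl z.1 z.2) *
      (Lap φ z.2 * ENNReal.ofReal (wr z.2)))) :=
    (hψ.comp measurable_fst).mul (m1.mul (((mL hφ).comp measurable_snd).mul
      (mw.comp measurable_snd)))
  rw [lintegral_lintegral_swap m3.aemeasurable]
  refine lintegral_congr fun r => ?_
  have hm : Measurable (fun t => ψ t * ENNReal.ofReal (pl t r)) :=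
    hψ.mul (m1.comp measurable_prodMk_right)
  have e3 : Lap ψ r * Lap φ r * ENNReal.ofReal (wr r) =
      Lap ψ r * (Lap φ r * ENNReal.ofReal (wr r)) := mul_assoc _ _ _
  rw [e3]
  nth_rewrite 2 [Lap]
  rw [← lintegral_mul_const _ hm]
  refine lintegral_congr fun s => ?_
  ring

/-- Cauchy–Schwarz for the form. -/
lemma form_cs {φ ψ : ℝ → ℝ≥0∞} (hφ : Measurable φ) (hψ : Measurable ψ) :
    ∫⁻ s, ψ s * Tt φ s ≤ (∫⁻ s, ψ s * Tt ψ s) ^ (1 / 2 : ℝ) *
      (∫⁻ s, φ s * Tt φ s) ^ (1 / 2 : ℝ) := by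
  have m1 : Measurable (fun z : ℝ × ℝ => ENNReal.ofReal (pl z.1 z.2)) := pl_meas.ennreal_ofReal
  have mw : Measurable (fun r : ℝ => ENNReal.ofReal (wr r)) := wr_meas.ennreal_ofReal
  have mL : ∀ {φ : ℝ → ℝ≥0∞}, Measurable φ → Measurable (Lap φ) := by
    intro φ hφ
    have m : Measurable (fun z : ℝ × ℝ => φ z.2 * ENNReal.ofReal (pl z.2 z.1)) :=
      (hφ.comp measurable_snd).mul (m1.comp measurable_swap)
    exact m.lintegral_prod_right'
  rw [form_laplace hφ hψ, form_laplace hψ hψ, form_laplace hφ hφ]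
  have hc : Real.HolderConjugate 2 2 := by
    rw [Real.holderConjugate_iff]
    norm_num
  have h := ENNReal.lintegral_mul_le_Lp_mul_Lq (volume.restrict (Ioi (0 : ℝ))) hc
    (f := fun r => Lap ψ r * ENNReal.ofReal (wr r) ^ (1 / 2 : ℝ))
    (g := fun r => Lap φ r * ENNReal.ofReal (wr r) ^ (1 / 2 : ℝ))
    ((mL hψ).mul (mw.pow_const _)).aemeasurable ((mL hφ).mul (mw.pow_const _)).aemeasurable
  have hw : ∀ r, ENNReal.ofReal (wr r) ^ (1 / 2 : ℝ) * ENNReal.ofReal (wr r) ^ (1 / 2 : ℝ) =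
      ENNReal.ofReal (wr r) := by
    intro r
    rw [← ENNReal.rpow_add_of_nonneg _ _ (by norm_num) (by norm_num)]
    norm_num
  have e1 : ∀ r, ((fun r => Lap ψ r * ENNReal.ofReal (wr r) ^ (1 / 2 : ℝ)) *
      fun r => Lap φ r * ENNReal.ofReal (wr r) ^ (1 / 2 : ℝ)) r =
      Lap ψ r * Lap φ r * ENNReal.ofReal (wr r) := by
    intro r
    simp only [Pi.mul_apply]
    rw [mul_mul_mul_comm, hw r]
  have e2 : ∀ (φ : ℝ → ℝ≥0∞) (r : ℝ), (Lap φ r * ENNReal.ofReal (wr r) ^ (1 / 2 : ℝ)) ^ (2 : ℝ) =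
      Lap φ r * Lap φ r * ENNReal.ofReal (wr r) := by
    intro φ r
    rw [ENNReal.rpow_two, sq, mul_mul_mul_comm, hw r]
  simp_rw [e1, e2] at h
  exact h

end MPdbfb19
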