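import Mathlib
import Pool.Agent.MP_dbfb19_an.Maxi
import Pool.Agent.MP_dbfb19_an.Psd

/-!
# The Euler–Lagrange equation of a maximiser
-/

open MeasureTheory Set Filter Topology
open scoped ENNReal

namespace MPdbfb19

lemma young_real {x y : ℝ} :
    x ^ 4 + 3 * y ^ 4 - 4 * (x * y ^ 3) = (x - y) ^ 2 * (x ^ 2 + 2 * x * y + 3 * y ^ 2) := by ring

lemma young_le {x y : ℝ} (hx : 0 ≤ x) (hy : 0 ≤ y) : 4 * (x * y ^ 3) ≤ x ^ 4 + 3 * y ^ 4 := by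
  have h := young_real (x := x) (y := y)
  have : 0 ≤ (x - y) ^ 2 * (x ^ 2 + 2 * x * y + 3 * y ^ 2) := by positivity
  linarith

lemma young_eq {x y : ℝ} (hx : 0 ≤ x) (hy : 0 ≤ y) (h : x ^ 4 + 3 * y ^ 4 ≤ 4 * (x * y ^ 3)) :
    x = y := by
  have h1 := young_real (x := x) (y := y)
  have h2 : 0 ≤ (x - y) ^ 2 * (x ^ 2 + 2 * x * y + 3 * y ^ 2) := by positivity
  have h3 : (x - y) ^ 2 * (x ^ 2 + 2 * x * y + 3 * y ^ 2) = 0 := by linarith
  rcases mul_eq_zero.1 h3 with h4 | h4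
  · have := pow_eq_zero_iff (two_ne_zero) |>.1 h4
    linarith
  · have a1 : 0 ≤ x ^ 2 := sq_nonneg x
    have a2 : 0 ≤ x * y := mul_nonneg hx hy
    have a3 : 0 ≤ y ^ 2 := sq_nonneg y
    have hx2 : x ^ 2 = 0 := by nlinarith
    have hy2 : y ^ 2 = 0 := by nlinarith
    have e1 : x = 0 := pow_eq_zero_iff (two_ne_zero) |>.1 hx2
    have e2 : y = 0 := pow_eq_zero_iff (two_ne_zero) |>.1 hy2
    rw [e1, e2]

lemma young_enn {x y : ℝ≥0∞} (hx : x ≠ ∞) (hy : y ≠ ∞) :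
    4 * (x * y ^ 3) ≤ x ^ 4 + 3 * y ^ 4 := by
  lift x to NNReal using hx
  lift y to NNReal using hy
  have h := young_le (x := (x : ℝ)) (y := (y : ℝ)) x.2 y.2
  exact_mod_cast h

lemma young_enn_eq {x y : ℝ≥0∞} (hx : x ≠ ∞) (hy : y ≠ ∞)
    (h : x ^ 4 + 3 * y ^ 4 ≤ 4 * (x * y ^ 3)) : x = y := by
  lift x to NNReal using hx
  lift y to NNReal using hy
  have h' : ((x : ℝ)) ^ 4 + 3 * (y : ℝ) ^ 4 ≤ 4 * ((x : ℝ) * (y : ℝ) ^ 3) := by exact_mod_cast h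
  have := young_eq (x := (x : ℝ)) (y := (y : ℝ)) x.2 y.2 h'
  exact_mod_cast this

lemma cbrt_cube (x : ℝ≥0∞) : (x ^ (1 / 3 : ℝ)) ^ 3 = x := by
  rw [← ENNReal.rpow_natCast, ← ENNReal.rpow_mul]
  norm_num

lemma cbrt_four (x : ℝ≥0∞) : (x ^ (1 / 3 : ℝ)) ^ 4 = x ^ (4 / 3 : ℝ) := by
  rw [← ENNReal.rpow_natCast, ← ENNReal.rpow_mul]
  norm_num

/-- From a maximiser to a solution of the nonlinear integral equation. -/
theorem exists_solution {c : ℝ≥0∞} (hc0 : c ≠ 0) (hct : c ≠ ∞) (hB : BB c) {ψ : ℝ → ℝ≥0∞}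
    (hψm : Measurable ψ) (hψt : ∀ s, ψ s ≠ ∞) (hψN : NN ψ = 1) (hψF : F4 (Tt ψ) = c ^ 4) :
    ∃ u : ℝ → ℝ≥0∞, Measurable u ∧ (∀ s, u s ≠ ∞) ∧ F4 u = 1 ∧
      ∀ s, Tt (fun t => u t ^ 3) s = c * u s := by
  have hTm : Measurable (Tt ψ) := Tt_meas hψm
  set χ : ℝ → ℝ≥0∞ := fun s => Tt ψ s ^ 3 * (c ^ 3)⁻¹ with hχ
  have hχm : Measurable χ := (hTm.pow_const 3).mul_const _
  have hc3 : c ^ 3 ≠ 0 := pow_ne_zero _ hc0
  have hc3t : c ^ 3 ≠ ∞ := ENNReal.pow_ne_top hct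
  have hc4 : c ^ 4 ≠ 0 := pow_ne_zero _ hc0
  have hc4t : c ^ 4 ≠ ∞ := ENNReal.pow_ne_top hct
  have hχN : NN χ = 1 := by
    unfold NN
    have e1 : ∀ s, χ s ^ (4 / 3 : ℝ) = Tt ψ s ^ 4 * (c ^ 4)⁻¹ := by
      intro s
      simp only [hχ]
      rw [ENNReal.mul_rpow_of_nonneg _ _ (by norm_num), cube_rpow, ENNReal.inv_rpow, cube_rpow]
    simp_rw [e1]
    rw [lintegral_mul_const _ (hTm.pow_const 4)]
    change F4 (Tt ψ) * _ = 1
    rw [hψF, ENNReal.mul_inv_cancel hc4 hc4t]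
  have hχψ : ∫⁻ s, χ s * Tt ψ s = c := by
    have e1 : ∀ s, χ s * Tt ψ s = Tt ψ s ^ 4 * (c ^ 3)⁻¹ := by
      intro s
      simp only [hχ]
      ring
    simp_rw [e1]
    rw [lintegral_mul_const _ (hTm.pow_const 4)]
    change F4 (Tt ψ) * _ = c
    rw [hψF, pow_succ, mul_comm (c ^ 3), mul_assoc, ENNReal.mul_inv_cancel hc3 hc3t, mul_one]
  have hN1 : (1 : ℝ≥0∞) ≠ ∞ := ENNReal.one_ne_top
  have hχχ : ∫⁻ s, χ s * Tt χ s ≤ c := by
    have := hB χ χ hχm hχm (by rw [hχN]; exact hN1) (by rw [hχN]; exact hN1)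
    rwa [hχN, ENNReal.one_rpow, mul_one, mul_one] at this
  have hψψ : ∫⁻ s, ψ s * Tt ψ s ≤ c := by
    have := hB ψ ψ hψm hψm (by rw [hψN]; exact hN1) (by rw [hψN]; exact hN1)
    rwa [hψN, ENNReal.one_rpow, mul_one, mul_one] at this
  have hψψ' : c ≤ ∫⁻ s, ψ s * Tt ψ s := by
    have h1 := form_cs hψm hχm
    rw [hχψ] at h1
    have h2 : c ≤ c ^ (1 / 2 : ℝ) * (∫⁻ s, ψ s * Tt ψ s) ^ (1 / 2 : ℝ) := by
      refine h1.trans ?_
      gcongr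
    have h3 : c = c ^ (1 / 2 : ℝ) * c ^ (1 / 2 : ℝ) := by
      rw [← ENNReal.rpow_add_of_nonneg _ _ (by norm_num) (by norm_num)]
      norm_num
    have h4 : c ^ (1 / 2 : ℝ) * c ^ (1 / 2 : ℝ) ≤
        c ^ (1 / 2 : ℝ) * (∫⁻ s, ψ s * Tt ψ s) ^ (1 / 2 : ℝ) := by
      rw [← h3]
      exact h2
    have h5 : c ^ (1 / 2 : ℝ) ≠ 0 := by
      intro h
      rw [ENNReal.rpow_eq_zero_iff] at h
      rcases h with h | h
      · exact hc0 h.1
      · exact hct h.1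
    have h6 : c ^ (1 / 2 : ℝ) ≠ ∞ := ENNReal.rpow_ne_top_of_nonneg (by norm_num) hct
    exact (ENNReal.rpow_le_rpow_iff (by norm_num)).1 ((ENNReal.mul_le_mul_iff_right h5 h6).1 h4)
  have hψψe : ∫⁻ s, ψ s * Tt ψ s = c := le_antisymm hψψ hψψ'
  -- the candidate
  set u : ℝ → ℝ≥0∞ := fun s => Tt ψ s * c⁻¹ with hu
  have hum : Measurable u := hTm.mul_const _
  have hcinv : c⁻¹ ≠ ∞ := ENNReal.inv_ne_top.2 hc0
  have hTt : ∀ s, Tt ψ s ≠ ∞ := fun s => ne_top_of_le_ne_top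
    (ENNReal.mul_ne_top (ENNReal.rpow_ne_top_of_nonneg (by norm_num) (by rw [hψN]; exact hN1))
      MK_ne_top) (Tt_le hψm s)
  have hut : ∀ s, u s ≠ ∞ := fun s => ENNReal.mul_ne_top (hTt s) hcinv
  have hTu : ∀ s, Tt ψ s = c * u s := by
    intro s
    simp only [hu]
    rw [mul_comm (Tt ψ s), ← mul_assoc, ENNReal.mul_inv_cancel hc0 hct, one_mul]
  have huF : F4 u = 1 := by
    unfold F4
    have e1 : ∀ s, u s ^ 4 = Tt ψ s ^ 4 * (c ^ 4)⁻¹ := by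
      intro s
      simp only [hu]
      rw [mul_pow, ENNReal.inv_pow]
    simp_rw [e1]
    rw [lintegral_mul_const _ (hTm.pow_const 4)]
    change F4 (Tt ψ) * _ = 1
    rw [hψF, ENNReal.mul_inv_cancel hc4 hc4t]
  -- equality in Young's inequality
  set y : ℝ → ℝ≥0∞ := fun s => ψ s ^ (1 / 3 : ℝ) with hy
  have hym : Measurable y := hψm.pow_const _
  have hyt : ∀ s, y s ≠ ∞ := fun s => ENNReal.rpow_ne_top_of_nonneg (by norm_num) (hψt s)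
  have mL : Measurable (fun s => u s * y s ^ 3) := hum.mul (hym.pow_const 3)
  have mL4 : Measurable (fun s => 4 * (u s * y s ^ 3)) := mL.const_mul 4
  have mR : Measurable (fun s => u s ^ 4 + 3 * y s ^ 4) :=
    (hum.pow_const 4).add ((hym.pow_const 4).const_mul 3)
  have mψ : Measurable (fun s => ψ s * Tt ψ s) := hψm.mul hTm
  have hL : ∫⁻ s, 4 * (u s * y s ^ 3) = 4 := by
    rw [lintegral_const_mul _ mL]
    have e1 : ∀ s, u s * y s ^ 3 = ψ s * Tt ψ s * c⁻¹ := by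
      intro s
      simp only [hu, hy]
      rw [cbrt_cube]
      ring
    simp_rw [e1]
    rw [lintegral_mul_const _ mψ, hψψe, ENNReal.mul_inv_cancel hc0 hct, mul_one]
  have hR : ∫⁻ s, (u s ^ 4 + 3 * y s ^ 4) = 4 := by
    rw [lintegral_add_left (hum.pow_const 4), lintegral_const_mul _ (hym.pow_const 4)]
    have e1 : ∫⁻ s, u s ^ 4 = 1 := huF
    have e2 : ∫⁻ s, y s ^ 4 = 1 := by
      have : ∀ s, y s ^ 4 = ψ s ^ (4 / 3 : ℝ) := fun s => cbrt_four _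
      simp_rw [this]
      exact hψN
    rw [e1, e2]
    norm_num
  have hsub : ∫⁻ s, ((u s ^ 4 + 3 * y s ^ 4) - 4 * (u s * y s ^ 3)) = 0 := by
    rw [lintegral_sub mL4 (by rw [hL]; simp)
      (Eventually.of_forall fun s => young_enn (hut s) (hyt s)), hL, hR, tsub_self]
  have hae : ∀ᵐ s, u s = y s := by
    have mS : Measurable (fun s => (u s ^ 4 + 3 * y s ^ 4) - 4 * (u s * y s ^ 3)) := mR.sub mL4
    rw [lintegral_eq_zero_iff mS] at hsub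
    filter_upwards [hsub] with s hs
    exact young_enn_eq (hut s) (hyt s) (tsub_eq_zero_iff_le.1 hs)
  have hae3 : ∀ᵐ s, u s ^ 3 = ψ s := by
    filter_upwards [hae] with s hs
    rw [hs]
    exact cbrt_cube _
  refine ⟨u, hum, hut, huF, fun s => ?_⟩
  rw [← hTu s]
  unfold Tt
  refine lintegral_congr_ae ?_
  filter_upwards [hae3] with t ht
  rw [ht]

end MPdbfb19
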