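import Mathlib
import Pool.Agent.MP_dbfb19_an.Approx
import Pool.Agent.MP_dbfb19_an.Defs

/-!
# The inequality on the half line
-/

open MeasureTheory Set Filter Topology
open scoped ENNReal

namespace MPdbfb19

lemma exp_cv (u : ℝ → ℝ≥0∞) :
    ∫⁻ x in Ioi (0 : ℝ), u x = ∫⁻ s, ENNReal.ofReal (Real.exp s) * u (Real.exp s) := by
  have h := lintegral_image_eq_lintegral_abs_deriv_mul (s := univ) (f := Real.exp)
    (f' := Real.exp) MeasurableSet.univ
    (fun x _ => (Real.hasDerivAt_exp x).hasDerivWithinAt) (Real.exp_injective.injOn) u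
  rw [image_univ, Real.range_exp, Measure.restrict_univ] at h
  rw [h]
  refine lintegral_congr fun s => ?_
  rw [abs_of_pos (Real.exp_pos s)]

/-- The function in the variable `s = log x`. -/
noncomputable def lg (f : ℝ → ℝ) (s : ℝ) : ℝ := f (Real.exp s) * Real.exp (3 / 4 * s)

lemma lg_nonneg {f : ℝ → ℝ} (h0 : ∀ x, 0 ≤ f x) (s : ℝ) : 0 ≤ lg f s :=
  mul_nonneg (h0 _) (Real.exp_pos _).le

lemma lg_meas {f : ℝ → ℝ} (hm : Measurable f) : Measurable (lg f) := by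
  unfold lg
  exact (hm.comp Real.measurable_exp).mul (by fun_prop)

lemma lg_norm {f : ℝ → ℝ} (h0 : ∀ x, 0 ≤ f x)
    (hi : IntegrableOn (fun x => f x ^ (4 / 3 : ℝ)) (Ioi 0)) :
    eLpNorm (lg f) (4 / 3) volume =
      ENNReal.ofReal ((∫ x in Ioi (0 : ℝ), f x ^ (4 / 3 : ℝ)) ^ (3 / 4 : ℝ)) := by
  rw [eLp_eq (lg_nonneg h0)]
  have h1 : ∀ s, ENNReal.ofReal (lg f s) ^ (4 / 3 : ℝ) =
      ENNReal.ofReal (Real.exp s) * ENNReal.ofReal (f (Real.exp s) ^ (4 / 3 : ℝ)) := by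
    intro s
    rw [ENNReal.ofReal_rpow_of_nonneg (lg_nonneg h0 s) (by norm_num),
      ← ENNReal.ofReal_mul (Real.exp_pos s).le]
    congr 1
    unfold lg
    rw [Real.mul_rpow (h0 _) (Real.exp_pos _).le, ← Real.exp_mul, mul_comm]
    congr 2
    ring
  simp_rw [h1]
  rw [← exp_cv (fun x => ENNReal.ofReal (f x ^ (4 / 3 : ℝ))),
    ← ofReal_integral_eq_lintegral_ofReal hi
      (Eventually.of_forall fun x => Real.rpow_nonneg (h0 x) _),
    ENNReal.ofReal_rpow_of_nonneg (integral_nonneg fun x => Real.rpow_nonneg (h0 x) _)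
      (by norm_num)]

lemma lg_memLp {f : ℝ → ℝ} (hm : Measurable f) (h0 : ∀ x, 0 ≤ f x)
    (hi : IntegrableOn (fun x => f x ^ (4 / 3 : ℝ)) (Ioi 0)) :
    MemLp (lg f) (4 / 3) volume := by
  refine ⟨(lg_meas hm).aestronglyMeasurable, ?_⟩
  rw [lg_norm h0 hi]
  exact ENNReal.ofReal_lt_top

lemma kernel_eq (s t : ℝ) : Real.exp s * (Real.exp t * (Real.exp s + Real.exp t) ^ (-(1 / 2) : ℝ)) =
    Real.exp (3 / 4 * s) * (Real.exp (3 / 4 * t) * Kr (s - t) ^ (1 / 2 : ℝ)) := by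
  have e1 : Real.exp s + Real.exp t =
      Real.exp ((s + t) / 2) * (Real.exp ((s - t) / 2) + Real.exp (-((s - t) / 2))) := by
    rw [mul_add, ← Real.exp_add, ← Real.exp_add]
    congr 2 <;> ring
  have hp : 0 < Real.exp ((s - t) / 2) + Real.exp (-((s - t) / 2)) := by positivity
  have e2 : Kr (s - t) ^ (1 / 2 : ℝ) =
      (Real.exp ((s - t) / 2) + Real.exp (-((s - t) / 2))) ^ (-(1 / 2) : ℝ) := by
    unfold Kr
    rw [Real.inv_rpow hp.le, Real.rpow_neg hp.le]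
  rw [e1, Real.mul_rpow (Real.exp_pos _).le hp.le, e2, ← Real.exp_mul, ← mul_assoc, ← mul_assoc,
    ← mul_assoc, ← Real.exp_add, ← Real.exp_add, ← Real.exp_add]
  congr 2
  ring

lemma form_eq {f g : ℝ → ℝ} (hg : Measurable g) (hf0 : ∀ x, 0 ≤ f x)
    (hg0 : ∀ x, 0 ≤ g x) :
    ∫⁻ x in Ioi (0 : ℝ), ∫⁻ y in Ioi (0 : ℝ),
        ENNReal.ofReal (f x * g y * (x + y) ^ (-(1 / 2) : ℝ)) = Bf (lg f) (lg g) := by
  rw [exp_cv]
  unfold Bf
  refine lintegral_congr fun s => ?_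
  rw [exp_cv, ← lintegral_const_mul' _ _ ENNReal.ofReal_ne_top,
    ← lintegral_const_mul' _ _ ENNReal.ofReal_ne_top]
  refine lintegral_congr fun t => ?_
  unfold Ke lg
  rw [← ENNReal.ofReal_mul (Real.exp_pos t).le, ← ENNReal.ofReal_mul (Real.exp_pos s).le,
    ← ENNReal.ofReal_mul (mul_nonneg (hg0 _) (Real.exp_pos _).le),
    ← ENNReal.ofReal_mul (mul_nonneg (hf0 _) (Real.exp_pos _).le)]
  congr 1
  have h := kernel_eq s t
  calc Real.exp s * (Real.exp t * (f (Real.exp s) * g (Real.exp t) *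
        (Real.exp s + Real.exp t) ^ (-(1 / 2) : ℝ)))
      = f (Real.exp s) * g (Real.exp t) * (Real.exp s * (Real.exp t *
        (Real.exp s + Real.exp t) ^ (-(1 / 2) : ℝ))) := by ring
    _ = _ := by rw [h]; ring

theorem validI_C0 : ValidI C0 := by
  intro f g hf hg hf0 hg0 hfi hgi
  rw [form_eq hg hf0 hg0]
  refine le_trans (line_bound (lg_memLp hf hf0 hfi) (lg_nonneg hf0) (lg_memLp hg hg0 hgi)
    (lg_nonneg hg0)) ?_
  rw [lg_norm hf0 hfi, lg_norm hg0 hgi, ← ENNReal.ofReal_mul C0_pos.le,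
    ← ENNReal.ofReal_mul (mul_nonneg C0_pos.le
      (Real.rpow_nonneg (integral_nonneg fun x => Real.rpow_nonneg (hg0 x) _) _))]
  refine ENNReal.ofReal_le_ofReal (le_of_eq ?_)
  ring

lemma C0_lt : C0 < Real.sqrt Real.pi := by
  unfold C0
  have h27 : (2 : ℝ) < (27 : ℝ) ^ (1 / 4 : ℝ) := by
    have : (2 : ℝ) = (16 : ℝ) ^ (1 / 4 : ℝ) := by
      have h16 : (16 : ℝ) = 2 ^ (4 : ℝ) := by norm_num
      rw [h16, ← Real.rpow_mul (by norm_num)]
      norm_num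
    rw [this]
    exact Real.rpow_lt_rpow (by norm_num) (by norm_num) (by norm_num)
  have hp : 0 < Real.sqrt Real.pi := Real.sqrt_pos.2 Real.pi_pos
  rw [div_lt_iff₀ (by positivity)]
  nlinarith

end MPdbfb19
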