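import Mathlib
import Pool.Agent.MP_dbfb19_an.Defs

/-!
# The lower bound `2 / 3^{1/4}`
-/

open MeasureTheory Set Filter Topology
open scoped ENNReal

namespace MPdbfb19

lemma lint_of_deriv {g g' : ℝ → ℝ} {l : ℝ} (hcont : ContinuousWithinAt g (Ici 0) 0)
    (hderiv : ∀ x ∈ Ioi (0 : ℝ), HasDerivAt g (g' x) x) (hpos : ∀ x ∈ Ioi (0 : ℝ), 0 ≤ g' x)
    (hl : Tendsto g atTop (𝓝 l)) :
    IntegrableOn g' (Ioi 0) ∧ ∫ x in Ioi (0 : ℝ), g' x = l - g 0 ∧
      ∫⁻ x in Ioi (0 : ℝ), ENNReal.ofReal (g' x) = ENNReal.ofReal (l - g 0) := by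
  have h1 := integrableOn_Ioi_deriv_of_nonneg hcont hderiv hpos hl
  have h2 := integral_Ioi_of_hasDerivAt_of_nonneg hcont hderiv hpos hl
  refine ⟨h1, h2, ?_⟩
  rw [← ofReal_integral_eq_lintegral_ofReal h1
    ((ae_restrict_iff' measurableSet_Ioi).2 (Eventually.of_forall hpos)), h2]

/-- First test function. -/
noncomputable def f₀ (y : ℝ) : ℝ := (1 + |y|) ^ (-(3 / 2) : ℝ)

/-- Second test function. -/
noncomputable def g₀ (x : ℝ) : ℝ := ((1 + Real.sqrt x) ^ 3)⁻¹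

lemma f₀_nonneg (y : ℝ) : 0 ≤ f₀ y := by unfold f₀; positivity

lemma g₀_nonneg (y : ℝ) : 0 ≤ g₀ y := by unfold g₀; positivity

lemma f₀_meas : Measurable f₀ := by
  unfold f₀
  exact ((measurable_id.abs).const_add 1).pow_const _

lemma g₀_meas : Measurable g₀ := by
  unfold g₀
  exact ((measurable_id.sqrt.const_add 1).pow_const 3).inv

lemma f₀_int : IntegrableOn (fun x => f₀ x ^ (4 / 3 : ℝ)) (Ioi 0) ∧
    ∫ x in Ioi (0 : ℝ), f₀ x ^ (4 / 3 : ℝ) = 1 := by
  have hd : ∀ x ∈ Ioi (0 : ℝ), HasDerivAt (fun x : ℝ => -(1 + x)⁻¹) (f₀ x ^ (4 / 3 : ℝ)) x := by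
    intro x hx
    have hx0 : 0 < x := hx
    have h1 : HasDerivAt (fun x : ℝ => 1 + x) 1 x := (hasDerivAt_id x).const_add 1
    have h2 := (h1.inv (by positivity : (1 + x) ≠ 0)).neg
    refine HasDerivAt.congr_deriv h2 ?_
    unfold f₀
    rw [abs_of_pos hx0, ← Real.rpow_mul (by positivity)]
    have : (-(3 / 2) * (4 / 3) : ℝ) = -2 := by norm_num
    rw [this, Real.rpow_neg (by positivity)]
    norm_num
    rw [neg_div, neg_neg, one_div]
  have hc : ContinuousWithinAt (fun x : ℝ => -(1 + x)⁻¹) (Ici 0) 0 := by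
    refine ContinuousAt.continuousWithinAt ?_
    exact (((continuous_const.add continuous_id).continuousAt).inv₀ (by norm_num)).neg
  have hl : Tendsto (fun x : ℝ => -(1 + x)⁻¹) atTop (𝓝 0) := by
    have h1 : Tendsto (fun x : ℝ => 1 + x) atTop atTop :=
      tendsto_atTop_add_const_left _ 1 tendsto_id
    have := (tendsto_inv_atTop_zero.comp h1).neg
    simpa using this
  have h := lint_of_deriv hc hd (fun x _ => Real.rpow_nonneg (f₀_nonneg x) _) hl
  refine ⟨h.1, ?_⟩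
  rw [h.2.1]
  norm_num

lemma g₀_aux : (IntegrableOn (fun x : ℝ => ((1 + Real.sqrt x) ^ 4)⁻¹) (Ioi 0) ∧
    ∫ x in Ioi (0 : ℝ), ((1 + Real.sqrt x) ^ 4)⁻¹ = 1 / 3 ∧
    ∫⁻ x in Ioi (0 : ℝ), ENNReal.ofReal (((1 + Real.sqrt x) ^ 4)⁻¹) =
      ENNReal.ofReal (1 / 3)) := by
  set P : ℝ → ℝ := fun x => -((1 + Real.sqrt x) ^ 2)⁻¹ + 2 / 3 * ((1 + Real.sqrt x) ^ 3)⁻¹ with hP
  have hd : ∀ x ∈ Ioi (0 : ℝ), HasDerivAt P (((1 + Real.sqrt x) ^ 4)⁻¹) x := by
    intro x hx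
    have hx0 : 0 < x := hx
    have hs : 0 < Real.sqrt x := Real.sqrt_pos.2 hx0
    have h1 : HasDerivAt (fun x : ℝ => 1 + Real.sqrt x) (1 / (2 * Real.sqrt x)) x :=
      (Real.hasDerivAt_sqrt hx0.ne').const_add 1
    have hp : 0 < 1 + Real.sqrt x := by positivity
    have h2 := (h1.pow 2).inv (pow_pos hp 2).ne'
    have h3 := (h1.pow 3).inv (pow_pos hp 3).ne'
    have h4 := h2.neg.add (h3.const_mul (2 / 3))
    refine HasDerivAt.congr_deriv h4 ?_
    simp only [Pi.pow_apply]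
    field_simp
    ring
  have hc : ContinuousWithinAt P (Ici 0) 0 := by
    refine ContinuousAt.continuousWithinAt (Continuous.continuousAt ?_)
    have c1 : Continuous (fun x : ℝ => 1 + Real.sqrt x) :=
      continuous_const.add Real.continuous_sqrt
    have p1 : ∀ x : ℝ, 0 < 1 + Real.sqrt x := fun x => by positivity
    exact (((c1.pow 2).inv₀ (fun x => (pow_pos (p1 x) 2).ne')).neg).add
      (continuous_const.mul ((c1.pow 3).inv₀ (fun x => (pow_pos (p1 x) 3).ne')))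
  have hl : Tendsto P atTop (𝓝 0) := by
    have h1 : Tendsto (fun x : ℝ => 1 + Real.sqrt x) atTop atTop :=
      tendsto_atTop_add_const_left _ 1 Real.tendsto_sqrt_atTop
    have h2 : Tendsto (fun x : ℝ => (1 + Real.sqrt x) ^ 2) atTop atTop :=
      (tendsto_pow_atTop (by norm_num)).comp h1
    have h3 : Tendsto (fun x : ℝ => (1 + Real.sqrt x) ^ 3) atTop atTop :=
      (tendsto_pow_atTop (by norm_num)).comp h1
    have h4 := (tendsto_inv_atTop_zero.comp h2).neg.add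
      ((tendsto_inv_atTop_zero.comp h3).const_mul (2 / 3))
    simpa using h4
  have h := lint_of_deriv hc hd (fun x _ => by positivity) hl
  have e : (0 : ℝ) - P 0 = 1 / 3 := by
    simp only [hP, Real.sqrt_zero]
    norm_num
  rw [e] at h
  exact h

lemma g₀_pow (x : ℝ) : g₀ x ^ (4 / 3 : ℝ) = ((1 + Real.sqrt x) ^ 4)⁻¹ := by
  unfold g₀
  have hp : 0 < 1 + Real.sqrt x := by positivity
  rw [Real.inv_rpow (by positivity), ← Real.rpow_natCast, ← Real.rpow_mul hp.le,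
    ← Real.rpow_natCast]
  norm_num

lemma inner_int {x : ℝ} (hx : 0 < x) (hx1 : x ≠ 1) :
    ∫⁻ y in Ioi (0 : ℝ), ENNReal.ofReal (f₀ y * (x + y) ^ (-(1 / 2) : ℝ)) =
      ENNReal.ofReal (2 * (1 + Real.sqrt x)⁻¹) := by
  have hx1' : 1 - x ≠ 0 := sub_ne_zero.2 (Ne.symm hx1)
  set P : ℝ → ℝ := fun y => 2 / (1 - x) * Real.sqrt ((x + y) / (1 + y)) with hP
  have hd : ∀ y ∈ Ioi (0 : ℝ), HasDerivAt P (f₀ y * (x + y) ^ (-(1 / 2) : ℝ)) y := by
    intro y hy
    have hy0 : 0 < y := hy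
    have p1 : 0 < x + y := by positivity
    have p2 : 0 < 1 + y := by positivity
    have h1 : HasDerivAt (fun y : ℝ => x + y) 1 y := (hasDerivAt_id y).const_add x
    have h2 : HasDerivAt (fun y : ℝ => 1 + y) 1 y := (hasDerivAt_id y).const_add 1
    have h3 := h1.div h2 p2.ne'
    have h4 := h3.sqrt (div_pos p1 p2).ne'
    have h5 := h4.const_mul (2 / (1 - x))
    refine HasDerivAt.congr_deriv h5 ?_
    unfold f₀
    rw [abs_of_pos hy0]
    simp only [Pi.div_apply]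
    rw [Real.sqrt_div p1.le, Real.rpow_neg p2.le, Real.rpow_neg p1.le, ← Real.sqrt_eq_rpow]
    have e1 : (1 + y) ^ (3 / 2 : ℝ) = (1 + y) * Real.sqrt (1 + y) := by
      rw [Real.sqrt_eq_rpow, show (3 / 2 : ℝ) = 1 + 1 / 2 by norm_num, Real.rpow_add p2,
        Real.rpow_one]
    rw [e1]
    have s1 : 0 < Real.sqrt (1 + y) := Real.sqrt_pos.2 p2
    have s2 : 0 < Real.sqrt (x + y) := Real.sqrt_pos.2 p1
    have s3 : Real.sqrt (1 + y) ^ 2 = 1 + y := Real.sq_sqrt p2.le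
    field_simp
    rw [s3]
    ring
  have hc : ContinuousWithinAt P (Ici 0) 0 := by
    refine ContinuousAt.continuousWithinAt ?_
    have c1 : ContinuousAt (fun y : ℝ => (x + y) / (1 + y)) 0 :=
      ContinuousAt.div (by fun_prop) (by fun_prop) (by norm_num)
    exact (c1.sqrt).const_mul _
  have hl : Tendsto P atTop (𝓝 (2 / (1 - x) * 1)) := by
    refine Tendsto.const_mul _ ?_
    have h1 : Tendsto (fun y : ℝ => (x + y) / (1 + y)) atTop (𝓝 1) := by
      have h2 : Tendsto (fun y : ℝ => 1 + (x - 1) * (1 + y)⁻¹) atTop (𝓝 (1 + (x - 1) * 0)) := by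
        refine tendsto_const_nhds.add (Tendsto.const_mul _ ?_)
        exact tendsto_inv_atTop_zero.comp (tendsto_atTop_add_const_left _ 1 tendsto_id)
      rw [mul_zero, add_zero] at h2
      refine h2.congr' ?_
      filter_upwards [eventually_gt_atTop 0] with y hy
      have : 1 + y ≠ 0 := by positivity
      field_simp
      ring
    have h3 := (Real.continuous_sqrt.tendsto 1).comp h1
    rw [Real.sqrt_one] at h3
    exact h3
  have h := (lint_of_deriv hc hd (fun y hy => mul_nonneg (f₀_nonneg y)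
    (Real.rpow_nonneg (add_pos hx hy).le _)) hl).2.2
  rw [h]
  congr 1
  simp only [hP]
  rw [add_zero, add_zero, div_one, mul_one]
  have s1 : Real.sqrt x ^ 2 = x := Real.sq_sqrt hx.le
  have s2 : 0 ≤ Real.sqrt x := Real.sqrt_nonneg x
  have s3 : 1 - x = (1 - Real.sqrt x) * (1 + Real.sqrt x) := by nlinarith
  have s4 : 1 - Real.sqrt x ≠ 0 := by
    intro h0
    apply hx1'
    rw [s3, h0, zero_mul]
  have s5 : 1 + Real.sqrt x ≠ 0 := by positivity
  rw [s3]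
  field_simp

theorem lower_bound {C : ℝ} (h : ValidI C) : 2 / (3 : ℝ) ^ (1 / 4 : ℝ) ≤ C := by
  have hgi : IntegrableOn (fun x => g₀ x ^ (4 / 3 : ℝ)) (Ioi 0) := by
    simp_rw [g₀_pow]
    exact g₀_aux.1
  have key := h g₀ f₀ g₀_meas f₀_meas g₀_nonneg f₀_nonneg hgi f₀_int.1
  rw [f₀_int.2] at key
  simp_rw [g₀_pow] at key
  rw [g₀_aux.2.1, Real.one_rpow, mul_one] at key
  have e1 : ∫⁻ x in Ioi (0 : ℝ), ∫⁻ y in Ioi (0 : ℝ),
      ENNReal.ofReal (g₀ x * f₀ y * (x + y) ^ (-(1 / 2) : ℝ)) = ENNReal.ofReal (2 / 3) := by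
    have e2 : ∀ᵐ x ∂(volume.restrict (Ioi (0 : ℝ))), ∫⁻ y in Ioi (0 : ℝ),
        ENNReal.ofReal (g₀ x * f₀ y * (x + y) ^ (-(1 / 2) : ℝ)) =
        ENNReal.ofReal 2 * ENNReal.ofReal (((1 + Real.sqrt x) ^ 4)⁻¹) := by
      have hne : ∀ᵐ x : ℝ ∂volume, x ≠ 1 := by
        simp [ae_iff]
      filter_upwards [ae_restrict_of_ae hne, ae_restrict_mem measurableSet_Ioi] with x hx1 hx
      have e3 : ∀ y, ENNReal.ofReal (g₀ x * f₀ y * (x + y) ^ (-(1 / 2) : ℝ)) =
          ENNReal.ofReal (g₀ x) * ENNReal.ofReal (f₀ y * (x + y) ^ (-(1 / 2) : ℝ)) := by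
        intro y
        rw [mul_assoc, ENNReal.ofReal_mul (g₀_nonneg x)]
      simp_rw [e3]
      rw [lintegral_const_mul' _ _ ENNReal.ofReal_ne_top, inner_int hx hx1,
        ← ENNReal.ofReal_mul (g₀_nonneg x), ← ENNReal.ofReal_mul (by norm_num)]
      congr 1
      unfold g₀
      have : 0 < 1 + Real.sqrt x := by positivity
      field_simp
    rw [lintegral_congr_ae e2, lintegral_const_mul' _ _ ENNReal.ofReal_ne_top, g₀_aux.2.2,
      ← ENNReal.ofReal_mul (by norm_num)]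
    norm_num
  rw [e1] at key
  have h0 : 0 < C * (1 / 3 : ℝ) ^ (3 / 4 : ℝ) := by
    by_contra hc
    rw [ENNReal.ofReal_of_nonpos (not_lt.1 hc), nonpos_iff_eq_zero, ENNReal.ofReal_eq_zero] at key
    norm_num at key
  rw [ENNReal.ofReal_le_ofReal_iff h0.le] at key
  have e5 : (1 / 3 : ℝ) ^ (3 / 4 : ℝ) = (1 / 3) * (3 : ℝ) ^ (1 / 4 : ℝ) := by
    rw [one_div, Real.inv_rpow (by norm_num), ← Real.rpow_neg (by norm_num),
      show (-(3 / 4) : ℝ) = -1 + 1 / 4 by norm_num, Real.rpow_add (by norm_num),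
      Real.rpow_neg_one]
  rw [e5] at key
  have hp : (0 : ℝ) < (3 : ℝ) ^ (1 / 4 : ℝ) := by positivity
  rw [div_le_iff₀ hp]
  linarith

end MPdbfb19
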