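import Mathlib
import Pool.Agent.MP_dbfb19_an.Defs
import Pool.Agent.MP_dbfb19_an.Half
import Pool.Agent.MP_dbfb19_an.Compare
import Pool.Agent.MP_dbfb19_an.Lower
import Pool.Agent.MP_dbfb19_an.Eq

/-!
# Assembly
-/

open MeasureTheory Set Filter Topology
open scoped ENNReal

namespace MPdbfb19

/-! ### Existence of the least constants -/

lemma validI_closed : IsClosed {C : ℝ | ValidI C} := by
  have : {C : ℝ | ValidI C} = ⋂ (f : ℝ → ℝ) (g : ℝ → ℝ) (_ : Measurable f) (_ : Measurable g)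
      (_ : ∀ x, 0 ≤ f x) (_ : ∀ y, 0 ≤ g y)
      (_ : IntegrableOn (fun x => f x ^ (4 / 3 : ℝ)) (Ioi 0))
      (_ : IntegrableOn (fun y => g y ^ (4 / 3 : ℝ)) (Ioi 0)),
      {C : ℝ | ∫⁻ x in Ioi (0 : ℝ), ∫⁻ y in Ioi (0 : ℝ),
        ENNReal.ofReal (f x * g y * (x + y) ^ (-(1 / 2) : ℝ)) ≤
      ENNReal.ofReal (C * (∫ x in Ioi (0 : ℝ), f x ^ (4 / 3 : ℝ)) ^ (3 / 4 : ℝ) *
        (∫ y in Ioi (0 : ℝ), g y ^ (4 / 3 : ℝ)) ^ (3 / 4 : ℝ))} := by
    ext C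
    simp only [mem_iInter]
    rfl
  rw [this]
  refine isClosed_iInter fun f => isClosed_iInter fun g => isClosed_iInter fun _ =>
    isClosed_iInter fun _ => isClosed_iInter fun _ => isClosed_iInter fun _ =>
    isClosed_iInter fun _ => isClosed_iInter fun _ => ?_
  refine isClosed_le continuous_const ?_
  exact ENNReal.continuous_ofReal.comp (by fun_prop)

lemma exists_least : ∃ c : ℝ, IsLeast {C : ℝ | ValidI C} c := by
  have hb : BddBelow {C : ℝ | ValidI C} := ⟨2 / (3 : ℝ) ^ (1 / 4 : ℝ), fun C hC => lower_bound hC⟩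
  have hne : {C : ℝ | ValidI C}.Nonempty := ⟨C0, validI_C0⟩
  exact ⟨sInf {C : ℝ | ValidI C}, validI_closed.csInf_mem hne hb, fun C hC => csInf_le hb hC⟩

/-! ### Passage between the half line and the line -/

/-- The function on the half line with given logarithmic version. -/
noncomputable def ul (φ : ℝ → ℝ≥0∞) (x : ℝ) : ℝ :=
  (φ (Real.log x)).toReal * Real.exp (-(3 / 4 * Real.log x))

lemma ul_meas {φ : ℝ → ℝ≥0∞} (hφ : Measurable φ) : Measurable (ul φ) := by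
  unfold ul
  exact (hφ.comp Real.measurable_log).ennreal_toReal.mul
    ((Real.measurable_log.const_mul _).neg.exp)

lemma ul_nonneg (φ : ℝ → ℝ≥0∞) (x : ℝ) : 0 ≤ ul φ x :=
  mul_nonneg ENNReal.toReal_nonneg (Real.exp_pos _).le

lemma lg_ul (φ : ℝ → ℝ≥0∞) (s : ℝ) : lg (ul φ) s = (φ s).toReal := by
  unfold lg ul
  rw [Real.log_exp, mul_assoc, ← Real.exp_add, neg_add_cancel, Real.exp_zero, mul_one]

lemma lint_pow {f : ℝ → ℝ} (h0 : ∀ x, 0 ≤ f x) :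
    ∫⁻ x in Ioi (0 : ℝ), ENNReal.ofReal (f x ^ (4 / 3 : ℝ)) =
      NN (fun s => ENNReal.ofReal (lg f s)) := by
  rw [exp_cv]
  unfold NN
  refine lintegral_congr fun s => ?_
  rw [ENNReal.ofReal_rpow_of_nonneg (lg_nonneg h0 s) (by norm_num),
    ← ENNReal.ofReal_mul (Real.exp_pos s).le]
  congr 1
  unfold lg
  rw [Real.mul_rpow (h0 _) (Real.exp_pos _).le, ← Real.exp_mul, mul_comm]
  congr 2
  ring

lemma integrable_of_NN {f : ℝ → ℝ} (hm : Measurable f) (h0 : ∀ x, 0 ≤ f x)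
    (hN : NN (fun s => ENNReal.ofReal (lg f s)) ≠ ∞) :
    IntegrableOn (fun x => f x ^ (4 / 3 : ℝ)) (Ioi 0) := by
  refine ⟨(hm.pow_const _).aestronglyMeasurable, ?_⟩
  rw [hasFiniteIntegral_iff_ofReal (Eventually.of_forall fun x => Real.rpow_nonneg (h0 x) _),
    lint_pow h0]
  exact hN.lt_top

lemma ofReal_integral {f : ℝ → ℝ} (h0 : ∀ x, 0 ≤ f x)
    (hi : IntegrableOn (fun x => f x ^ (4 / 3 : ℝ)) (Ioi 0)) :
    ENNReal.ofReal (∫ x in Ioi (0 : ℝ), f x ^ (4 / 3 : ℝ)) =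
      NN (fun s => ENNReal.ofReal (lg f s)) := by
  rw [ofReal_integral_eq_lintegral_ofReal hi
      (Eventually.of_forall fun x => Real.rpow_nonneg (h0 x) _), lint_pow h0]

lemma rhs_eq {C : ℝ} (hC : 0 ≤ C) {f g : ℝ → ℝ} (hf0 : ∀ x, 0 ≤ f x) (hg0 : ∀ x, 0 ≤ g x)
    (hfi : IntegrableOn (fun x => f x ^ (4 / 3 : ℝ)) (Ioi 0))
    (hgi : IntegrableOn (fun x => g x ^ (4 / 3 : ℝ)) (Ioi 0)) :
    ENNReal.ofReal (C * (∫ x in Ioi (0 : ℝ), f x ^ (4 / 3 : ℝ)) ^ (3 / 4 : ℝ) *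
        (∫ y in Ioi (0 : ℝ), g y ^ (4 / 3 : ℝ)) ^ (3 / 4 : ℝ)) =
      ENNReal.ofReal C * NN (fun s => ENNReal.ofReal (lg f s)) ^ (3 / 4 : ℝ) *
        NN (fun s => ENNReal.ofReal (lg g s)) ^ (3 / 4 : ℝ) := by
  have p1 : 0 ≤ ∫ x in Ioi (0 : ℝ), f x ^ (4 / 3 : ℝ) :=
    integral_nonneg fun x => Real.rpow_nonneg (hf0 x) _
  have p2 : 0 ≤ ∫ x in Ioi (0 : ℝ), g x ^ (4 / 3 : ℝ) :=
    integral_nonneg fun x => Real.rpow_nonneg (hg0 x) _
  rw [ENNReal.ofReal_mul (mul_nonneg hC (Real.rpow_nonneg p1 _)), ENNReal.ofReal_mul hC,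
    ← ENNReal.ofReal_rpow_of_nonneg p1 (by norm_num),
    ← ENNReal.ofReal_rpow_of_nonneg p2 (by norm_num), ofReal_integral hf0 hfi,
    ofReal_integral hg0 hgi]

lemma lhs_eq {f g : ℝ → ℝ} (hf : Measurable f) (hg : Measurable g) (hf0 : ∀ x, 0 ≤ f x)
    (hg0 : ∀ x, 0 ≤ g x) :
    ∫⁻ x in Ioi (0 : ℝ), ∫⁻ y in Ioi (0 : ℝ),
        ENNReal.ofReal (f x * g y * (x + y) ^ (-(1 / 2) : ℝ)) =
      ∫⁻ s, ENNReal.ofReal (lg g s) * Tt (fun t => ENNReal.ofReal (lg f t)) s := by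
  have m1 : Measurable (fun s => ENNReal.ofReal (lg f s)) := (lg_meas hf).ennreal_ofReal
  have m2 : Measurable (fun s => ENNReal.ofReal (lg g s)) := (lg_meas hg).ennreal_ofReal
  rw [form_eq hg hf0 hg0, Tt_symm m1 m2]
  rfl

lemma BB_of_validI {C : ℝ} (hC : 0 ≤ C) (h : ValidI C) : BB (ENNReal.ofReal C) := by
  intro φ ψ hφ hψ hNφ hNψ
  have key : ∀ {φ : ℝ → ℝ≥0∞}, Measurable φ → NN φ ≠ ∞ →
      (∀ᵐ s, ENNReal.ofReal (lg (ul φ) s) = φ s) := by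
    intro φ hφ hN
    unfold NN at hN
    have h1 := ae_lt_top (hφ.pow_const (4 / 3 : ℝ)) hN
    filter_upwards [h1] with s hs
    rw [lg_ul, ENNReal.ofReal_toReal]
    intro h2
    rw [h2, ENNReal.top_rpow_of_pos (by norm_num)] at hs
    exact lt_irrefl _ hs
  have a1 := key hφ hNφ
  have a2 := key hψ hNψ
  have n1 : NN (fun s => ENNReal.ofReal (lg (ul φ) s)) = NN φ := by
    unfold NN
    refine lintegral_congr_ae ?_
    filter_upwards [a1] with s hs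
    rw [hs]
  have n2 : NN (fun s => ENNReal.ofReal (lg (ul ψ) s)) = NN ψ := by
    unfold NN
    refine lintegral_congr_ae ?_
    filter_upwards [a2] with s hs
    rw [hs]
  have i1 : IntegrableOn (fun x => ul φ x ^ (4 / 3 : ℝ)) (Ioi 0) :=
    integrable_of_NN (ul_meas hφ) (ul_nonneg φ) (by rw [n1]; exact hNφ)
  have i2 : IntegrableOn (fun x => ul ψ x ^ (4 / 3 : ℝ)) (Ioi 0) :=
    integrable_of_NN (ul_meas hψ) (ul_nonneg ψ) (by rw [n2]; exact hNψ)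
  have h1 := h (ul φ) (ul ψ) (ul_meas hφ) (ul_meas hψ) (ul_nonneg φ) (ul_nonneg ψ) i1 i2
  rw [rhs_eq hC (ul_nonneg φ) (ul_nonneg ψ) i1 i2, n1, n2,
    lhs_eq (ul_meas hφ) (ul_meas hψ) (ul_nonneg φ) (ul_nonneg ψ)] at h1
  refine le_trans (le_of_eq ?_) h1
  have e1 : ∀ s, Tt φ s = Tt (fun t => ENNReal.ofReal (lg (ul φ) t)) s := by
    intro s
    unfold Tt
    refine lintegral_congr_ae ?_
    filter_upwards [a1] with t ht
    rw [ht]
  refine lintegral_congr_ae ?_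
  filter_upwards [a2] with s hs
  rw [hs, e1]

lemma near {c : ℝ} (hc : IsLeast {C : ℝ | ValidI C} c) {c' : ℝ} (h0 : 0 ≤ c') (h1 : c' < c) :
    ∃ φ : ℝ → ℝ≥0∞, Measurable φ ∧ NN φ = 1 ∧ ENNReal.ofReal c' ^ 4 ≤ F4 (Tt φ) := by
  have hn : ¬ ValidI c' := fun h => absurd (hc.2 h) (not_le.2 h1)
  unfold ValidI at hn
  push Not at hn
  obtain ⟨f, g, hf, hg, hf0, hg0, hfi, hgi, hlt⟩ := hn
  rw [rhs_eq h0 hf0 hg0 hfi hgi, lhs_eq hf hg hf0 hg0] at hlt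
  set φ : ℝ → ℝ≥0∞ := fun s => ENNReal.ofReal (lg f s) with hφ
  set ψ : ℝ → ℝ≥0∞ := fun s => ENNReal.ofReal (lg g s) with hψ
  have hφm : Measurable φ := (lg_meas hf).ennreal_ofReal
  have hψm : Measurable ψ := (lg_meas hg).ennreal_ofReal
  have hφN : NN φ ≠ ∞ := by
    rw [hφ, ← ofReal_integral hf0 hfi]
    exact ENNReal.ofReal_ne_top
  have hψN : NN ψ ≠ ∞ := by
    rw [hψ, ← ofReal_integral hg0 hgi]
    exact ENNReal.ofReal_ne_top
  have hc0 : 0 ≤ c := h0.trans h1.le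
  have hB := BB_of_validI hc0 hc.1
  have hup := hB φ ψ hφm hψm hφN hψN
  have hφ0 : NN φ ≠ 0 := by
    intro h
    rw [h, ENNReal.zero_rpow_of_pos (by norm_num), mul_zero, zero_mul] at hup
    rw [nonpos_iff_eq_zero.1 hup] at hlt
    exact absurd hlt not_lt_zero
  have hψ0 : NN ψ ≠ 0 := by
    intro h
    rw [h, ENNReal.zero_rpow_of_pos (by norm_num), mul_zero] at hup
    rw [nonpos_iff_eq_zero.1 hup] at hlt
    exact absurd hlt not_lt_zero
  have hh := holder hψm (Tt_meas hφm)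
  -- lower bound of F4 (T φ)
  have h2 : ENNReal.ofReal c' * NN φ ^ (3 / 4 : ℝ) < F4 (Tt φ) ^ (1 / 4 : ℝ) := by
    have h3 : ENNReal.ofReal c' * NN φ ^ (3 / 4 : ℝ) * NN ψ ^ (3 / 4 : ℝ) <
        F4 (Tt φ) ^ (1 / 4 : ℝ) * NN ψ ^ (3 / 4 : ℝ) := by
      refine hlt.trans_le (hh.trans (le_of_eq ?_))
      ring
    exact lt_of_mul_lt_mul_right' h3
  -- normalise
  set k : ℝ≥0∞ := (NN φ ^ (3 / 4 : ℝ))⁻¹ with hk
  have hp0 : NN φ ^ (3 / 4 : ℝ) ≠ 0 := by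
    intro h
    rw [ENNReal.rpow_eq_zero_iff] at h
    rcases h with h | h
    · exact hφ0 h.1
    · exact hφN h.1
  have hpt : NN φ ^ (3 / 4 : ℝ) ≠ ∞ := ENNReal.rpow_ne_top_of_nonneg (by norm_num) hφN
  refine ⟨fun s => φ s * k, hφm.mul_const _, ?_, ?_⟩
  · unfold NN
    have e1 : ∀ s, (φ s * k) ^ (4 / 3 : ℝ) = φ s ^ (4 / 3 : ℝ) * (NN φ)⁻¹ := by
      intro s
      rw [ENNReal.mul_rpow_of_nonneg _ _ (by norm_num), hk, ENNReal.inv_rpow, ← ENNReal.rpow_mul]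
      norm_num
    simp_rw [e1]
    rw [lintegral_mul_const _ (hφm.pow_const _)]
    exact ENNReal.mul_inv_cancel hφ0 hφN
  · have e2 : ∀ s, Tt (fun s => φ s * k) s = Tt φ s * k := by
      intro s
      have hm : Measurable (fun t => φ t * Ke (s - t)) :=
        hφm.mul (Ke_meas.comp (measurable_const.sub measurable_id))
      unfold Tt
      rw [← lintegral_mul_const _ hm]
      refine lintegral_congr fun t => ?_
      ring
    have e3 : F4 (Tt (fun s => φ s * k)) = F4 (Tt φ) * k ^ 4 := by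
      unfold F4
      rw [← lintegral_mul_const _ ((Tt_meas hφm).pow_const 4)]
      refine lintegral_congr fun s => ?_
      rw [e2, mul_pow]
    rw [e3]
    have h4 := pow_le_pow_left' h2.le 4
    have e4 : (F4 (Tt φ) ^ (1 / 4 : ℝ)) ^ 4 = F4 (Tt φ) := by
      rw [← ENNReal.rpow_natCast, ← ENNReal.rpow_mul]
      norm_num
    rw [e4, mul_pow] at h4
    calc ENNReal.ofReal c' ^ 4 = ENNReal.ofReal c' ^ 4 * (NN φ ^ (3 / 4 : ℝ)) ^ 4 * k ^ 4 := by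
          rw [mul_assoc, ← mul_pow, hk, ENNReal.mul_inv_cancel hp0 hpt, one_pow, mul_one]
      _ ≤ F4 (Tt φ) * k ^ 4 := by gcongr

lemma exists_seq {c : ℝ} (hc : IsLeast {C : ℝ | ValidI C} c) (hc0 : 0 < c) :
    ∃ φ : ℕ → ℝ → ℝ≥0∞, (∀ n, Measurable (φ n)) ∧ (∀ n, NN (φ n) = 1) ∧
      Tendsto (fun n => F4 (Tt (φ n))) atTop (𝓝 (ENNReal.ofReal c ^ 4)) := by
  have h1 : ∀ n : ℕ, 0 ≤ c * (1 - 1 / ((n : ℝ) + 1)) ∧ c * (1 - 1 / ((n : ℝ) + 1)) < c := by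
    intro n
    have hn : (0 : ℝ) < 1 / ((n : ℝ) + 1) := by positivity
    have hn1 : 1 / ((n : ℝ) + 1) ≤ 1 := by
      rw [div_le_one (by positivity)]
      have : (0 : ℝ) ≤ n := Nat.cast_nonneg n
      linarith
    constructor
    · exact mul_nonneg hc0.le (by linarith)
    · nlinarith
  choose φ h2 h3 h4 using fun n : ℕ => near hc (h1 n).1 (h1 n).2
  refine ⟨φ, h2, h3, ?_⟩
  have hB := BB_of_validI hc0.le hc.1
  have hup : ∀ n, F4 (Tt (φ n)) ≤ ENNReal.ofReal c ^ 4 := by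
    intro n
    have := op_bound hB (h2 n) (by rw [h3]; exact ENNReal.one_ne_top)
    rwa [h3, one_pow, mul_one] at this
  refine tendsto_of_tendsto_of_tendsto_of_le_of_le ?_ tendsto_const_nhds h4 hup
  have h5 : Tendsto (fun n : ℕ => c * (1 - 1 / ((n : ℝ) + 1))) atTop (𝓝 (c * (1 - 0))) :=
    (tendsto_const_nhds.sub tendsto_one_div_add_atTop_nhds_zero_nat).const_mul c
  rw [sub_zero, mul_one] at h5
  exact ((ENNReal.continuous_pow 4).tendsto _).comp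
    ((ENNReal.continuous_ofReal.tendsto _).comp h5)

/-- The value of the integral transform in the logarithmic variable. -/
lemma Tt_half {f : ℝ → ℝ} (hf0 : ∀ x, 0 ≤ f x) (s : ℝ) :
    Tt (fun t => ENNReal.ofReal (lg f t)) s = ENNReal.ofReal (Real.exp (1 / 4 * s)) *
      ∫⁻ y in Ioi (0 : ℝ), ENNReal.ofReal (f y * (Real.exp s + y) ^ (-(1 / 2) : ℝ)) := by
  rw [exp_cv, ← lintegral_const_mul' _ _ ENNReal.ofReal_ne_top]
  unfold Tt
  refine lintegral_congr fun t => ?_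
  unfold Ke lg
  rw [← ENNReal.ofReal_mul (Real.exp_pos t).le, ← ENNReal.ofReal_mul (Real.exp_pos _).le,
    ← ENNReal.ofReal_mul (mul_nonneg (hf0 _) (Real.exp_pos _).le)]
  congr 1
  have h := kernel_eq s t
  have e : Real.exp (3 / 4 * s) * Real.exp (1 / 4 * s) = Real.exp s := by
    rw [← Real.exp_add]
    congr 1
    ring
  have hp : Real.exp (3 / 4 * s) ≠ 0 := (Real.exp_pos _).ne'
  apply mul_left_cancel₀ hp
  calc Real.exp (3 / 4 * s) * (f (Real.exp t) * Real.exp (3 / 4 * t) * Kr (s - t) ^ (1 / 2 : ℝ))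
      = f (Real.exp t) * (Real.exp (3 / 4 * s) * (Real.exp (3 / 4 * t) *
        Kr (s - t) ^ (1 / 2 : ℝ))) := by ring
    _ = f (Real.exp t) * (Real.exp s * (Real.exp t *
        (Real.exp s + Real.exp t) ^ (-(1 / 2) : ℝ))) := by rw [h]
    _ = f (Real.exp t) * ((Real.exp (3 / 4 * s) * Real.exp (1 / 4 * s)) * (Real.exp t *
        (Real.exp s + Real.exp t) ^ (-(1 / 2) : ℝ))) := by rw [e]
    _ = _ := by ring

end MPdbfb19
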