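import Mathlib
import Pool.Agent.MP_dbfb19_an.Final

/-!
# The integral equation, attainment in (I), non-attainment in (S)
-/

open MeasureTheory Set Filter Topology
open scoped ENNReal

namespace MPdbfb19

/-- The least constant is an eigenvalue. -/
theorem eigen_least {c : ℝ} (hc : IsLeast {C : ℝ | ValidI C} c) (hc0 : 0 < c) : Eigen c := by
  obtain ⟨φ, h1, h2, h3⟩ := exists_seq hc hc0
  have hB := BB_of_validI hc0.le hc.1
  have hC0 : ENNReal.ofReal c ≠ 0 := (ENNReal.ofReal_pos.2 hc0).ne'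
  obtain ⟨ψ, h4, h5, h6, h7⟩ := exists_max hC0 ENNReal.ofReal_ne_top hB h1 h2 h3
  obtain ⟨u, hum, hut, huF, hue⟩ := exists_solution hC0 ENNReal.ofReal_ne_top hB h4 h5 h6 h7
  set U : ℝ → ℝ := fun x => (u (Real.log x)).toReal * Real.exp (-(1 / 4 * Real.log x)) with hU
  have hU0 : ∀ x, 0 ≤ U x := fun x => mul_nonneg ENNReal.toReal_nonneg (Real.exp_pos _).le
  have hUexp : ∀ s, U (Real.exp s) = (u s).toReal * Real.exp (-(1 / 4 * s)) := by
    intro s
    simp only [hU, Real.log_exp]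
  refine ⟨U, ?_, hU0, ?_, ?_⟩
  · exact (hum.comp Real.measurable_log).ennreal_toReal.mul
      ((Real.measurable_log.const_mul _).neg.exp)
  · rw [exp_cv, ← huF]
    unfold F4
    refine lintegral_congr fun s => ?_
    rw [hUexp, ← ENNReal.ofReal_mul (Real.exp_pos s).le]
    have e : Real.exp s * ((u s).toReal * Real.exp (-(1 / 4 * s))) ^ 4 = (u s).toReal ^ 4 := by
      rw [mul_pow, ← Real.exp_nat_mul]
      have : Real.exp s * ((u s).toReal ^ 4 * Real.exp (((4 : ℕ) : ℝ) * -(1 / 4 * s))) =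
          (u s).toReal ^ 4 * (Real.exp s * Real.exp (((4 : ℕ) : ℝ) * -(1 / 4 * s))) := by ring
      rw [this, ← Real.exp_add]
      have e0 : s + ((4 : ℕ) : ℝ) * -(1 / 4 * s) = 0 := by push_cast; ring
      rw [e0, Real.exp_zero, mul_one]
    rw [e, ENNReal.ofReal_pow ENNReal.toReal_nonneg, ENNReal.ofReal_toReal (hut s)]
  · intro x hx
    have hx0 : 0 < x := hx
    set s := Real.log x with hs
    have hxs : Real.exp s = x := Real.exp_log hx0
    have h8 := Tt_half (f := fun y => U y ^ 3) (fun y => pow_nonneg (hU0 y) 3) s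
    have e1 : ∀ t, ENNReal.ofReal (lg (fun y => U y ^ 3) t) = u t ^ 3 := by
      intro t
      have e : lg (fun y => U y ^ 3) t = (u t).toReal ^ 3 := by
        unfold lg
        simp only
        rw [hUexp, mul_pow, ← Real.exp_nat_mul, mul_assoc, ← Real.exp_add]
        have e0 : ((3 : ℕ) : ℝ) * -(1 / 4 * t) + 3 / 4 * t = 0 := by push_cast; ring
        rw [e0, Real.exp_zero, mul_one]
      rw [e, ENNReal.ofReal_pow ENNReal.toReal_nonneg, ENNReal.ofReal_toReal (hut t)]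
    simp_rw [e1] at h8
    rw [hue, hxs] at h8
    -- multiply by exp(-s/4)
    have e2 : ENNReal.ofReal (Real.exp (-(1 / 4 * s))) * ENNReal.ofReal (Real.exp (1 / 4 * s)) =
        1 := by
      rw [← ENNReal.ofReal_mul (Real.exp_pos _).le, ← Real.exp_add, neg_add_cancel, Real.exp_zero,
        ENNReal.ofReal_one]
    have h9 := congrArg (fun z => ENNReal.ofReal (Real.exp (-(1 / 4 * s))) * z) h8
    rw [← mul_assoc _ (ENNReal.ofReal (Real.exp (1 / 4 * s))), e2, one_mul] at h9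
    rw [← h9]
    have hUx : U x = (u s).toReal * Real.exp (-(1 / 4 * s)) := rfl
    rw [hUx, ENNReal.ofReal_mul hc0.le, ENNReal.ofReal_mul ENNReal.toReal_nonneg,
      ENNReal.ofReal_toReal (hut s)]
    ring

lemma cube_pow43 {x : ℝ} (hx : 0 ≤ x) : (x ^ 3) ^ (4 / 3 : ℝ) = x ^ 4 := by
  rw [← Real.rpow_natCast, ← Real.rpow_mul hx, ← Real.rpow_natCast x 4]
  norm_num

/-- The data attached to an eigenfunction. -/
lemma eigen_data {μ : ℝ} (hμ : 0 ≤ μ) {u : ℝ → ℝ} (hm : Measurable u) (h0 : ∀ x, 0 ≤ u x)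
    (h4 : ∫⁻ x in Ioi (0 : ℝ), ENNReal.ofReal (u x ^ 4) = 1)
    (he : ∀ x ∈ Ioi (0 : ℝ),
      ∫⁻ y in Ioi (0 : ℝ), ENNReal.ofReal (u y ^ 3 * (x + y) ^ (-(1 / 2) : ℝ)) =
        ENNReal.ofReal (μ * u x)) :
    IntegrableOn (fun x => (u x ^ 3) ^ (4 / 3 : ℝ)) (Ioi 0) ∧
    ∫ x in Ioi (0 : ℝ), (u x ^ 3) ^ (4 / 3 : ℝ) = 1 ∧
    ∫⁻ x in Ioi (0 : ℝ), ∫⁻ y in Ioi (0 : ℝ),
      ENNReal.ofReal (u x ^ 3 * u y ^ 3 * (x + y) ^ (-(1 / 2) : ℝ)) = ENNReal.ofReal μ := by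
  have hp : ∀ x, (u x ^ 3) ^ (4 / 3 : ℝ) = u x ^ 4 := fun x => cube_pow43 (h0 x)
  simp_rw [hp]
  have hn : ∀ x, 0 ≤ u x ^ 4 := fun x => pow_nonneg (h0 x) 4
  refine ⟨?_, ?_, ?_⟩
  · refine ⟨(hm.pow_const 4).aestronglyMeasurable, ?_⟩
    rw [hasFiniteIntegral_iff_ofReal (Eventually.of_forall hn), h4]
    exact ENNReal.one_lt_top
  · rw [integral_eq_lintegral_of_nonneg_ae (Eventually.of_forall hn)
      (hm.pow_const 4).aestronglyMeasurable, h4, ENNReal.toReal_one]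
  · have e1 : ∫⁻ x in Ioi (0 : ℝ), ∫⁻ y in Ioi (0 : ℝ),
      ENNReal.ofReal (u x ^ 3 * u y ^ 3 * (x + y) ^ (-(1 / 2) : ℝ)) =
      ∫⁻ x in Ioi (0 : ℝ), ENNReal.ofReal μ * ENNReal.ofReal (u x ^ 4) := by
      refine setLIntegral_congr_fun measurableSet_Ioi fun x hx => ?_
      have e2 : ∀ y, ENNReal.ofReal (u x ^ 3 * u y ^ 3 * (x + y) ^ (-(1 / 2) : ℝ)) =
          ENNReal.ofReal (u x ^ 3) * ENNReal.ofReal (u y ^ 3 * (x + y) ^ (-(1 / 2) : ℝ)) := by
        intro y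
        rw [← ENNReal.ofReal_mul (pow_nonneg (h0 x) 3), mul_assoc]
      simp_rw [e2]
      rw [lintegral_const_mul' _ _ ENNReal.ofReal_ne_top, he x hx,
        ← ENNReal.ofReal_mul (pow_nonneg (h0 x) 3), ← ENNReal.ofReal_mul hμ]
      congr 1
      ring
    rw [e1, lintegral_const_mul' _ _ ENNReal.ofReal_ne_top, h4, mul_one]

theorem eigen_le {c μ : ℝ} (hc : ValidI c) (hc0 : 0 < c) (h : Eigen μ) : μ ≤ c := by
  by_contra hlt
  rw [not_le] at hlt
  have hμ : 0 < μ := hc0.trans hlt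
  obtain ⟨u, hm, h0, h4, he⟩ := h
  obtain ⟨a1, a2, a3⟩ := eigen_data hμ.le hm h0 h4 he
  have key := hc (fun x => u x ^ 3) (fun x => u x ^ 3) (hm.pow_const 3) (hm.pow_const 3)
    (fun x => pow_nonneg (h0 x) 3) (fun x => pow_nonneg (h0 x) 3) a1 a1
  simp only at key
  rw [a2, a3, Real.one_rpow, mul_one, mul_one, ENNReal.ofReal_le_ofReal_iff hc0.le] at key
  exact absurd key (not_le.2 hlt)

/-- The constant is attained in (I), with `f = g`. -/
theorem attained {c : ℝ} (hc : IsLeast {C : ℝ | ValidI C} c) (hc0 : 0 < c) :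
    ∃ f : ℝ → ℝ, Measurable f ∧ (∀ x, 0 ≤ f x) ∧
      IntegrableOn (fun x => f x ^ (4 / 3 : ℝ)) (Ioi 0) ∧
      ∫ x in Ioi (0 : ℝ), f x ^ (4 / 3 : ℝ) = 1 ∧
      ∫⁻ x in Ioi (0 : ℝ), ∫⁻ y in Ioi (0 : ℝ),
        ENNReal.ofReal (f x * f y * (x + y) ^ (-(1 / 2) : ℝ)) = ENNReal.ofReal c := by
  obtain ⟨u, hm, h0, h4, he⟩ := eigen_least hc hc0
  obtain ⟨a1, a2, a3⟩ := eigen_data hc0.le hm h0 h4 he
  exact ⟨fun x => u x ^ 3, hm.pow_const 3, fun x => pow_nonneg (h0 x) 3, a1, a2, a3⟩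

/-! ### Strict inequality in (S) -/

lemma cell_inner {m n : ℕ+} {x : ℝ} (hx : x ∈ cell 1 m) (hxm : x ≠ m) {A : ℝ} (hA : 0 < A) :
    ENNReal.ofReal (A * ((m : ℝ) + (n : ℝ)) ^ (-(1 / 2) : ℝ)) <
      ∫⁻ y in cell 1 n, ENNReal.ofReal (A * (x + y) ^ (-(1 / 2) : ℝ)) := by
  have hx0 : 0 < x := by
    have : x ∈ ⋃ m, cell 1 m := mem_iUnion.2 ⟨m, hx⟩
    rw [cell_union one_pos] at this
    exact this
  have hx1 : x < (m : ℝ) := by
    have := hx.2
    have h2 : x ≤ m := by linarith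
    exact lt_of_le_of_ne h2 hxm
  have hn0 : (0 : ℝ) < n := by exact_mod_cast n.pos
  have h1 : (((m : ℝ) + (n : ℝ)) ^ (-(1 / 2) : ℝ)) < (x + (n : ℝ)) ^ (-(1 / 2) : ℝ) :=
    Real.rpow_lt_rpow_of_neg (by linarith) (by linarith) (by norm_num)
  have h2 : ENNReal.ofReal (A * ((m : ℝ) + (n : ℝ)) ^ (-(1 / 2) : ℝ)) <
      ENNReal.ofReal (A * (x + (n : ℝ)) ^ (-(1 / 2) : ℝ)) := by
    have hpos : 0 < A * (x + (n : ℝ)) ^ (-(1 / 2) : ℝ) := by positivity
    exact (ENNReal.ofReal_lt_ofReal_iff hpos).2 (mul_lt_mul_of_pos_left h1 hA)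
  refine h2.trans_le (const_le_cell fun y hy => ?_)
  have hy0 : 0 < y := by
    have : y ∈ ⋃ m, cell 1 m := mem_iUnion.2 ⟨n, hy⟩
    rw [cell_union one_pos] at this
    exact this
  have hy1 : y ≤ n := by have := hy.2; linarith
  apply ENNReal.ofReal_le_ofReal
  refine mul_le_mul_of_nonneg_left ?_ hA.le
  exact Real.rpow_le_rpow_of_nonpos (by linarith) (by linarith) (by norm_num)

theorem not_attained {c : ℝ} (hc : ValidI c) {a b : ℕ+ → ℝ} (ha : ∀ m, 0 ≤ a m)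
    (hb : ∀ n, 0 ≤ b n) (hsa : Summable (fun m => a m ^ (4 / 3 : ℝ)))
    (hsb : Summable (fun n => b n ^ (4 / 3 : ℝ))) (ha1 : ∃ m, a m ≠ 0) (hb1 : ∃ n, b n ≠ 0) :
    ∑' (m : ℕ+) (n : ℕ+), ENNReal.ofReal (a m * b n * ((m : ℝ) + (n : ℝ)) ^ (-(1 / 2) : ℝ)) <
      ENNReal.ofReal (c * (∑' m, a m ^ (4 / 3 : ℝ)) ^ (3 / 4 : ℝ) *
        (∑' n, b n ^ (4 / 3 : ℝ)) ^ (3 / 4 : ℝ)) := by
  have key := hc (stp a) (stp b) (stp_meas a) (stp_meas b) (fun x => ha _) (fun x => hb _)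
    (stp_integrable ha hsa) (stp_integrable hb hsb)
  rw [stp_integral ha hsa, stp_integral hb hsb] at key
  refine lt_of_lt_of_le ?_ key
  obtain ⟨m0, hm0⟩ := ha1
  obtain ⟨n0, hn0⟩ := hb1
  have hS := validS_of_validI hc a b ha hb hsa hsb
  have hfin : ∑' (m : ℕ+) (n : ℕ+),
      ENNReal.ofReal (a m * b n * ((m : ℝ) + (n : ℝ)) ^ (-(1 / 2) : ℝ)) ≠ ∞ :=
    ne_top_of_le_ne_top ENNReal.ofReal_ne_top hS
  -- pointwise lower bound on cells
  have hpt : ∀ (m n : ℕ+) (x : ℝ), x ∈ cell 1 m → 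
      ENNReal.ofReal (a m * b n * ((m : ℝ) + (n : ℝ)) ^ (-(1 / 2) : ℝ)) ≤
      ∫⁻ y in cell 1 n, ENNReal.ofReal (stp a x * stp b y * (x + y) ^ (-(1 / 2) : ℝ)) := by
    intro m n x hx
    refine const_le_cell fun y hy => ?_
    rw [stp_cell hx, stp_cell hy]
    apply ENNReal.ofReal_le_ofReal
    have hx0 : 0 < x := by
      have : x ∈ ⋃ m, cell 1 m := mem_iUnion.2 ⟨m, hx⟩
      rw [cell_union one_pos] at this
      exact this
    have hy0 : 0 < y := by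
      have : y ∈ ⋃ m, cell 1 m := mem_iUnion.2 ⟨n, hy⟩
      rw [cell_union one_pos] at this
      exact this
    have hx1 : x ≤ (m : ℝ) := by have := hx.2; linarith
    have hy1 : y ≤ (n : ℝ) := by have := hy.2; linarith
    refine mul_le_mul_of_nonneg_left ?_ (mul_nonneg (ha _) (hb _))
    exact Real.rpow_le_rpow_of_nonpos (by linarith) (by linarith) (by norm_num)
  rw [lintegral_cells one_pos]
  refine ENNReal.tsum_lt_tsum (i := m0) hfin (fun m => const_le_cell fun x hx => ?_) ?_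
  · rw [lintegral_cells one_pos]
    exact ENNReal.tsum_le_tsum fun n => hpt m n x hx
  · have hfin1 : ∑' (n : ℕ+),
        ENNReal.ofReal (a m0 * b n * ((m0 : ℝ) + (n : ℝ)) ^ (-(1 / 2) : ℝ)) ≠ ∞ :=
      ENNReal.ne_top_of_tsum_ne_top hfin m0
    have hstrict : ∀ x ∈ cell 1 m0, x ≠ m0 →
        ∑' (n : ℕ+), ENNReal.ofReal (a m0 * b n * ((m0 : ℝ) + (n : ℝ)) ^ (-(1 / 2) : ℝ)) <
        ∫⁻ y in Ioi (0 : ℝ), ENNReal.ofReal (stp a x * stp b y * (x + y) ^ (-(1 / 2) : ℝ)) := by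
      intro x hx hxm
      rw [lintegral_cells one_pos]
      refine ENNReal.tsum_lt_tsum (i := n0) hfin1 (fun n => hpt m0 n x hx) ?_
      have hA : 0 < a m0 * b n0 :=
        mul_pos (lt_of_le_of_ne (ha m0) (Ne.symm hm0)) (lt_of_le_of_ne (hb n0) (Ne.symm hn0))
      refine (cell_inner hx hxm (n := n0) hA).trans_le (le_of_eq ?_)
      refine setLIntegral_congr_fun (cell_meas _ _) fun y hy => ?_
      rw [stp_cell hx, stp_cell hy]
    have hc1 : ∑' (n : ℕ+), ENNReal.ofReal (a m0 * b n * ((m0 : ℝ) + (n : ℝ)) ^ (-(1 / 2) : ℝ)) =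
        ∫⁻ _x in cell 1 m0,
          ∑' (n : ℕ+), ENNReal.ofReal (a m0 * b n * ((m0 : ℝ) + (n : ℝ)) ^ (-(1 / 2) : ℝ)) := by
      rw [setLIntegral_const, volume_cell, ENNReal.ofReal_one, mul_one]
    rw [hc1]
    refine lintegral_strict_mono ?_ ?_ ?_ ?_
    · intro h
      have := congrArg (fun μ : Measure ℝ => μ univ) h
      simp only [Measure.restrict_apply_univ, volume_cell] at this
      simp at this
    · have m0' : Measurable (fun z : ℝ × ℝ =>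
          ENNReal.ofReal (stp a z.1 * stp b z.2 * (z.1 + z.2) ^ (-(1 / 2) : ℝ))) :=
        ((((stp_meas a).comp measurable_fst).mul ((stp_meas b).comp measurable_snd)).mul
          ((measurable_fst.add measurable_snd).pow_const _)).ennreal_ofReal
      exact m0'.lintegral_prod_right'.aemeasurable
    · rw [← hc1]
      exact hfin1
    · have hne : ∀ᵐ x : ℝ ∂volume, x ≠ (m0 : ℝ) := by
        simp [ae_iff]
      filter_upwards [ae_restrict_of_ae hne, ae_restrict_mem (cell_meas 1 m0)] with x hx1 hx2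
      exact hstrict x hx2 hx1

end MPdbfb19
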